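import Pool.Agent.Helper809.Cub.Defs

set_option autoImplicit false

namespace ChrRoots

open Polynomial



theorem IsPoly.const (c : ℝ) : IsPoly (fun _ => c) := ⟨Polynomial.C c, fun x => by simp⟩

theorem IsPoly.id : IsPoly (fun q => q) := ⟨X, fun x => by simp⟩

theorem IsPoly.add {f g : ℝ → ℝ} (hf : IsPoly f) (hg : IsPoly g) :
    IsPoly (fun q => f q + g q) := by
  obtain ⟨p, hp⟩ := hf
  obtain ⟨r, hr⟩ := hg
  exact ⟨p + r, fun x => by rw [Polynomial.eval_add, ← hp, ← hr]⟩

theorem IsPoly.sub {f g : ℝ → ℝ} (hf : IsPoly f) (hg : IsPoly g) :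
    IsPoly (fun q => f q - g q) := by
  obtain ⟨p, hp⟩ := hf
  obtain ⟨r, hr⟩ := hg
  exact ⟨p - r, fun x => by rw [Polynomial.eval_sub, ← hp, ← hr]⟩

theorem IsPoly.mul {f g : ℝ → ℝ} (hf : IsPoly f) (hg : IsPoly g) :
    IsPoly (fun q => f q * g q) := by
  obtain ⟨p, hp⟩ := hf
  obtain ⟨r, hr⟩ := hg
  exact ⟨p * r, fun x => by rw [Polynomial.eval_mul, ← hp, ← hr]⟩

theorem IsPoly.div_const {f : ℝ → ℝ} (hf : IsPoly f) (c : ℝ) :
    IsPoly (fun q => f q / c) := by
  have h := hf.mul (IsPoly.const (c⁻¹))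
  have e : (fun q => f q / c) = (fun q => f q * c⁻¹) := by
    funext q; rw [div_eq_mul_inv]
  rw [e]; exact h

theorem IsPoly.pow {f : ℝ → ℝ} (hf : IsPoly f) (m : ℕ) : IsPoly (fun q => f q ^ m) := by
  obtain ⟨p, hp⟩ := hf
  exact ⟨p ^ m, fun x => by rw [Polynomial.eval_pow, ← hp]⟩

theorem IsPoly.sum {ι : Type*} (s : Finset ι) (f : ι → ℝ → ℝ) (h : ∀ i ∈ s, IsPoly (f i)) :
    IsPoly (fun q => ∑ i ∈ s, f i q) := by
  classical
  induction s using Finset.induction_on with
  | empty => simpa using IsPoly.const 0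
  | insert a s ha ih =>
    have h1 : (fun q => ∑ i ∈ insert a s, f i q) = (fun q => f a q + ∑ i ∈ s, f i q) := by
      funext q; rw [Finset.sum_insert ha]
    rw [h1]
    exact (h a (Finset.mem_insert_self _ _)).add
      (ih fun i hi => h i (Finset.mem_insert_of_mem hi))

theorem isPoly_P {V : Type} [Fintype V] (r : V → V → Prop) : IsPoly (P r) := by
  classical
  have e : P r = (fun q => P r q) := rfl
  rw [e]
  unfold P
  exact IsPoly.sum _ _ fun A _ => (IsPoly.const _).mul (IsPoly.id.pow _)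

theorem IsPoly.eq_of_nat {f g : ℝ → ℝ} (hf : IsPoly f) (hg : IsPoly g)
    (h : ∀ N : ℕ, f N = g N) (x : ℝ) : f x = g x := by
  obtain ⟨p, hp⟩ := hf
  obtain ⟨r, hr⟩ := hg
  have hpr : p = r := by
    refine Polynomial.eq_of_infinite_eval_eq p r ?_
    refine Set.Infinite.mono (s := Set.range (fun N : ℕ => (N : ℝ))) ?_
      (Set.infinite_range_of_injective Nat.cast_injective)
    rintro _ ⟨N, rfl⟩
    show p.eval (N : ℝ) = r.eval (N : ℝ)
    rw [← hp, ← hr]
    exact h N
  rw [hp, hr, hpr]

theorem isPoly_T (V : Type) [Fintype V] : IsPoly (T V) := by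
  classical
  have e : T V = (fun q => T V q) := rfl
  rw [e]
  unfold T
  exact IsPoly.sum _ _ fun f _ => isPoly_P _

theorem isPoly_C (V : Type) [Fintype V] : IsPoly (C V) := by
  classical
  have e : C V = (fun q => C V q) := rfl
  rw [e]
  unfold C
  exact IsPoly.sum _ _ fun f _ => isPoly_P _

theorem isPoly_dd (n : ℕ) : IsPoly (fun q => dd q n) := by
  induction n using Nat.strong_induction_on with
  | _ n ih =>
    cases n with
    | zero =>
      have e : (fun q => dd q 0) = (fun _ => (1:ℝ)) := by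
        funext q; rw [dd]
      rw [e]; exact IsPoly.const 1
    | succ n =>
      have e : (fun q => dd q (n + 1)) = (fun q => (∑ k : Fin (n + 1),
          (q * (k.1 + 1) - (n - k.1)) * bet (k.1 + 1) * dd q (n - k.1)) / (n + 1)) := by
        funext q; rw [dd]
      rw [e]
      refine IsPoly.div_const (IsPoly.sum _ _ fun k _ => ?_) _
      exact (((IsPoly.id.mul (IsPoly.const _)).sub (IsPoly.const _)).mul (IsPoly.const _)).mul
        (ih (n - k.1) (by omega))

theorem isPoly_bin {a : ℝ → ℝ} (ha : IsPoly a) (s : ℕ) : IsPoly (fun q => bin (a q) s) := by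
  induction s with
  | zero =>
    have e : (fun q => bin (a q) 0) = (fun _ => (1:ℝ)) := by
      funext q; rw [bin]
    rw [e]; exact IsPoly.const 1
  | succ s ih =>
    have e : (fun q => bin (a q) (s + 1)) = (fun q => bin (a q) s * (a q - s) / (s + 1)) := by
      funext q; rw [bin]
    rw [e]
    exact (ih.mul (ha.sub (IsPoly.const _))).div_const _

theorem isPoly_mu (i : ℕ) : ∀ s, IsPoly (fun q => mu q s i) := by
  induction i using Nat.strong_induction_on with
  | _ i ih =>
    intro s
    match i, ih with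
    | 0, _ =>
      have e : (fun q => mu q s 0) = (fun _ => mom 1 s) := by
        funext q; rw [mu]
      rw [e]; exact IsPoly.const _
    | 1, _ =>
      have e : (fun q => mu q s 1) = (fun q => (q - 3) * mom 1 (s + 3)) := by
        funext q; rw [mu]
      rw [e]
      exact (IsPoly.id.sub (IsPoly.const _)).mul (IsPoly.const _)
    | (i + 2), ih =>
      have e : (fun q => mu q s (i + 2)) =
          (fun q => ((q - 3) * mu q (s + 3) (i + 1) + 9 * (q - 1) * mu q (s + 4) i) / (i + 2)) := by
        funext q; rw [mu]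
      rw [e]
      exact (((IsPoly.id.sub (IsPoly.const _)).mul (ih (i + 1) (by omega) (s + 3))).add
        (((IsPoly.const _).mul (IsPoly.id.sub (IsPoly.const _))).mul
          (ih i (by omega) (s + 4)))).div_const _

theorem isPoly_Sr (n : ℕ) : IsPoly (fun q => Sr q n) := by
  unfold Sr
  refine IsPoly.sum _ _ fun k _ => (isPoly_dd k).mul (IsPoly.sum _ _ fun s _ => ?_)
  refine ((isPoly_bin ?_ s).mul (IsPoly.const _)).mul (isPoly_mu _ _)
  exact ((IsPoly.const _).sub (IsPoly.id.div_const _)).sub (IsPoly.const _)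




end ChrRoots
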