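import Pool.Agent.Helper809.Cub.Defs

set_option autoImplicit false

namespace ChrRoots

open Polynomial

namespace J03


theorem EE_monomial (N : ℕ) (m : Option (Fin N) →₀ ℕ) (c : ℝ) :
    EE N (MvPolynomial.monomial m c) = c * ∏ i, mom (vr i) (m i) := by
  have h1 : (MvPolynomial.monomial m c : MvPolynomial (Option (Fin N)) ℝ) =
      c • (MvPolynomial.basisMonomials (Option (Fin N)) ℝ) m := by
    rw [MvPolynomial.coe_basisMonomials, MvPolynomial.smul_monomial, smul_eq_mul, mul_one]
  rw [h1, map_smul, smul_eq_mul]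
  unfold EE
  rw [Module.Basis.constr_basis]

theorem EE_one (N : ℕ) : EE N 1 = 1 := by
  have h1 : (1 : MvPolynomial (Option (Fin N)) ℝ) = MvPolynomial.monomial 0 1 := rfl
  rw [h1, EE_monomial]
  simp [mom]

theorem j8132_mom (v : ℝ) (k : ℕ) : mom v (k + 1) = v * k * mom v (k - 1) := by
  rcases k with _ | k
  · simp [mom]
  · show mom v (k + 2) = v * ((k + 1 : ℕ) : ℝ) * mom v k
    rw [mom]
    push_cast
    ring

theorem EE_ibp (N : ℕ) (i : Option (Fin N)) (p : MvPolynomial (Option (Fin N)) ℝ) :
    EE N (MvPolynomial.X i * p) = vr i * EE N (MvPolynomial.pderiv i p) := by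
  induction p using MvPolynomial.induction_on' with
  | monomial m c =>
    have h1 : (MvPolynomial.X i * MvPolynomial.monomial m c : MvPolynomial (Option (Fin N)) ℝ) =
        MvPolynomial.monomial (Finsupp.single i 1 + m) c := by
      rw [MvPolynomial.X, MvPolynomial.monomial_mul, one_mul]
    rw [h1, MvPolynomial.pderiv_monomial, EE_monomial, EE_monomial,
      ← Finset.mul_prod_erase Finset.univ _ (Finset.mem_univ i),
      ← Finset.mul_prod_erase Finset.univ
        (fun j => mom (vr j) ((m - Finsupp.single i 1 : Option (Fin N) →₀ ℕ) j)) (Finset.mem_univ i)]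
    have h2 : ∏ j ∈ Finset.univ.erase i, mom (vr j) ((Finsupp.single i 1 + m : Option (Fin N) →₀ ℕ) j) =
        ∏ j ∈ Finset.univ.erase i, mom (vr j) ((m - Finsupp.single i 1 : Option (Fin N) →₀ ℕ) j) := by
      refine Finset.prod_congr rfl fun j hj => ?_
      have hji : i ≠ j := (Finset.ne_of_mem_erase hj).symm
      rw [Finsupp.add_apply, Finsupp.tsub_apply, Finsupp.single_eq_of_ne' hji, zero_add, Nat.sub_zero]
    rw [h2]
    have h3 : mom (vr i) ((Finsupp.single i 1 + m : Option (Fin N) →₀ ℕ) i) = vr i * m i * mom (vr i) ((m - Finsupp.single i 1 : Option (Fin N) →₀ ℕ) i) := by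
      rw [Finsupp.add_apply, Finsupp.tsub_apply, Finsupp.single_eq_same, add_comm 1 (m i), j8132_mom]
    rw [h3]
    ring
  | add p q hp hq =>
    rw [mul_add, map_add, map_add, map_add, hp, hq]
    ring

theorem EE_indep (N : ℕ) (i : Option (Fin N)) (p : MvPolynomial (Option (Fin N)) ℝ)
    (hp : MvPolynomial.pderiv i p = 0) (m : ℕ) :
    EE N (MvPolynomial.X i ^ m * p) = mom (vr i) m * EE N p := by
  induction m using Nat.twoStepInduction with
  | zero => simp [mom]
  | one =>
    rw [pow_one, EE_ibp, hp, map_zero, mul_zero]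
    simp [mom]
  | more m ih _ =>
    have h1 : (MvPolynomial.X i ^ (m + 2) * p : MvPolynomial (Option (Fin N)) ℝ) =
        MvPolynomial.X i * (MvPolynomial.X i ^ (m + 1) * p) := by ring
    have h2 : MvPolynomial.pderiv i (MvPolynomial.X i ^ (m + 1) * p) =
        ((m : ℝ) + 1) • (MvPolynomial.X i ^ m * p) := by
      rw [Derivation.leibniz, hp, smul_zero, zero_add, Derivation.leibniz_pow,
        MvPolynomial.pderiv_X_self, Nat.add_sub_cancel, smul_eq_mul, smul_eq_mul, mul_one,
        nsmul_eq_mul, MvPolynomial.smul_eq_C_mul]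
      push_cast
      rw [map_add, map_natCast, map_one]
      ring
    rw [h1, EE_ibp, h2, map_smul, ih, smul_eq_mul]
    have h3 : mom (vr i) (m + 2) = vr i * (m + 1) * mom (vr i) m := by rw [mom]
    rw [h3]
    ring

theorem EE_hpow (N s : ℕ) : EE N (MvPolynomial.X none ^ s) = mom 1 s := by
  have h := EE_indep N none 1 (by simp) s
  rw [mul_one, EE_one, mul_one] at h
  exact h



end J03

end ChrRoots
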