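import Pool.Agent.Helper809.Cub.Defs

set_option autoImplicit false

namespace ChrRoots

open Polynomial

namespace J04



theorem der_prod {σ ι : Type} [DecidableEq ι]
    (D : Derivation ℝ (MvPolynomial σ ℝ) (MvPolynomial σ ℝ)) (S : Finset ι)
    (g : ι → MvPolynomial σ ℝ) :
    D (∏ y ∈ S, g y) = ∑ y ∈ S, (∏ z ∈ S.erase y, g z) * D (g y) := by
  induction S using Finset.induction_on with
  | empty => simp
  | insert a S ha ih =>
    rw [Finset.prod_insert ha, Derivation.leibniz, ih, Finset.sum_insert ha,
      Finset.erase_insert ha, smul_eq_mul, smul_eq_mul, Finset.mul_sum, add_comm]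
    congr 1
    apply Finset.sum_congr rfl
    intro y hy
    have hya : a ≠ y := fun h => ha (h ▸ hy)
    rw [Finset.erase_insert_of_ne hya, Finset.prod_insert (fun h => ha (Finset.mem_of_mem_erase h))]
    ring

open Classical in
/-- coloured matchings of `S` -/
noncomputable def PMS {N : ℕ} {H : Type} [Fintype H] (c : H → Fin N) (S : Finset H) :
    Finset (H → H) :=
  Finset.univ.filter (fun f => (∀ x, f (f x) = x) ∧ (∀ x ∈ S, f x ≠ x ∧ c (f x) ≠ c x) ∧
    ∀ x, x ∉ S → f x = x)

theorem mem_PMS {N : ℕ} {H : Type} [Fintype H] (c : H → Fin N) (S : Finset H) (f : H → H) :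
    f ∈ PMS c S ↔ (∀ x, f (f x) = x) ∧ (∀ x ∈ S, f x ≠ x ∧ c (f x) ≠ c x) ∧
    ∀ x, x ∉ S → f x = x := by
  simp [PMS]

open Classical in
theorem PMS_rec {N : ℕ} {H : Type} [Fintype H] (c : H → Fin N) (S : Finset H) (x0 : H)
    (hx0 : x0 ∈ S) :
    (PMS c S).card = ∑ y ∈ (S.erase x0).filter (fun y => c y ≠ c x0),
      (PMS c ((S.erase x0).erase y)).card := by
  rw [Finset.card_eq_sum_card_fiberwise (f := fun f : H → H => f x0)
    (t := (S.erase x0).filter (fun y => c y ≠ c x0))]
  · apply Finset.sum_congr rfl
    intro y hy
    rw [Finset.mem_filter, Finset.mem_erase] at hy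
    obtain ⟨⟨hyx, hyS⟩, hcy⟩ := hy
    apply Finset.card_bij' (fun (f : H → H) _ => fun x => if x = x0 ∨ x = y then x else f x)
      (fun (g : H → H) _ => fun x => if x = x0 then y else if x = y then x0 else g x)
    · intro f hf
      rw [Finset.mem_filter, mem_PMS] at hf
      obtain ⟨⟨h1, h2, h3⟩, h4⟩ := hf
      rw [mem_PMS]
      refine ⟨?_, ?_, ?_⟩
      · intro x
        by_cases hx : x = x0 ∨ x = y
        · simp [hx]
        · have hfx : ¬ (f x = x0 ∨ f x = y) := by
            rintro (h | h)
            · apply hx; right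
              rw [← h1 x, h, h4]
            · apply hx; left
              rw [← h1 x, h, ← h4, h1]
          simp only [hx, hfx, if_false]
          exact h1 x
      · intro x hx
        rw [Finset.mem_erase, Finset.mem_erase] at hx
        have hx' : ¬ (x = x0 ∨ x = y) := by
          rintro (h | h)
          · exact hx.2.1 h
          · exact hx.1 h
        simp only [hx', if_false]
        exact h2 x hx.2.2
      · intro x hx
        by_cases hx' : x = x0 ∨ x = y
        · simp [hx']
        · simp only [hx', if_false]
          apply h3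
          intro hxS
          apply hx
          rw [Finset.mem_erase, Finset.mem_erase]
          push Not at hx'
          exact ⟨hx'.2, hx'.1, hxS⟩
    · intro g hg
      rw [mem_PMS] at hg
      obtain ⟨h1, h2, h3⟩ := hg
      have gx0 : g x0 = x0 := h3 x0 (by simp)
      have gy : g y = y := h3 y (by simp)
      rw [Finset.mem_filter, mem_PMS]
      refine ⟨⟨?_, ?_, ?_⟩, ?_⟩
      · intro x
        by_cases hx : x = x0
        · subst hx
          simp [hyx]
        · by_cases hxy : x = y
          · subst hxy
            simp [hx]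
          · have a1 : g x ≠ x0 := by
              intro h
              apply hx
              rw [← h1 x, h, gx0]
            have a2 : g x ≠ y := by
              intro h
              apply hxy
              rw [← h1 x, h, gy]
            simp only [hx, hxy, a1, a2, if_false]
            exact h1 x
      · intro x hx
        by_cases hx' : x = x0
        · subst hx'
          simp only [if_true]
          exact ⟨hyx, hcy⟩
        · by_cases hxy : x = y
          · subst hxy
            simp only [hx', if_false, if_true]
            exact ⟨fun h => hx' h.symm, fun h => hcy h.symm⟩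
          · simp only [hx', hxy, if_false]
            exact h2 x (by rw [Finset.mem_erase, Finset.mem_erase]; exact ⟨hxy, hx', hx⟩)
      · intro x hx
        have a1 : x ≠ x0 := fun h => hx (h ▸ hx0)
        have a2 : x ≠ y := fun h => hx (h ▸ hyS)
        simp only [a1, a2, if_false]
        apply h3
        intro h
        rw [Finset.mem_erase, Finset.mem_erase] at h
        exact hx h.2.2
      · simp
    · intro f hf
      rw [Finset.mem_filter, mem_PMS] at hf
      obtain ⟨⟨h1, h2, h3⟩, h4⟩ := hf
      funext x
      by_cases hx : x = x0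
      · subst hx; simp [h4]
      · by_cases hxy : x = y
        · subst hxy
          simp only [hx, if_false, if_true]
          rw [← h4, h1]
        · simp [hx, hxy]
    · intro g hg
      rw [mem_PMS] at hg
      obtain ⟨h1, h2, h3⟩ := hg
      have gx0 : g x0 = x0 := h3 x0 (by simp)
      have gy : g y = y := h3 y (by simp)
      funext x
      by_cases hx : x = x0
      · subst hx; simp [gx0]
      · by_cases hxy : x = y
        · subst hxy; simp [gy]
        · simp [hx, hxy]
  · intro f hf
    have hf' : f ∈ PMS c S := hf
    rw [mem_PMS] at hf'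
    obtain ⟨h1, h2, h3⟩ := hf'
    have h4 := h2 x0 hx0
    simp only [Finset.coe_filter, Set.mem_ofPred_eq, Finset.mem_erase]
    refine ⟨⟨h4.1, ?_⟩, h4.2⟩
    by_contra hn
    have := h3 _ hn
    rw [h1] at this
    exact h4.1 this.symm

open Classical in
theorem wick_fin (N : ℕ) (E : MvPolynomial (Option (Fin N)) ℝ →ₗ[ℝ] ℝ) (h1 : E 1 = 1)
    (hE : ∀ (i : Option (Fin N)) (p : MvPolynomial (Option (Fin N)) ℝ),
      E (MvPolynomial.X i * p) = vr i * E (MvPolynomial.pderiv i p))
    {H : Type} [Fintype H] (c : H → Fin N) (n : ℕ) : ∀ S : Finset H, S.card ≤ n →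
    ((PMS c S).card : ℝ) =
      E (∏ x ∈ S, (MvPolynomial.X none + MvPolynomial.X (some (c x)))) := by
  induction n with
  | zero =>
    intro S hS
    have : S = ∅ := Finset.card_eq_zero.1 (Nat.le_zero.1 hS)
    subst this
    rw [Finset.prod_empty, h1]
    have : PMS c ∅ = {id} := by
      ext f
      rw [mem_PMS, Finset.mem_singleton]
      constructor
      · rintro ⟨-, -, h⟩
        funext x
        exact h x (by simp)
      · rintro rfl
        simp
    rw [this]
    simp
  | succ n ih =>
    intro S hS
    rcases S.eq_empty_or_nonempty with hS0 | ⟨x0, hx0⟩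
    · subst hS0
      exact ih ∅ (by simp)
    · rw [PMS_rec c S x0 hx0, ← Finset.mul_prod_erase S _ hx0, add_mul, map_add, hE, hE,
        der_prod, der_prod, map_sum, map_sum]
      have v1 : vr (none : Option (Fin N)) = 1 := rfl
      have v2 : vr (some (c x0) : Option (Fin N)) = -1 := rfl
      rw [v1, v2, one_mul, neg_one_mul, ← sub_eq_add_neg, ← Finset.sum_sub_distrib,
        Nat.cast_sum, Finset.sum_filter]
      apply Finset.sum_congr rfl
      intro y hy
      have hcard : ((S.erase x0).erase y).card ≤ n := by
        have e1 := Finset.card_erase_lt_of_mem hx0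
        have e2 := Finset.card_erase_lt_of_mem hy
        omega
      have d1 : (MvPolynomial.pderiv (none : Option (Fin N)))
          (MvPolynomial.X none + MvPolynomial.X (some (c y)) : MvPolynomial (Option (Fin N)) ℝ) = 1 := by
        rw [map_add, MvPolynomial.pderiv_X_self, MvPolynomial.pderiv_X_of_ne (by simp), add_zero]
      have d2 : (MvPolynomial.pderiv (some (c x0) : Option (Fin N)))
          (MvPolynomial.X none + MvPolynomial.X (some (c y)) : MvPolynomial (Option (Fin N)) ℝ)
          = if c y ≠ c x0 then 0 else 1 := by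
        rw [map_add, MvPolynomial.pderiv_X_of_ne (by simp), zero_add]
        by_cases h : c y = c x0
        · rw [h, MvPolynomial.pderiv_X_self]; simp
        · rw [MvPolynomial.pderiv_X_of_ne (by simpa using h)]; simp [h]
      rw [d1, d2]
      by_cases h : c y ≠ c x0
      · simp only [h, ne_eq, not_false_eq_true, if_true, mul_one, mul_zero, map_zero, sub_zero]
        exact ih _ hcard
      · simp only [h, if_false, mul_one, sub_self]

theorem wick_aux (N : ℕ) (E : MvPolynomial (Option (Fin N)) ℝ →ₗ[ℝ] ℝ) (h1 : E 1 = 1)
    (hE : ∀ (i : Option (Fin N)) (p : MvPolynomial (Option (Fin N)) ℝ),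
      E (MvPolynomial.X i * p) = vr i * E (MvPolynomial.pderiv i p))
    {H : Type} [Fintype H] (c : H → Fin N) :
    (Nat.card {f : H → H // IsPM f ∧ ∀ x, c (f x) ≠ c x} : ℝ) =
      E (∏ x, (MvPolynomial.X none + MvPolynomial.X (some (c x)))) := by
  classical
  have h := wick_fin N E h1 hE c Finset.univ.card Finset.univ le_rfl
  rw [← h]
  have key : ∀ f : H → H, f ∈ PMS c Finset.univ ↔ (IsPM f ∧ ∀ x, c (f x) ≠ c x) := by
    intro f
    rw [mem_PMS]
    unfold IsPM
    constructor
    · rintro ⟨a, b, -⟩
      exact ⟨⟨a, fun x => (b x (Finset.mem_univ x)).1⟩, fun x => (b x (Finset.mem_univ x)).2⟩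
    · rintro ⟨⟨a, b⟩, d⟩
      exact ⟨a, fun x _ => ⟨b x, d x⟩, fun x hx => absurd (Finset.mem_univ x) hx⟩
  rw [Nat.subtype_card (PMS c Finset.univ) key]



end J04

end ChrRoots
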