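import Pool.Agent.Helper809.Cub.Defs

set_option autoImplicit false

namespace ChrRoots

open Polynomial

namespace J05


theorem card_sub_sum {α : Type} [Fintype α] (p : α → Prop) [DecidablePred p] :
    (Nat.card {x : α // p x} : ℝ) = ∑ x : α, if p x then (1 : ℝ) else 0 := by
  rw [Nat.card_eq_fintype_card, Fintype.card_subtype, Finset.sum_boole]

theorem T_nat_aux (V : Type) [Fintype V] (N : ℕ)
    (hP : ∀ r : V → V → Prop, P r (N : ℝ) = col r N)
    (wick : ∀ c : V × Fin 3 → Fin N,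
      (Nat.card {f : V × Fin 3 → V × Fin 3 // IsPM f ∧ ∀ x, c (f x) ≠ c x} : ℝ) =
      EE N (∏ x, (MvPolynomial.X none + MvPolynomial.X (some (c x))))) :
    T V (N : ℝ) = EE N ((∑ a : Fin N,
      (MvPolynomial.X none + MvPolynomial.X (some a)) ^ 3) ^ (Fintype.card V)) := by
  classical
  have h1 : ((∑ a : Fin N, ((MvPolynomial.X none + MvPolynomial.X (some a)) ^ 3 :
      MvPolynomial (Option (Fin N)) ℝ)) ^ (Fintype.card V)) =
      ∑ σ : V → Fin N, ∏ x : V × Fin 3,
        (MvPolynomial.X none + MvPolynomial.X (some (σ x.1))) := by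
    have h2 : ((∑ a : Fin N, ((MvPolynomial.X none + MvPolynomial.X (some a)) ^ 3 :
      MvPolynomial (Option (Fin N)) ℝ)) ^ (Fintype.card V)) =
      ∏ _v : V, ∑ a : Fin N, ((MvPolynomial.X none + MvPolynomial.X (some a)) ^ 3 :
        MvPolynomial (Option (Fin N)) ℝ) := by
      rw [Finset.prod_const, Finset.card_univ]
    rw [h2, Finset.prod_univ_sum, Fintype.piFinset_univ]
    refine Finset.sum_congr rfl fun σ _ => ?_
    rw [Fintype.prod_prod_type]
    refine Finset.prod_congr rfl fun v _ => ?_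
    simp [Finset.prod_const]
  rw [h1, map_sum]
  have h3 : ∀ σ : V → Fin N, EE N (∏ x : V × Fin 3,
        (MvPolynomial.X none + MvPolynomial.X (some (σ x.1)))) =
      ∑ f : CP V, if (∀ x, σ (f.1 x).1 ≠ σ x.1) then (1 : ℝ) else 0 := by
    intro σ
    rw [← wick (fun x => σ x.1)]
    rw [← card_sub_sum (fun f : CP V => ∀ x, σ (f.1 x).1 ≠ σ x.1)]
    congr 1
    exact (Nat.card_congr (Equiv.subtypeSubtypeEquivSubtypeInter (fun f => IsPM f)
      (fun f : V × Fin 3 → V × Fin 3 => ∀ x, σ (f x).1 ≠ σ x.1))).symm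
  rw [Finset.sum_congr rfl fun σ _ => h3 σ, Finset.sum_comm]
  unfold T
  refine Finset.sum_congr (by congr) fun f _ => ?_
  rw [hP, col, card_sub_sum]
  refine Finset.sum_congr rfl fun σ _ => ?_
  refine if_congr ?_ rfl rfl
  constructor
  · intro h x hx
    exact h x.1 (f.1 x).1 ⟨x.2, rfl⟩ hx.symm
  · rintro h u v ⟨i, hi⟩ huv
    exact h (u, i) (by rw [hi]; exact huv.symm)


end J05

end ChrRoots
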