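import Pool.Agent.Helper809.Cub.Defs

set_option autoImplicit false

namespace ChrRoots

open Polynomial

namespace J06


theorem es_unique {A : Type} [CommRing A] [Algebra ℝ A] (a c : A) (g : ℕ → A) (h0 : g 0 = 1)
    (h1 : g 1 = a) (h2 : ∀ n : ℕ, g (n + 2) * ((n : A) + 2) = a * g (n + 1) + 2 * c * g n) :
    ∀ n, g n = eSeq a c n := by
  intro n
  induction n using Nat.twoStepInduction with
  | zero => rw [h0]; rfl
  | one => rw [h1]; rfl
  | more n ih1 ih2 =>
    have h3 := h2 n
    rw [ih1, ih2] at h3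
    have h4 : eSeq a c (n + 2) = (1 / ((n : ℝ) + 2)) • (a * eSeq a c (n + 1) + 2 * c * eSeq a c n) :=
      rfl
    rw [h4, ← h3]
    have h5 : g (n + 2) * ((n : A) + 2) = ((n : ℝ) + 2) • g (n + 2) := by
      rw [Algebra.smul_def, map_add, map_natCast, map_ofNat, mul_comm]
    rw [h5, smul_smul, one_div_mul_cancel (by positivity), one_smul]

theorem es_rec {A : Type} [CommRing A] [Algebra ℝ A] (a c : A) (n : ℕ) :
    eSeq a c (n + 2) * ((n : A) + 2) = a * eSeq a c (n + 1) + 2 * c * eSeq a c n := by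
  have h4 : eSeq a c (n + 2) = (1 / ((n : ℝ) + 2)) • (a * eSeq a c (n + 1) + 2 * c * eSeq a c n) :=
    rfl
  have h5 : ∀ x : A, x * ((n : A) + 2) = ((n : ℝ) + 2) • x := by
    intro x
    rw [Algebra.smul_def, map_add, map_natCast, map_ofNat, mul_comm]
  rw [h5, h4, smul_smul, mul_one_div_cancel (by positivity), one_smul]

theorem es_ode {A : Type} [CommRing A] [Algebra ℝ A] (a c : A) :
    PowerSeries.derivative A (PowerSeries.mk (eSeq a c)) =
      (PowerSeries.C a + PowerSeries.C (2 * c) * PowerSeries.X) * PowerSeries.mk (eSeq a c) := by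
  ext n
  rw [PowerSeries.coeff_derivative, PowerSeries.coeff_mk, add_mul, mul_assoc, map_add,
    PowerSeries.coeff_C_mul, PowerSeries.coeff_C_mul, PowerSeries.coeff_mk]
  cases n with
  | zero =>
    rw [PowerSeries.coeff_zero_X_mul]
    simp [eSeq]
  | succ n =>
    rw [PowerSeries.coeff_succ_X_mul, PowerSeries.coeff_mk, ← es_rec]
    push_cast
    ring

theorem eSeq_mul {A : Type} [CommRing A] [Algebra ℝ A] (α γ α' γ' : A) (n : ℕ) :
    eSeq (α + α') (γ + γ') n =
      ∑ p ∈ Finset.HasAntidiagonal.antidiagonal n, eSeq α γ p.1 * eSeq α' γ' p.2 := by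
  obtain ⟨G, hG⟩ : ∃ G : PowerSeries A, G = PowerSeries.mk (eSeq α γ) * PowerSeries.mk (eSeq α' γ') :=
    ⟨_, rfl⟩
  have hcoeff : ∀ n, PowerSeries.coeff n G =
      ∑ p ∈ Finset.HasAntidiagonal.antidiagonal n, eSeq α γ p.1 * eSeq α' γ' p.2 := by
    intro n
    rw [hG, PowerSeries.coeff_mul]
    refine Finset.sum_congr rfl (fun p _ => ?_)
    rw [PowerSeries.coeff_mk, PowerSeries.coeff_mk]
  have hode : PowerSeries.derivative A G =
      PowerSeries.C (α + α') * G + PowerSeries.C (2 * (γ + γ')) * (PowerSeries.X * G) := by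
    rw [hG, Derivation.leibniz, es_ode, es_ode, smul_eq_mul, smul_eq_mul, mul_add 2, map_add,
      map_add]
    ring
  have hn : ∀ n, PowerSeries.coeff (n + 1) G * ((n : A) + 1) = (α + α') * PowerSeries.coeff n G +
      2 * (γ + γ') * PowerSeries.coeff n (PowerSeries.X * G) := by
    intro n
    rw [← PowerSeries.coeff_derivative, hode, map_add, PowerSeries.coeff_C_mul,
      PowerSeries.coeff_C_mul]
  have h0 : PowerSeries.coeff 0 G = 1 := by
    rw [hcoeff]
    simp [eSeq]
  rw [← hcoeff]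
  symm
  refine es_unique (α + α') (γ + γ') (fun n => PowerSeries.coeff n G) h0 ?_ ?_ n
  · have := hn 0
    rw [h0, PowerSeries.coeff_zero_X_mul] at this
    simpa using this
  · intro n
    have := hn (n + 1)
    rw [PowerSeries.coeff_succ_X_mul] at this
    show PowerSeries.coeff (n + 2) G * ((n : A) + 2) = (α + α') * PowerSeries.coeff (n + 1) G +
      2 * (γ + γ') * PowerSeries.coeff n G
    rw [← this]
    push_cast
    ring

theorem eSeq_zero {A : Type} [CommRing A] [Algebra ℝ A] (α : A) (n : ℕ) :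
    eSeq α 0 n = ((1 : ℝ) / n.factorial) • α ^ n := by
  induction n using Nat.twoStepInduction with
  | zero => simp [eSeq]
  | one => simp [eSeq]
  | more n ih1 ih2 =>
    have h4 : eSeq α 0 (n + 2) = (1 / ((n : ℝ) + 2)) • (α * eSeq α 0 (n + 1) + 2 * 0 * eSeq α 0 n) :=
      rfl
    rw [h4, ih2, mul_zero, zero_mul, add_zero, mul_smul_comm, smul_smul, ← pow_succ']
    congr 1
    rw [Nat.factorial_succ (n + 1)]
    push_cast
    field_simp
    ring



end J06

end ChrRoots
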