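import Pool.Agent.Helper809.Cub.Defs

set_option autoImplicit false

namespace ChrRoots

open Polynomial

namespace J07


/-- recursion for `eSeq`, without division -/
theorem eSeq_rec {A : Type} [CommRing A] [Algebra ℝ A] (α γ : A) (n : ℕ) :
    algebraMap ℝ A ((n : ℝ) + 2) * eSeq α γ (n + 2) =
      α * eSeq α γ (n + 1) + 2 * γ * eSeq α γ n := by
  rw [eSeq, Algebra.smul_def, ← mul_assoc, ← map_mul]
  have : ((n : ℝ) + 2) * (1 / ((n : ℝ) + 2)) = 1 := by
    have : ((n : ℝ) + 2) ≠ 0 := by positivity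
    field_simp
  rw [this, map_one, one_mul]

/-- shifted sequence `F n = e (n - 2)` -/
noncomputable def shf {A : Type} [CommRing A] (e : ℕ → A) : ℕ → A
  | 0 => 0
  | 1 => 0
  | (n + 2) => e n

theorem shf_add_two {A : Type} [CommRing A] (e : ℕ → A) (n : ℕ) : shf e (n + 2) = e n := rfl

theorem shf_one {A : Type} [CommRing A] (e : ℕ → A) : shf e 1 = 0 := rfl

theorem shf_zero {A : Type} [CommRing A] (e : ℕ → A) : shf e 0 = 0 := rfl

theorem shf_rec1 {A : Type} [CommRing A] [Algebra ℝ A] (α γ : A) (n : ℕ) :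
    algebraMap ℝ A ((n : ℝ) + 1) * eSeq α γ (n + 1) =
      α * eSeq α γ n + 2 * γ * shf (eSeq α γ) (n + 1) := by
  cases n with
  | zero => simp [eSeq, shf]
  | succ n =>
    have := eSeq_rec α γ n
    rw [shf_add_two, ← this]
    congr 2
    push_cast
    ring

theorem shf_rec2 {A : Type} [CommRing A] [Algebra ℝ A] (α γ : A) (n : ℕ) :
    algebraMap ℝ A (n : ℝ) * eSeq α γ n =
      α * shf (eSeq α γ) (n + 1) + 2 * γ * shf (eSeq α γ) n := by
  cases n with
  | zero => simp [eSeq, shf]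
  | succ n =>
    have := shf_rec1 α γ n
    rw [shf_add_two, ← this]
    congr 2
    push_cast
    ring

theorem D_eSeq {A : Type} [CommRing A] [Algebra ℝ A] (D : Derivation ℝ A A) (α γ : A) :
    ∀ n : ℕ, D (eSeq α γ n) = D α * shf (eSeq α γ) (n + 1) + D γ * shf (eSeq α γ) n ∧
      D (eSeq α γ (n + 1)) =
        D α * shf (eSeq α γ) (n + 2) + D γ * shf (eSeq α γ) (n + 1) := by
  intro n
  induction n with
  | zero => simp [eSeq, shf]
  | succ n ih =>
    refine ⟨ih.2, ?_⟩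
    obtain ⟨h1, h2⟩ := ih
    have hr := congrArg D (eSeq_rec α γ n)
    have hD2 : D (2 : A) = 0 := by
      have : (2 : A) = algebraMap ℝ A 2 := (map_ofNat (algebraMap ℝ A) 2).symm
      rw [this, D.map_algebraMap]
    have hl : D (algebraMap ℝ A ((n : ℝ) + 2) * eSeq α γ (n + 2)) =
        algebraMap ℝ A ((n : ℝ) + 2) * D (eSeq α γ (n + 2)) := by
      rw [D.leibniz, D.map_algebraMap, smul_zero, add_zero, smul_eq_mul]
    have hrr : D (α * eSeq α γ (n + 1) + 2 * γ * eSeq α γ n) =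
        α * D (eSeq α γ (n + 1)) + eSeq α γ (n + 1) * D α +
          (2 * γ * D (eSeq α γ n) + eSeq α γ n * (2 * D γ)) := by
      rw [map_add, D.leibniz, D.leibniz (2 * γ), D.leibniz 2, hD2]
      simp only [smul_eq_mul, mul_zero, add_zero]
    rw [hl, hrr, h1, h2] at hr
    have r1 := shf_rec1 α γ n
    have r2 := shf_rec2 α γ n
    simp only [shf_add_two] at hr r1 r2 ⊢
    have key : (algebraMap ℝ A ((n : ℝ) + 2)) * D (eSeq α γ (n + 2)) =
        (algebraMap ℝ A ((n : ℝ) + 2)) *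
          (D α * eSeq α γ (n + 1) + D γ * eSeq α γ n) := by
      have e2 : algebraMap ℝ A ((n : ℝ) + 2) = algebraMap ℝ A (n : ℝ) + 2 := by
        rw [map_add]
        congr 1
        exact (map_ofNat (algebraMap ℝ A) 2)
      have e1 : algebraMap ℝ A ((n : ℝ) + 1) = algebraMap ℝ A (n : ℝ) + 1 := by
        rw [map_add, map_one]
      rw [e2] at hr ⊢
      rw [e1] at r1
      linear_combination hr - D α * r1 - D γ * r2
    have hu : algebraMap ℝ A (1 / ((n : ℝ) + 2)) * algebraMap ℝ A ((n : ℝ) + 2) = 1 := by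
      rw [← map_mul]
      have : (1 / ((n : ℝ) + 2)) * ((n : ℝ) + 2) = 1 := by
        have : ((n : ℝ) + 2) ≠ 0 := by positivity
        field_simp
      rw [this, map_one]
    have := congrArg (fun y => algebraMap ℝ A (1 / ((n : ℝ) + 2)) * y) key
    simp only [← mul_assoc, hu, one_mul] at this
    exact this

theorem change_var_aux {A : Type} [CommRing A] [Algebra ℝ A]
    (hmul : ∀ (α γ α' γ' : A) (n : ℕ), eSeq (α + α') (γ + γ') n =
      ∑ p ∈ Finset.HasAntidiagonal.antidiagonal n, eSeq α γ p.1 * eSeq α' γ' p.2)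
    (hzero : ∀ (α : A) (n : ℕ), eSeq α 0 n = ((1 : ℝ) / n.factorial) • α ^ n)
    (D : Derivation ℝ A A)
    (E : A →ₗ[ℝ] ℝ) (L x G : A) (c : ℝ) (hx : D x = 1)
    (hL : D L = algebraMap ℝ A (1 - c)) (hG : D G = 0)
    (hE : ∀ p, E (L * p) = E (D p)) (n : ℕ) :
    E (G ^ n) = n.factorial * E (eSeq (G - 3 * x ^ 2 * L) ((9 / 2 * (c - 1) : ℝ) • x ^ 4) n +
      (if n = 0 then 0 else
        6 * x * eSeq (G - 3 * x ^ 2 * L) ((9 / 2 * (c - 1) : ℝ) • x ^ 4) (n - 1))) := by
  set h : A := algebraMap ℝ A (9 / 2 * (c - 1)) with hh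
  set κ : A := algebraMap ℝ A (c - 1) with hκ
  have h2 : 2 * h = 9 * κ := by
    rw [hh, hκ]
    have e1 : (2 : A) = algebraMap ℝ A 2 := (map_ofNat (algebraMap ℝ A) 2).symm
    have e2 : (9 : A) = algebraMap ℝ A 9 := (map_ofNat (algebraMap ℝ A) 9).symm
    rw [e1, e2, ← map_mul, ← map_mul]
    congr 1
    ring
  have hL' : D L = -κ := by
    rw [hL, hκ, ← map_neg]
    congr 1
    ring
  have hC : ((9 / 2 * (c - 1) : ℝ) • x ^ 4 : A) = h * x ^ 4 := by
    rw [Algebra.smul_def]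
  rw [hC]
  set α : A := -(3 * x ^ 2 * L) with hα
  set γ : A := h * x ^ 4 with hγ
  have hfull : ∀ m, eSeq (G - 3 * x ^ 2 * L) γ m =
      ∑ p ∈ Finset.HasAntidiagonal.antidiagonal m,
        ((1 : ℝ) / p.1.factorial) • G ^ p.1 * eSeq α γ p.2 := by
    intro m
    have := hmul G 0 α γ m
    rw [zero_add, ← sub_eq_add_neg] at this
    rw [this]
    refine Finset.sum_congr rfl fun p _ => ?_
    rw [hzero]
  have hD3 : D (3 : A) = 0 := by
    have : (3 : A) = algebraMap ℝ A 3 := (map_ofNat (algebraMap ℝ A) 3).symm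
    rw [this, D.map_algebraMap]
  have hDα : D α = -(6 * x * L) + 3 * x ^ 2 * κ := by
    rw [hα, map_neg, D.leibniz, D.leibniz, D.leibniz_pow, hD3, hx, hL']
    simp only [smul_eq_mul, nsmul_eq_mul]
    push_cast
    ring
  have hDγ : D γ = 4 * h * x ^ 3 := by
    rw [hγ, D.leibniz, D.leibniz_pow, hx, hh, D.map_algebraMap]
    simp only [smul_eq_mul, nsmul_eq_mul]
    push_cast
    ring
  have hg : ∀ j : ℕ, algebraMap ℝ A ((j : ℝ) + 1) *
      (eSeq α γ (j + 1) + 6 * x * eSeq α γ j) =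
        α * eSeq α γ j + D (3 * x ^ 2 * eSeq α γ j) := by
    intro j
    have r1 := shf_rec1 α γ j
    have r2 := shf_rec2 α γ j
    have d1 := (D_eSeq D α γ j).1
    have e1 : D (3 * x ^ 2 * eSeq α γ j) =
        6 * x * eSeq α γ j + 3 * x ^ 2 * D (eSeq α γ j) := by
      rw [D.leibniz, D.leibniz, D.leibniz_pow, hD3, hx]
      simp only [smul_eq_mul, nsmul_eq_mul]
      push_cast
      ring
    rw [e1, d1, hDα, hDγ, mul_add, r1]
    have e2 : algebraMap ℝ A ((j : ℝ) + 1) = algebraMap ℝ A (j : ℝ) + 1 := by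
      rw [map_add, map_one]
    rw [e2]
    have : (algebraMap ℝ A (j : ℝ) + 1) * (6 * x * eSeq α γ j) =
        6 * x * (algebraMap ℝ A (j : ℝ) * eSeq α γ j) + 6 * x * eSeq α γ j := by ring
    rw [this, r2]
    simp only [hα, hγ]
    linear_combination (3 * 0 + x ^ 4 * shf (eSeq (-(3 * x ^ 2 * L)) (h * x ^ 4)) (j + 1)) * h2
  have hz : ∀ i j : ℕ, E (G ^ i * (eSeq α γ (j + 1) + 6 * x * eSeq α γ j)) = 0 := by
    intro i j
    have hGi : D (G ^ i) = 0 := by rw [D.leibniz_pow, hG]; simp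
    have e1 := hE (G ^ i * (3 * x ^ 2 * eSeq α γ j))
    have e2 : D (G ^ i * (3 * x ^ 2 * eSeq α γ j)) = G ^ i * D (3 * x ^ 2 * eSeq α γ j) := by
      rw [D.leibniz, hGi]; simp
    rw [e2] at e1
    have e3 : E (G ^ i * (algebraMap ℝ A ((j : ℝ) + 1) *
        (eSeq α γ (j + 1) + 6 * x * eSeq α γ j))) = 0 := by
      rw [hg, mul_add, map_add, ← e1, ← map_add]
      have : G ^ i * (α * eSeq α γ j) + L * (G ^ i * (3 * x ^ 2 * eSeq α γ j)) = 0 := by
        rw [hα]; ring
      rw [this, map_zero]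
    have e4 : G ^ i * (algebraMap ℝ A ((j : ℝ) + 1) *
        (eSeq α γ (j + 1) + 6 * x * eSeq α γ j)) =
        ((j : ℝ) + 1) • (G ^ i * (eSeq α γ (j + 1) + 6 * x * eSeq α γ j)) := by
      rw [Algebra.smul_def]; ring
    rw [e4, map_smul, smul_eq_mul] at e3
    rcases mul_eq_zero.1 e3 with h0 | h0
    · exfalso
      have : (0 : ℝ) < (j : ℝ) + 1 := by positivity
      linarith
    · exact h0
  cases n with
  | zero => simp [eSeq]
  | succ n =>
    simp only [Nat.add_eq_zero_iff, one_ne_zero, and_false, if_false, Nat.add_sub_cancel]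
    rw [hfull, hfull, Finset.Nat.sum_antidiagonal_succ', Finset.mul_sum, add_assoc,
      ← Finset.sum_add_distrib, map_add, map_sum]
    have : ∀ p ∈ Finset.HasAntidiagonal.antidiagonal n,
        E (((1 : ℝ) / p.1.factorial) • G ^ p.1 * eSeq α γ (p.2 + 1) +
          6 * x * (((1 : ℝ) / p.1.factorial) • G ^ p.1 * eSeq α γ p.2)) = 0 := by
      intro p _
      have e1 : ((1 : ℝ) / p.1.factorial) • G ^ p.1 * eSeq α γ (p.2 + 1) +
          6 * x * (((1 : ℝ) / p.1.factorial) • G ^ p.1 * eSeq α γ p.2) =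
          ((1 : ℝ) / p.1.factorial) •
            (G ^ p.1 * (eSeq α γ (p.2 + 1) + 6 * x * eSeq α γ p.2)) := by
        simp only [Algebra.smul_def]; ring
      rw [e1, map_smul, hz, smul_zero]
    rw [Finset.sum_eq_zero this, add_zero]
    simp only [eSeq, mul_one, map_smul, smul_eq_mul]
    have : ((n + 1).factorial : ℝ) ≠ 0 := by positivity
    field_simp



end J07

end ChrRoots
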