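import Pool.Agent.Helper809.Cub.Defs

set_option autoImplicit false

namespace ChrRoots

open Polynomial

namespace J08


theorem bin_succ833 (a : ℝ) (s : ℕ) : ((s : ℝ) + 1) * bin a (s + 1) = (a - s) * bin a s := by
  have h : bin a (s + 1) = bin a s * (a - s) / (s + 1) := rfl
  have hs : ((s : ℝ) + 1) ≠ 0 := by positivity
  rw [h]
  field_simp

theorem bin_add (a b : ℝ) (n : ℕ) :
    bin (a + b) n = ∑ p ∈ Finset.HasAntidiagonal.antidiagonal n, bin a p.1 * bin b p.2 := by
  induction n with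
  | zero => simp [bin]
  | succ n ih =>
    have hs : ((n : ℝ) + 1) ≠ 0 := by positivity
    apply mul_left_cancel₀ hs
    rw [bin_succ833, ih]
    have e1 : ((n : ℝ) + 1) * ∑ p ∈ Finset.HasAntidiagonal.antidiagonal (n + 1), bin a p.1 * bin b p.2
        = ∑ p ∈ Finset.HasAntidiagonal.antidiagonal (n + 1), ((p.1 : ℝ) * bin a p.1) * bin b p.2
          + ∑ p ∈ Finset.HasAntidiagonal.antidiagonal (n + 1), bin a p.1 * ((p.2 : ℝ) * bin b p.2) := by
      rw [Finset.mul_sum, ← Finset.sum_add_distrib]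
      apply Finset.sum_congr rfl
      intro p hp
      have hp := Finset.HasAntidiagonal.mem_antidiagonal.mp hp
      have : ((n : ℝ) + 1) = p.1 + p.2 := by exact_mod_cast hp.symm
      rw [this]; ring
    rw [e1, Finset.Nat.sum_antidiagonal_succ, Finset.Nat.sum_antidiagonal_succ']
    simp only [Nat.cast_zero, zero_mul, mul_zero, zero_add]
    rw [← Finset.sum_add_distrib, Finset.mul_sum]
    apply Finset.sum_congr rfl
    intro p hp
    have hp := Finset.HasAntidiagonal.mem_antidiagonal.mp hp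
    push_cast
    rw [bin_succ833, bin_succ833]
    have : (n : ℝ) = p.1 + p.2 := by exact_mod_cast hp.symm
    rw [this]; ring

theorem bin_pascal (a : ℝ) (s : ℕ) : bin (a + 1) (s + 1) = bin a (s + 1) + bin a s := by
  induction s with
  | zero => simp [bin]
  | succ s ih =>
    have hs : (((s + 1 : ℕ) : ℝ) + 1) ≠ 0 := by positivity
    apply mul_left_cancel₀ hs
    have h1 := bin_succ833 a (s + 1)
    have h2 := bin_succ833 a s
    rw [bin_succ833, ih, mul_add (((s + 1 : ℕ) : ℝ) + 1), h1]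
    push_cast at h1 ⊢
    linear_combination -h2

theorem base833 (k : ℕ) : mom (-1) (6 * k) / ((2 * k).factorial : ℝ) = bet k := by
  induction k with
  | zero => simp [mom, bet]
  | succ k ih =>
    have e1 : mom (-1) (6 * (k + 1)) = (-(6 * k + 5)) * ((-(6 * k + 3)) * ((-(6 * k + 1)) * mom (-1) (6 * k))) := by
      have a1 : 6 * (k + 1) = (6 * k + 4) + 2 := by ring
      rw [a1]
      have h1 : mom (-1) ((6 * k + 4) + 2) = (-1) * (((6 * k + 4 : ℕ) : ℝ) + 1) * mom (-1) (6 * k + 4) := rfl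
      have h2 : mom (-1) (6 * k + 4) = (-1) * (((6 * k + 2 : ℕ) : ℝ) + 1) * mom (-1) (6 * k + 2) := rfl
      have h3 : mom (-1) (6 * k + 2) = (-1) * (((6 * k : ℕ) : ℝ) + 1) * mom (-1) (6 * k) := rfl
      rw [h1, h2, h3]
      push_cast
      ring
    have e2 : ((2 * (k + 1)).factorial : ℝ) = (2 * k + 2) * ((2 * k + 1) * (2 * k).factorial) := by
      have : 2 * (k + 1) = (2 * k + 1) + 1 := by ring
      rw [this, Nat.factorial_succ, Nat.factorial_succ]
      push_cast
      ring
    have e3 : bet (k + 1) = - (3 / 2) * (6 * k + 1) * (6 * k + 5) / (k + 1) * bet k := rfl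
    rw [e1, e2, e3, ← ih]
    have hf : ((2 * k).factorial : ℝ) ≠ 0 := by positivity
    have h1 : ((k : ℝ) + 1) ≠ 0 := by positivity
    have h2 : (2 * (k : ℝ) + 1) ≠ 0 := by positivity
    have h3 : (2 * (k : ℝ) + 2) ≠ 0 := by positivity
    field_simp
    ring

theorem one_site (i k : ℕ) :
    (3 : ℝ) ^ i * mom (-1) (2 * i + 6 * k) / (i.factorial * (2 * k).factorial) =
      bet k * bin (-3 * k - 1 / 2) i * 6 ^ i := by
  induction i with
  | zero =>
    have := base833 k
    simp only [pow_zero, one_mul, mul_zero, zero_add, Nat.factorial_zero, Nat.cast_one, mul_one, bin]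
    exact this
  | succ i ih =>
    have e1 : mom (-1) (2 * (i + 1) + 6 * k) = (-(2 * i + 6 * k + 1)) * mom (-1) (2 * i + 6 * k) := by
      have a1 : 2 * (i + 1) + 6 * k = (2 * i + 6 * k) + 2 := by ring
      rw [a1]
      have h1 : mom (-1) ((2 * i + 6 * k) + 2) = (-1) * (((2 * i + 6 * k : ℕ) : ℝ) + 1) * mom (-1) (2 * i + 6 * k) := rfl
      rw [h1]
      push_cast
      ring
    have h2 := bin_succ833 (-3 * k - 1 / 2) i
    have hf : ((2 * k).factorial : ℝ) ≠ 0 := by positivity
    have hi : (i.factorial : ℝ) ≠ 0 := by positivity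
    have hs : ((i : ℝ) + 1) ≠ 0 := by positivity
    have e2 : bin (-3 * k - 1 / 2) (i + 1) = (-3 * k - 1 / 2 - i) * bin (-3 * k - 1 / 2) i / (i + 1) := by
      rw [← h2]; field_simp
    have e4 : (3 : ℝ) ^ (i + 1) * mom (-1) (2 * (i + 1) + 6 * k) / ((i + 1).factorial * (2 * k).factorial)
        = (3 * (-(2 * i + 6 * k + 1)) / (i + 1)) *
          ((3 : ℝ) ^ i * mom (-1) (2 * i + 6 * k) / (i.factorial * (2 * k).factorial)) := by
      rw [e1, Nat.factorial_succ]
      push_cast
      field_simp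
      try ring
    rw [e4, ih, e2]
    field_simp
    ring

theorem mom_odd (v : ℝ) (n : ℕ) : mom v (2 * n + 1) = 0 := by
  induction n with
  | zero => rfl
  | succ n ih =>
    have h1 : mom v (2 * (n + 1) + 1) = v * (((2 * n + 1 : ℕ) : ℝ) + 1) * mom v (2 * n + 1) := rfl
    rw [h1, ih, mul_zero]



end J08

end ChrRoots
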