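import Pool.Agent.Helper809.Cub.Defs

set_option autoImplicit false

namespace ChrRoots

open Polynomial

namespace J09


theorem bet_pow_rec (N n : ℕ) :
    PowerSeries.coeff (n + 1) ((PowerSeries.mk bet : PowerSeries ℝ) ^ N) * ((n : ℝ) + 1) =
      ∑ k ∈ Finset.range (n + 1), ((N : ℝ) * (k + 1) - (n - k)) * bet (k + 1) *
        PowerSeries.coeff (n - k) ((PowerSeries.mk bet : PowerSeries ℝ) ^ N) := by
  set B : PowerSeries ℝ := PowerSeries.mk bet with hB
  have hD : B * PowerSeries.derivative ℝ (B ^ N) =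
      (N : PowerSeries ℝ) * (PowerSeries.derivative ℝ B * B ^ N) := by
    rw [Derivation.leibniz_pow]
    rcases N with _ | M
    · simp
    · simp only [Nat.add_sub_cancel, smul_eq_mul, nsmul_eq_mul]
      ring
  have h1 := congrArg (PowerSeries.coeff n) hD
  have hN : (N : PowerSeries ℝ) = PowerSeries.C (N : ℝ) := by simp
  rw [hN, PowerSeries.coeff_C_mul, PowerSeries.coeff_mul, PowerSeries.coeff_mul,
    Finset.Nat.sum_antidiagonal_eq_sum_range_succ
      (fun i j => PowerSeries.coeff i B * PowerSeries.coeff j (PowerSeries.derivative ℝ (B ^ N))) n,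
    Finset.Nat.sum_antidiagonal_eq_sum_range_succ
      (fun i j => PowerSeries.coeff i (PowerSeries.derivative ℝ B) * PowerSeries.coeff j (B ^ N)) n]
    at h1
  simp only [PowerSeries.coeff_derivative] at h1
  rw [Finset.sum_range_succ'] at h1
  have hb : ∀ i, PowerSeries.coeff i B = bet i := fun i => by rw [hB, PowerSeries.coeff_mk]
  simp only [hb] at h1
  have hb0 : bet 0 = 1 := by rw [bet]
  rw [hb0] at h1
  simp only [Nat.sub_zero, one_mul] at h1
  have h2 : ∑ k ∈ Finset.range n, bet (k + 1) *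
      (PowerSeries.coeff (n - (k + 1) + 1) (B ^ N) * (((n - (k + 1) : ℕ) : ℝ) + 1)) =
      ∑ k ∈ Finset.range (n + 1), ((n : ℝ) - k) * bet (k + 1) * PowerSeries.coeff (n - k) (B ^ N) := by
    rw [Finset.sum_range_succ, sub_self, zero_mul, zero_mul, add_zero]
    apply Finset.sum_congr rfl
    intro k hk
    have hk' : k < n := Finset.mem_range.1 hk
    have e1 : n - (k + 1) + 1 = n - k := by omega
    have e2 : (((n - (k + 1) : ℕ) : ℝ) + 1) = (n : ℝ) - k := by
      rw [Nat.cast_sub (by omega)]; push_cast; ring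
    rw [e1, e2]; ring
  rw [h2] at h1
  have h3 : ∑ k ∈ Finset.range (n + 1), ((N : ℝ) * (k + 1) - (n - k)) * bet (k + 1) *
        PowerSeries.coeff (n - k) (B ^ N) =
      (N : ℝ) * ∑ k ∈ Finset.range (n + 1), bet (k + 1) * ((k : ℝ) + 1) *
        PowerSeries.coeff (n - k) (B ^ N) -
      ∑ k ∈ Finset.range (n + 1), ((n : ℝ) - k) * bet (k + 1) * PowerSeries.coeff (n - k) (B ^ N) := by
    rw [Finset.mul_sum, ← Finset.sum_sub_distrib]
    apply Finset.sum_congr rfl
    intro k _
    ring
  rw [h3]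
  simp only [Nat.succ_eq_add_one] at h1
  linarith

theorem coeff_bet_pow (N k : ℕ) :
    PowerSeries.coeff k ((PowerSeries.mk bet : PowerSeries ℝ) ^ N) = dd (N : ℝ) k := by
  induction k using Nat.strong_induction_on with
  | _ k ih =>
    rcases k with _ | n
    · rw [dd, PowerSeries.coeff_zero_eq_constantCoeff_apply, map_pow,
        ← PowerSeries.coeff_zero_eq_constantCoeff_apply, PowerSeries.coeff_mk, bet, one_pow]
    · have h1 := bet_pow_rec N n
      rw [dd]
      rw [eq_div_iff (by positivity), h1,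
        Fin.sum_univ_eq_sum_range (fun k => ((N : ℝ) * ((k : ℝ) + 1) - ((n : ℝ) - k)) *
          bet (k + 1) * dd (N : ℝ) (n - k)) (n + 1)]
      apply Finset.sum_congr rfl
      intro k hk
      rw [ih (n - k) (by omega)]

theorem dd_succ (N k : ℕ) :
    dd ((N : ℝ) + 1) k = ∑ p ∈ Finset.HasAntidiagonal.antidiagonal k, bet p.1 * dd (N : ℝ) p.2 := by
  have h1 := coeff_bet_pow (N + 1) k
  rw [Nat.cast_succ] at h1
  rw [← h1, pow_succ', PowerSeries.coeff_mul]
  apply Finset.sum_congr rfl
  intro p _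
  rw [PowerSeries.coeff_mk, coeff_bet_pow]



end J09

end ChrRoots
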