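import Pool.Agent.Helper809.Cub.Defs

set_option autoImplicit false

namespace ChrRoots

open Polynomial

namespace J10



theorem dd_zero_8139 : ∀ k : ℕ, dd 0 (k+1) = 0 := by
  intro k
  induction k using Nat.strong_induction_on with
  | _ k ih =>
    rw [dd]
    have : ∑ i : Fin (k+1), ((0:ℝ) * (i.1+1) - (k - i.1)) * bet (i.1+1) * dd 0 (k - i.1) = 0 := by
      refine Finset.sum_eq_zero fun i _ => ?_
      by_cases h : i.1 = k
      · simp [h]
      · obtain ⟨m, hm⟩ : ∃ m, k - i.1 = m+1 := ⟨k - i.1 - 1, by omega⟩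
        rw [hm, ih m (by omega)]; simp
    rw [this]; simp

theorem bin_zero_8139 : ∀ s : ℕ, bin 0 (s+1) = 0 := by
  intro s
  induction s with
  | zero => simp [bin]
  | succ s ih => rw [bin, ih]; simp

/-- evenly supported extension -/
noncomputable def ev_8139 (f : ℕ → ℝ) (m : ℕ) : ℝ := if m % 2 = 0 then f (m/2) else 0

theorem evsum_8139 (g : ℕ → ℕ → ℝ) (j : ℕ) :
    ∑ p ∈ Finset.HasAntidiagonal.antidiagonal j, (if p.2 % 2 = 0 then g (p.2/2) p.1 else 0) =
      ∑ k ∈ Finset.range (j/2+1), g k (j-2*k) := by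
  rw [← Finset.sum_filter]
  symm
  refine Finset.sum_nbij' (fun k => (j-2*k, 2*k)) (fun p => p.2/2) ?_ ?_ ?_ ?_ ?_
  · intro k hk
    simp only [Finset.mem_range, Finset.mem_filter, Finset.HasAntidiagonal.mem_antidiagonal] at hk ⊢
    omega
  · intro p hp
    simp only [Finset.mem_range, Finset.mem_filter, Finset.HasAntidiagonal.mem_antidiagonal] at hp ⊢
    omega
  · intro k hk
    simp
  · rintro ⟨a, b⟩ hp
    simp only [Finset.mem_filter, Finset.HasAntidiagonal.mem_antidiagonal] at hp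
    simp only [Prod.mk.injEq]
    omega
  · intro k hk
    have : 2 * k / 2 = k := by omega
    simp only [this]

/-- the antidiagonal form -/
noncomputable def F_8139 (n : ℕ) (r j : ℕ) : ℝ :=
  ∑ p ∈ Finset.HasAntidiagonal.antidiagonal j, ev_8139 (dd (n:ℝ)) p.2 * bin (-3 * ((p.2:ℝ)/2) - (n:ℝ)/2) p.1 *
    6 ^ p.1 * mom 1 (r + p.1)

theorem F_eq_8139 (n r j : ℕ) : ∑ k ∈ Finset.range (j / 2 + 1),
        dd (n : ℝ) k * bin (-3 * k - (n : ℝ) / 2) (j - 2 * k) * 6 ^ (j - 2 * k) *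
          mom 1 (r + (j - 2 * k)) = F_8139 n r j := by
  have h := evsum_8139 (fun k s => dd (n : ℝ) k * bin (-3 * k - (n : ℝ) / 2) s * 6 ^ s *
          mom 1 (r + s)) j
  rw [← h, F_8139]
  refine Finset.sum_congr rfl fun p _ => ?_
  unfold ev_8139
  split_ifs with hp
  · have : ((p.2 / 2 : ℕ) : ℝ) = (p.2 : ℝ) / 2 := by
      obtain ⟨m, hm⟩ : ∃ m, p.2 = 2 * m := ⟨p.2/2, by omega⟩
      rw [hm]
      have : 2 * m / 2 = m := by omega
      rw [this]; push_cast; ring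
    rw [this]
  · simp

theorem dd_succ_8139 (hdd : ∀ N k : ℕ, dd ((N : ℝ) + 1) k =
      ∑ p ∈ Finset.HasAntidiagonal.antidiagonal k, bet p.1 * dd (N : ℝ) p.2) (n M : ℕ) :
    ev_8139 (dd ((n+1 : ℕ) : ℝ)) M =
      ∑ p ∈ Finset.HasAntidiagonal.antidiagonal M, ev_8139 bet p.1 * ev_8139 (dd (n:ℝ)) p.2 := by
  have hcast : (((n+1 : ℕ)) : ℝ) = (n:ℝ) + 1 := by push_cast; ring
  rw [hcast]
  unfold ev_8139
  split_ifs with hM
  · obtain ⟨K, rfl⟩ : ∃ K, M = 2 * K := ⟨M/2, by omega⟩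
    have h2 : 2 * K / 2 = K := by omega
    rw [h2, hdd]
    have h3 : ∀ p ∈ Finset.HasAntidiagonal.antidiagonal (2*K), ((if p.1 % 2 = 0 then bet (p.1/2) else 0) *
        (if p.2 % 2 = 0 then dd (n:ℝ) (p.2/2) else 0)) =
        if p.1 % 2 = 0 then bet (p.1/2) * dd (n:ℝ) (p.2/2) else 0 := by
      intro p hp
      rw [Finset.HasAntidiagonal.mem_antidiagonal] at hp
      by_cases h : p.1 % 2 = 0
      · have h' : p.2 % 2 = 0 := by omega
        simp [h, h']
      · simp [h]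
    rw [Finset.sum_congr rfl h3, ← Finset.sum_filter]
    refine Finset.sum_nbij' (fun p => (2*p.1, 2*p.2)) (fun p => (p.1/2, p.2/2)) ?_ ?_ ?_ ?_ ?_
    · intro p hp
      simp only [Finset.mem_filter, Finset.HasAntidiagonal.mem_antidiagonal] at hp ⊢
      omega
    · intro p hp
      simp only [Finset.mem_filter, Finset.HasAntidiagonal.mem_antidiagonal] at hp ⊢
      omega
    · intro p hp
      simp
    · rintro ⟨a, b⟩ hp
      simp only [Finset.mem_filter, Finset.HasAntidiagonal.mem_antidiagonal] at hp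
      simp only [Prod.mk.injEq]
      omega
    · rintro ⟨a, b⟩ hp
      have e1 : 2 * a / 2 = a := by omega
      have e2 : 2 * b / 2 = b := by omega
      simp only [e1, e2]
  · symm
    refine Finset.sum_eq_zero fun p hp => ?_
    rw [Finset.HasAntidiagonal.mem_antidiagonal] at hp
    by_cases h : p.1 % 2 = 0
    · have h' : ¬ p.2 % 2 = 0 := by omega
      simp [h']
    · simp [h]

theorem exch_8139 (j : ℕ) (f : ℕ → ℕ → ℕ → ℕ → ℝ) :
    ∑ p ∈ Finset.HasAntidiagonal.antidiagonal j, ∑ q ∈ Finset.HasAntidiagonal.antidiagonal p.1, ∑ t ∈ Finset.HasAntidiagonal.antidiagonal p.2,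
      f q.1 q.2 t.1 t.2 =
    ∑ p ∈ Finset.HasAntidiagonal.antidiagonal j, ∑ q ∈ Finset.HasAntidiagonal.antidiagonal p.1, ∑ t ∈ Finset.HasAntidiagonal.antidiagonal p.2,
      f q.1 t.1 q.2 t.2 := by
  have key : ∀ g : ℕ → ℕ → ℕ → ℕ → ℝ,
      ∑ p ∈ Finset.HasAntidiagonal.antidiagonal j, ∑ q ∈ Finset.HasAntidiagonal.antidiagonal p.1, ∑ t ∈ Finset.HasAntidiagonal.antidiagonal p.2,
      g q.1 q.2 t.1 t.2 = ∑ x ∈ (Finset.HasAntidiagonal.antidiagonal j).sigma
        (fun p => (Finset.HasAntidiagonal.antidiagonal p.1) ×ˢ (Finset.HasAntidiagonal.antidiagonal p.2)),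
          g x.2.1.1 x.2.1.2 x.2.2.1 x.2.2.2 := by
    intro g
    rw [Finset.sum_sigma]
    refine Finset.sum_congr rfl fun p _ => ?_
    rw [Finset.sum_product]
  rw [key, key (fun a b c d => f a c b d)]
  refine Finset.sum_nbij'
    (fun x => ⟨(x.2.1.1 + x.2.2.1, x.2.1.2 + x.2.2.2), ((x.2.1.1, x.2.2.1), (x.2.1.2, x.2.2.2))⟩)
    (fun x => ⟨(x.2.1.1 + x.2.2.1, x.2.1.2 + x.2.2.2), ((x.2.1.1, x.2.2.1), (x.2.1.2, x.2.2.2))⟩)
    ?_ ?_ ?_ ?_ ?_
  · rintro ⟨⟨a, b⟩, ⟨⟨c, d⟩, ⟨e, g⟩⟩⟩ h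
    simp only [Finset.mem_sigma, Finset.mem_product, Finset.HasAntidiagonal.mem_antidiagonal,
      and_true] at h ⊢
    omega
  · rintro ⟨⟨a, b⟩, ⟨⟨c, d⟩, ⟨e, g⟩⟩⟩ h
    simp only [Finset.mem_sigma, Finset.mem_product, Finset.HasAntidiagonal.mem_antidiagonal,
      and_true] at h ⊢
    omega
  · rintro ⟨⟨a, b⟩, ⟨⟨c, d⟩, ⟨e, g⟩⟩⟩ h
    simp only [Finset.mem_sigma, Finset.mem_product, Finset.HasAntidiagonal.mem_antidiagonal] at h ⊢
    obtain ⟨h1, h2, h3⟩ := h
    subst h2; subst h3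
    rfl
  · rintro ⟨⟨a, b⟩, ⟨⟨c, d⟩, ⟨e, g⟩⟩⟩ h
    simp only [Finset.mem_sigma, Finset.mem_product, Finset.HasAntidiagonal.mem_antidiagonal] at h ⊢
    obtain ⟨h1, h2, h3⟩ := h
    subst h2; subst h3
    rfl
  · rintro ⟨⟨a, b⟩, ⟨⟨c, d⟩, ⟨e, g⟩⟩⟩ h
    rfl

theorem F_succ_8139
    (hbin : ∀ (a b : ℝ) (n : ℕ), bin (a + b) n =
      ∑ p ∈ Finset.HasAntidiagonal.antidiagonal n, bin a p.1 * bin b p.2)
    (hdd : ∀ N k : ℕ, dd ((N : ℝ) + 1) k =
      ∑ p ∈ Finset.HasAntidiagonal.antidiagonal k, bet p.1 * dd (N : ℝ) p.2) (n r j : ℕ) :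
    ∑ p ∈ Finset.HasAntidiagonal.antidiagonal j, ∑ q ∈ Finset.HasAntidiagonal.antidiagonal p.1,
      (ev_8139 bet q.2 * bin (-3 * ((q.2:ℝ)/2) - 1/2) q.1 * 6 ^ q.1) * F_8139 n (r + q.1) p.2 =
      F_8139 (n+1) r j := by
  have h1 : ∀ p ∈ Finset.HasAntidiagonal.antidiagonal j, ∑ q ∈ Finset.HasAntidiagonal.antidiagonal p.1,
      (ev_8139 bet q.2 * bin (-3 * ((q.2:ℝ)/2) - 1/2) q.1 * 6 ^ q.1) * F_8139 n (r + q.1) p.2 =
      ∑ q ∈ Finset.HasAntidiagonal.antidiagonal p.1, ∑ t ∈ Finset.HasAntidiagonal.antidiagonal p.2,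
      (fun a b c d => (ev_8139 bet b * bin (-3 * ((b:ℝ)/2) - 1/2) a * 6 ^ a) *
        (ev_8139 (dd (n:ℝ)) d * bin (-3 * ((d:ℝ)/2) - (n:ℝ)/2) c * 6 ^ c * mom 1 (r + a + c)))
        q.1 q.2 t.1 t.2 := by
    intro p _
    refine Finset.sum_congr rfl fun q _ => ?_
    rw [F_8139, Finset.mul_sum]
  refine (Finset.sum_congr rfl h1).trans ?_
  refine (exch_8139 j (fun a b c d => (ev_8139 bet b * bin (-3 * ((b:ℝ)/2) - 1/2) a * 6 ^ a) *
        (ev_8139 (dd (n:ℝ)) d * bin (-3 * ((d:ℝ)/2) - (n:ℝ)/2) c * 6 ^ c * mom 1 (r + a + c)))).trans ?_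
  rw [F_8139]
  refine Finset.sum_congr rfl fun p _ => ?_
  rw [dd_succ_8139 hdd]
  have h2 : ∀ t ∈ Finset.HasAntidiagonal.antidiagonal p.2,
      (-3 * ((p.2:ℝ)/2) - ((n+1 : ℕ):ℝ)/2) =
        (-3 * ((t.1:ℝ)/2) - 1/2) + (-3 * ((t.2:ℝ)/2) - (n:ℝ)/2) := by
    intro t ht
    rw [Finset.HasAntidiagonal.mem_antidiagonal] at ht
    rw [← ht]
    push_cast
    ring
  rw [Finset.sum_mul, Finset.sum_mul, Finset.sum_mul, Finset.sum_comm]
  refine Finset.sum_congr rfl fun t ht => ?_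
  rw [h2 t ht, hbin, Finset.mul_sum, Finset.sum_mul, Finset.sum_mul]
  refine Finset.sum_congr rfl fun q hq => ?_
  rw [Finset.HasAntidiagonal.mem_antidiagonal] at hq
  rw [← hq, pow_add, ← add_assoc]
  ring

theorem g_eq_8139 (hone : ∀ i k : ℕ, (3 : ℝ) ^ i * mom (-1) (2 * i + 6 * k) / (i.factorial * (2 * k).factorial) =
      bet k * bin (-3 * k - 1 / 2) i * 6 ^ i)
    (hodd : ∀ (v : ℝ) (n : ℕ), mom v (2 * n + 1) = 0) (i m : ℕ) :
    (3:ℝ) ^ i * mom (-1) (2 * i + 3 * m) / (i.factorial * m.factorial) =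
      ev_8139 bet m * bin (-3 * ((m:ℝ)/2) - 1/2) i * 6 ^ i := by
  unfold ev_8139
  split_ifs with hm
  · obtain ⟨k, rfl⟩ : ∃ k, m = 2 * k := ⟨m/2, by omega⟩
    have h2 : 2 * k / 2 = k := by omega
    have h3 : 2 * i + 3 * (2 * k) = 2 * i + 6 * k := by ring
    rw [h2, h3, hone]
    congr 3
    push_cast
    ring
  · obtain ⟨k, rfl⟩ : ∃ k, m = 2 * k + 1 := ⟨m/2, by omega⟩
    have h3 : 2 * i + 3 * (2 * k + 1) = 2 * (i + 3 * k + 1) + 1 := by ring
    rw [h3, hodd]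
    simp

theorem pd_8139 {N : ℕ} (S : Finset (Fin N)) (a : Fin N) (ha : a ∉ S) (r j : ℕ) :
    MvPolynomial.pderiv (some a) ((MvPolynomial.X none : MvPolynomial (Option (Fin N)) ℝ) ^ r *
      (∑ a ∈ S, (3 * MvPolynomial.X none * MvPolynomial.X (some a) ^ 2 +
        MvPolynomial.X (some a) ^ 3)) ^ j) = 0 := by
  have h0 : MvPolynomial.pderiv (some a) (MvPolynomial.X none : MvPolynomial (Option (Fin N)) ℝ) = 0 := by
    rw [MvPolynomial.pderiv_X_of_ne]
    simp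
  have h1 : MvPolynomial.pderiv (some a) (∑ a ∈ S, (3 * MvPolynomial.X none * MvPolynomial.X (some a) ^ 2 +
        MvPolynomial.X (some a) ^ 3) : MvPolynomial (Option (Fin N)) ℝ) = 0 := by
    rw [map_sum]
    refine Finset.sum_eq_zero fun b hb => ?_
    have hne : b ≠ a := fun h => ha (h ▸ hb)
    have h2 : MvPolynomial.pderiv (some a) (MvPolynomial.X (some b) : MvPolynomial (Option (Fin N)) ℝ) = 0 := by
      rw [MvPolynomial.pderiv_X_of_ne]
      simpa using hne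
    have h3 : MvPolynomial.pderiv (some a) (3 : MvPolynomial (Option (Fin N)) ℝ) = 0 := by
      have : (3 : MvPolynomial (Option (Fin N)) ℝ) = MvPolynomial.C 3 :=
        (map_ofNat MvPolynomial.C 3).symm
      rw [this, MvPolynomial.pderiv_C]
    simp [Derivation.leibniz, Derivation.leibniz_pow, h0, h2, h3]
  simp [Derivation.leibniz, Derivation.leibniz_pow, h0, h1]

theorem term_8139 (N : ℕ)
    (hindep : ∀ (i : Option (Fin N)) (p : MvPolynomial (Option (Fin N)) ℝ),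
      MvPolynomial.pderiv i p = 0 → ∀ m : ℕ,
      EE N (MvPolynomial.X i ^ m * p) = mom (vr i) m * EE N p)
    (S : Finset (Fin N)) (a : Fin N) (ha : a ∉ S) (r i m j : ℕ) :
    EE N (MvPolynomial.X none ^ r * (((3 * MvPolynomial.X none * MvPolynomial.X (some a) ^ 2) ^ i *
        (MvPolynomial.X (some a) ^ 3) ^ m) * (∑ a ∈ S,
      (3 * MvPolynomial.X none * MvPolynomial.X (some a) ^ 2 +
        MvPolynomial.X (some a) ^ 3)) ^ j)) =
      3 ^ i * mom (-1) (2 * i + 3 * m) * EE N (MvPolynomial.X none ^ (r + i) * (∑ a ∈ S,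
      (3 * MvPolynomial.X none * MvPolynomial.X (some a) ^ 2 +
        MvPolynomial.X (some a) ^ 3)) ^ j) := by
  have h := hindep (some a) _ (pd_8139 S a ha (r + i) j) (2 * i + 3 * m)
  have hv : vr (some a) = -1 := rfl
  rw [hv] at h
  rw [mul_assoc (3 ^ i : ℝ), ← h, ← smul_eq_mul (3 ^ i : ℝ), ← map_smul]
  congr 1
  rw [MvPolynomial.smul_eq_C_mul]
  have h3 : (MvPolynomial.C ((3:ℝ) ^ i) : MvPolynomial (Option (Fin N)) ℝ) = 3 ^ i := by
    rw [map_pow]
    have : (MvPolynomial.C (3:ℝ) : MvPolynomial (Option (Fin N)) ℝ) = 3 := map_ofNat MvPolynomial.C 3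
    rw [this]
  rw [h3, mul_pow, mul_pow, ← pow_mul, ← pow_mul, pow_add, pow_add]
  ring

theorem sites_aux (N : ℕ)
    (hbin : ∀ (a b : ℝ) (n : ℕ), bin (a + b) n =
      ∑ p ∈ Finset.HasAntidiagonal.antidiagonal n, bin a p.1 * bin b p.2)
    (hone : ∀ i k : ℕ, (3 : ℝ) ^ i * mom (-1) (2 * i + 6 * k) / (i.factorial * (2 * k).factorial) =
      bet k * bin (-3 * k - 1 / 2) i * 6 ^ i)
    (hodd : ∀ (v : ℝ) (n : ℕ), mom v (2 * n + 1) = 0)
    (hdd : ∀ N k : ℕ, dd ((N : ℝ) + 1) k =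
      ∑ p ∈ Finset.HasAntidiagonal.antidiagonal k, bet p.1 * dd (N : ℝ) p.2)
    (hindep : ∀ (i : Option (Fin N)) (p : MvPolynomial (Option (Fin N)) ℝ),
      MvPolynomial.pderiv i p = 0 → ∀ m : ℕ,
      EE N (MvPolynomial.X i ^ m * p) = mom (vr i) m * EE N p)
    (hpow : ∀ s : ℕ, EE N (MvPolynomial.X none ^ s) = mom 1 s)
    (S : Finset (Fin N)) (r j : ℕ) :
    EE N (MvPolynomial.X none ^ r * (∑ a ∈ S,
      (3 * MvPolynomial.X none * MvPolynomial.X (some a) ^ 2 +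
        MvPolynomial.X (some a) ^ 3)) ^ j) =
      j.factorial * ∑ k ∈ Finset.range (j / 2 + 1),
        dd (S.card : ℝ) k * bin (-3 * k - (S.card : ℝ) / 2) (j - 2 * k) * 6 ^ (j - 2 * k) *
          mom 1 (r + (j - 2 * k)) := by
  classical
  induction S using Finset.induction_on generalizing r j with
  | empty =>
    rcases j with _ | j
    · simp [hpow, dd, bin]
    · rw [Finset.sum_empty, zero_pow (Nat.succ_ne_zero j), mul_zero, map_zero]
      symm
      rw [Finset.sum_eq_zero, mul_zero]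
      intro k hk
      rcases k with _ | k
      · have : bin (-3 * ((0:ℕ):ℝ) - ((∅ : Finset (Fin N)).card : ℝ) / 2) (j + 1 - 2 * 0) = 0 := by
          have e : (-3 * ((0:ℕ):ℝ) - ((∅ : Finset (Fin N)).card : ℝ) / 2) = 0 := by simp
          rw [e]
          exact bin_zero_8139 j
        rw [this]; ring
      · have : dd ((∅ : Finset (Fin N)).card : ℝ) (k+1) = 0 := by
          have e : ((∅ : Finset (Fin N)).card : ℝ) = 0 := by simp
          rw [e]
          exact dd_zero_8139 k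
        rw [this]; ring
  | insert a S ha ih =>
    rw [F_eq_8139, Finset.card_insert_of_notMem ha, ← F_succ_8139 hbin hdd, Finset.sum_insert ha,
      (Commute.all _ _).add_pow', Finset.mul_sum, map_sum, Finset.mul_sum]
    refine Finset.sum_congr rfl fun p hp => ?_
    rw [(Commute.all _ _).add_pow', Finset.sum_mul, Finset.smul_sum, Finset.mul_sum, map_sum,
      Finset.mul_sum]
    refine Finset.sum_congr rfl fun q hq => ?_
    rw [Finset.HasAntidiagonal.mem_antidiagonal] at hp hq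
    rw [← g_eq_8139 hone hodd]
    have h1 : ∀ A B X : MvPolynomial (Option (Fin N)) ℝ, ∀ c d : ℕ,
        EE N (A * (c • ((d • B) * X))) = c * d * EE N (A * (B * X)) := by
      intro A B X c d
      have : A * (c • ((d • B) * X)) = ((c : ℝ) * d) • (A * (B * X)) := by
        rw [MvPolynomial.smul_eq_C_mul, nsmul_eq_mul, nsmul_eq_mul]
        simp only [map_mul, map_natCast]
        ring
      rw [this, map_smul, smul_eq_mul]
    rw [h1, term_8139 N hindep S a ha, ih, F_eq_8139]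
    have hc1 : ((j.choose p.1 : ℕ) : ℝ) * p.1.factorial * p.2.factorial = j.factorial := by
      have := Nat.choose_mul_factorial_mul_factorial (show p.1 ≤ j by omega)
      have e : j - p.1 = p.2 := by omega
      rw [e] at this
      exact_mod_cast this
    have hc2 : ((p.1.choose q.1 : ℕ) : ℝ) * q.1.factorial * q.2.factorial = p.1.factorial := by
      have := Nat.choose_mul_factorial_mul_factorial (show q.1 ≤ p.1 by omega)
      have e : p.1 - q.1 = q.2 := by omega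
      rw [e] at this
      exact_mod_cast this
    rw [← hc1, ← hc2]
    have f1 : (q.1.factorial : ℝ) ≠ 0 := by exact_mod_cast q.1.factorial_ne_zero
    have f2 : (q.2.factorial : ℝ) ≠ 0 := by exact_mod_cast q.2.factorial_ne_zero
    field_simp


end J10

end ChrRoots
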