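import Pool.Agent.Helper809.Cub.Defs

set_option autoImplicit false

namespace ChrRoots

open Polynomial

namespace J11


theorem j11_reindex (n : ℕ) (F : ℕ → ℕ → ℕ → ℝ) :
    ∑ p ∈ Finset.HasAntidiagonal.antidiagonal n, ∑ k ∈ Finset.range (p.2 / 2 + 1), F k (p.2 - 2 * k) p.1
      = ∑ k ∈ Finset.range (n / 2 + 1), ∑ s ∈ Finset.range (n - 2 * k + 1), F k s (n - 2 * k - s) := by
  rw [Finset.sum_sigma', Finset.sum_sigma']
  refine Finset.sum_bij' (fun x _ => (⟨x.2, x.1.2 - 2 * x.2⟩ : Σ _ : ℕ, ℕ))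
    (fun y _ => (⟨(n - 2 * y.1 - y.2, y.2 + 2 * y.1), y.1⟩ : Σ _ : ℕ × ℕ, ℕ)) ?_ ?_ ?_ ?_ ?_
  · rintro ⟨⟨i, j⟩, k⟩ hx
    simp only [Finset.mem_sigma, Finset.HasAntidiagonal.mem_antidiagonal, Finset.mem_range] at hx ⊢
    omega
  · rintro ⟨k, s⟩ hx
    simp only [Finset.mem_sigma, Finset.HasAntidiagonal.mem_antidiagonal, Finset.mem_range] at hx ⊢
    omega
  · rintro ⟨⟨i, j⟩, k⟩ hx
    simp only [Finset.mem_sigma, Finset.HasAntidiagonal.mem_antidiagonal, Finset.mem_range] at hx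
    have h1 : n - 2 * k - (j - 2 * k) = i := by omega
    have h2 : j - 2 * k + 2 * k = j := by omega
    simp only [h1, h2]
  · rintro ⟨k, s⟩ hx
    simp only [Finset.mem_sigma, Finset.mem_range] at hx
    have h1 : s + 2 * k - 2 * k = s := by omega
    simp only [h1]
  · rintro ⟨⟨i, j⟩, k⟩ hx
    simp only [Finset.mem_sigma, Finset.HasAntidiagonal.mem_antidiagonal, Finset.mem_range] at hx
    have h1 : n - 2 * k - (j - 2 * k) = i := by omega
    simp only [h1]

theorem j11_shift (n : ℕ) (F : ℕ → ℕ → ℕ → ℝ) (hF : ∀ k i, F k 0 i = 0) :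
    ∑ p ∈ Finset.HasAntidiagonal.antidiagonal (n + 1), ∑ k ∈ Finset.range (p.2 / 2 + 1), F k (p.2 - 2 * k) p.1
      = ∑ p ∈ Finset.HasAntidiagonal.antidiagonal n, ∑ k ∈ Finset.range (p.2 / 2 + 1),
        F k (p.2 - 2 * k + 1) p.1 := by
  rw [Finset.Nat.sum_antidiagonal_succ']
  have h0 : ∑ k ∈ Finset.range (0 / 2 + 1), F k (0 - 2 * k) (n + 1) = 0 := by
    simp [hF]
  simp only at h0 ⊢
  rw [h0, zero_add]
  apply Finset.sum_congr rfl
  rintro ⟨i, j⟩ _
  simp only
  symm
  have hsub : Finset.range (j / 2 + 1) ⊆ Finset.range ((j + 1) / 2 + 1) := by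
    intro k hk
    rw [Finset.mem_range] at hk ⊢
    omega
  rw [← Finset.sum_subset hsub]
  · apply Finset.sum_congr rfl
    intro k hk
    rw [Finset.mem_range] at hk
    congr 1
    omega
  · intro k hk hk2
    rw [Finset.mem_range] at hk hk2
    have : j + 1 - 2 * k = 0 := by omega
    rw [this, hF]

theorem EE_G_aux (N n : ℕ)
    (hmul : ∀ (α γ α' γ' : MvPolynomial (Option (Fin N)) ℝ) (n : ℕ), eSeq (α + α') (γ + γ') n =
      ∑ p ∈ Finset.HasAntidiagonal.antidiagonal n, eSeq α γ p.1 * eSeq α' γ' p.2)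
    (hzero : ∀ (α : MvPolynomial (Option (Fin N)) ℝ) (n : ℕ),
      eSeq α 0 n = ((1 : ℝ) / n.factorial) • α ^ n)
    (hcv : ∀ (D : Derivation ℝ (MvPolynomial (Option (Fin N)) ℝ) (MvPolynomial (Option (Fin N)) ℝ))
      (L x G : MvPolynomial (Option (Fin N)) ℝ) (c : ℝ), D x = 1 →
      D L = algebraMap ℝ _ (1 - c) → D G = 0 → (∀ p, EE N (L * p) = EE N (D p)) →
      ∀ n : ℕ, EE N (G ^ n) = n.factorial *
        EE N (eSeq (G - 3 * x ^ 2 * L) ((9 / 2 * (c - 1) : ℝ) • x ^ 4) n +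
        (if n = 0 then 0 else
          6 * x * eSeq (G - 3 * x ^ 2 * L) ((9 / 2 * (c - 1) : ℝ) • x ^ 4) (n - 1))))
    (hibp : ∀ (i : Option (Fin N)) (p : MvPolynomial (Option (Fin N)) ℝ),
      EE N (MvPolynomial.X i * p) = vr i * EE N (MvPolynomial.pderiv i p))
    (hpow : ∀ s : ℕ, EE N (MvPolynomial.X none ^ s) = mom 1 s)
    (hpascal : ∀ (a : ℝ) (s : ℕ), bin (a + 1) (s + 1) = bin a (s + 1) + bin a s)
    (hsites : ∀ r j : ℕ, EE N (MvPolynomial.X none ^ r * (∑ a : Fin N,
      (3 * MvPolynomial.X none * MvPolynomial.X (some a) ^ 2 +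
        MvPolynomial.X (some a) ^ 3)) ^ j) =
      j.factorial * ∑ k ∈ Finset.range (j / 2 + 1),
        dd N k * bin (-3 * k - N / 2) (j - 2 * k) * 6 ^ (j - 2 * k) *
          mom 1 (r + (j - 2 * k))) :
    EE N ((∑ a : Fin N, (MvPolynomial.X none + MvPolynomial.X (some a)) ^ 3) ^ n) =
      n.factorial * Sr N n := by
  classical
  set h : MvPolynomial (Option (Fin N)) ℝ := MvPolynomial.X none with hh
  set K : MvPolynomial (Option (Fin N)) ℝ := ∑ a : Fin N,
      (3 * h * MvPolynomial.X (some a) ^ 2 + MvPolynomial.X (some a) ^ 3) with hK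
  set α : MvPolynomial (Option (Fin N)) ℝ := ((N : ℝ) - 3) • h ^ 3 with hα
  set γ : MvPolynomial (Option (Fin N)) ℝ := (9 / 2 * ((N : ℝ) - 1) : ℝ) • h ^ 4 with hγ
  set u : ℕ → MvPolynomial (Option (Fin N)) ℝ := fun i => eSeq α γ i with hu
  have h2γ : 2 * γ = (9 * ((N : ℝ) - 1)) • h ^ 4 := by
    rw [hγ, two_mul, ← add_smul]
    congr 1
    ring
  -- the moments
  have claim : ∀ (j i r : ℕ), EE N (h ^ r * u i * K ^ j) = j.factorial *
      ∑ k ∈ Finset.range (j / 2 + 1), dd N k * bin (-3 * k - N / 2) (j - 2 * k) * 6 ^ (j - 2 * k) *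
        mu N (r + (j - 2 * k)) i := by
    intro j i
    induction i using Nat.twoStepInduction with
    | zero =>
      intro r
      have e : u 0 = 1 := rfl
      rw [e, mul_one, hsites r j]
      rfl
    | one =>
      intro r
      have e : u 1 = α := rfl
      have e2 : h ^ r * α * K ^ j = ((N : ℝ) - 3) • (h ^ (r + 3) * K ^ j) := by
        rw [hα, mul_smul_comm, smul_mul_assoc, pow_add]
      rw [e, e2, map_smul, hsites (r + 3) j, smul_eq_mul, mul_left_comm, Finset.mul_sum]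
      congr 1
      apply Finset.sum_congr rfl
      intro k _
      have e3 : mu N (r + (j - 2 * k)) 1 = ((N : ℝ) - 3) * mom 1 (r + (j - 2 * k) + 3) := rfl
      rw [e3, show r + 3 + (j - 2 * k) = r + (j - 2 * k) + 3 by ring]
      ring
    | more i ih0 ih1 =>
      intro r
      have e : u (i + 2) = (1 / ((i : ℝ) + 2)) • (α * u (i + 1) + 2 * γ * u i) := rfl
      have e2 : h ^ r * u (i + 2) * K ^ j = (1 / ((i : ℝ) + 2)) •
          (((N : ℝ) - 3) • (h ^ (r + 3) * u (i + 1) * K ^ j) +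
            (9 * ((N : ℝ) - 1)) • (h ^ (r + 4) * u i * K ^ j)) := by
        rw [e, h2γ, hα]
        rw [mul_smul_comm, smul_mul_assoc]
        congr 1
        rw [mul_add, add_mul]
        congr 1
        · rw [smul_mul_assoc, mul_smul_comm, smul_mul_assoc]
          congr 1
          ring
        · rw [smul_mul_assoc, mul_smul_comm, smul_mul_assoc]
          congr 1
          ring
      rw [e2, map_smul, map_add, map_smul, map_smul, ih1 (r + 3), ih0 (r + 4)]
      simp only [smul_eq_mul]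
      have e4 : (1 / ((i : ℝ) + 2)) * (((N : ℝ) - 3) * (j.factorial *
          ∑ k ∈ Finset.range (j / 2 + 1), dd N k * bin (-3 * k - N / 2) (j - 2 * k) * 6 ^ (j - 2 * k) *
          mu N (r + 3 + (j - 2 * k)) (i + 1)) + 9 * ((N : ℝ) - 1) * (j.factorial *
          ∑ k ∈ Finset.range (j / 2 + 1), dd N k * bin (-3 * k - N / 2) (j - 2 * k) * 6 ^ (j - 2 * k) *
          mu N (r + 4 + (j - 2 * k)) i)) = j.factorial * ((1 / ((i : ℝ) + 2)) * (((N : ℝ) - 3) *
          ∑ k ∈ Finset.range (j / 2 + 1), dd N k * bin (-3 * k - N / 2) (j - 2 * k) * 6 ^ (j - 2 * k) *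
          mu N (r + 3 + (j - 2 * k)) (i + 1) + 9 * ((N : ℝ) - 1) *
          ∑ k ∈ Finset.range (j / 2 + 1), dd N k * bin (-3 * k - N / 2) (j - 2 * k) * 6 ^ (j - 2 * k) *
          mu N (r + 4 + (j - 2 * k)) i)) := by ring
      rw [e4]
      congr 1
      rw [Finset.mul_sum, Finset.mul_sum, ← Finset.sum_add_distrib, Finset.mul_sum]
      apply Finset.sum_congr rfl
      intro k _
      have e3 : mu N (r + (j - 2 * k)) (i + 2) = (((N : ℝ) - 3) * mu N (r + (j - 2 * k) + 3) (i + 1) +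
          9 * ((N : ℝ) - 1) * mu N (r + (j - 2 * k) + 4) i) / (i + 2) := rfl
      rw [e3, show r + 3 + (j - 2 * k) = r + (j - 2 * k) + 3 by ring,
        show r + 4 + (j - 2 * k) = r + (j - 2 * k) + 4 by ring]
      ring
  -- expand
  set Fk : ℕ → ℕ → ℕ → ℕ → ℝ := fun r k s i => dd N k * (bin (-3 * k - N / 2) s * 6 ^ s * mu N (r + s) i) with hFk
  have hseq : ∀ (r n : ℕ), EE N (h ^ r * eSeq (α + K) γ n) =
      ∑ p ∈ Finset.HasAntidiagonal.antidiagonal n, ∑ k ∈ Finset.range (p.2 / 2 + 1),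
        Fk r k (p.2 - 2 * k) p.1 := by
    intro r n
    have h1 := hmul α γ K 0 n
    rw [add_zero] at h1
    rw [h1, Finset.mul_sum, map_sum]
    apply Finset.sum_congr rfl
    rintro ⟨i, j⟩ _
    simp only
    rw [hzero K j, mul_smul_comm, mul_smul_comm, map_smul, ← mul_assoc]
    have h2 := claim j i r
    rw [show (h ^ r * eSeq α γ i * K ^ j) = h ^ r * u i * K ^ j from rfl, h2, smul_eq_mul, ← mul_assoc,
      one_div, inv_mul_cancel₀ (by exact_mod_cast j.factorial_ne_zero), one_mul]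
    apply Finset.sum_congr rfl
    intro k _
    simp only [hFk]
    ring
  -- the derivation
  let D : Derivation ℝ (MvPolynomial (Option (Fin N)) ℝ) (MvPolynomial (Option (Fin N)) ℝ) :=
    MvPolynomial.pderiv none - ∑ a : Fin N, MvPolynomial.pderiv (some a)
  have hDapp : ∀ p, D p = MvPolynomial.pderiv none p - ∑ a : Fin N, MvPolynomial.pderiv (some a) p := by
    intro p
    simp only [D]
    rw [Derivation.sub_apply]
    congr 1
    let ev : Derivation ℝ (MvPolynomial (Option (Fin N)) ℝ) (MvPolynomial (Option (Fin N)) ℝ) →+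
        MvPolynomial (Option (Fin N)) ℝ :=
      { toFun := fun d => d p
        map_zero' := rfl
        map_add' := fun _ _ => rfl }
    exact map_sum ev _ _
  have hDx : D h = 1 := by
    rw [hDapp, hh, MvPolynomial.pderiv_X_self]
    rw [Finset.sum_eq_zero, sub_zero]
    intro a _
    rw [MvPolynomial.pderiv_X_of_ne (by simp)]
  have hDxi : ∀ a : Fin N, D (MvPolynomial.X (some a)) = -1 := by
    intro a
    rw [hDapp, MvPolynomial.pderiv_X_of_ne (by simp), Finset.sum_eq_single a]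
    · rw [MvPolynomial.pderiv_X_self, zero_sub]
    · intro b _ hb
      rw [MvPolynomial.pderiv_X_of_ne (by simpa using hb.symm)]
    · intro h
      exact absurd (Finset.mem_univ a) h
  set L : MvPolynomial (Option (Fin N)) ℝ := h + ∑ a : Fin N, MvPolynomial.X (some a) with hL
  set G : MvPolynomial (Option (Fin N)) ℝ := ∑ a : Fin N, (h + MvPolynomial.X (some a)) ^ 3 with hG
  have hDL : D L = algebraMap ℝ _ (1 - (N : ℝ)) := by
    rw [hL, map_add, map_sum, hDx, Finset.sum_congr rfl (fun a _ => hDxi a)]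
    simp
    ring
  have hDG : D G = 0 := by
    rw [hG, map_sum]
    apply Finset.sum_eq_zero
    intro a _
    rw [Derivation.leibniz_pow, map_add, hDx, hDxi]
    simp
  have hEL : ∀ p, EE N (L * p) = EE N (D p) := by
    intro p
    rw [hL, add_mul, Finset.sum_mul, map_add, map_sum, hDapp, map_sub, map_sum, hibp none p]
    have e1 : (vr (none : Option (Fin N)) : ℝ) = 1 := rfl
    rw [e1, one_mul, sub_eq_add_neg, ← Finset.sum_neg_distrib]
    congr 1
    apply Finset.sum_congr rfl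
    intro a _
    rw [hibp (some a) p]
    have e2 : (vr (some a : Option (Fin N)) : ℝ) = -1 := rfl
    rw [e2]
    ring
  have hmain := hcv D L h G N hDx hDL hDG hEL n
  have hGL : G - 3 * h ^ 2 * L = α + K := by
    rw [hG, hL, hα, hK, Algebra.smul_def, map_sub, map_natCast]
    have e1 : ∑ a : Fin N, (h + MvPolynomial.X (some a)) ^ 3 = (N : MvPolynomial (Option (Fin N)) ℝ) * h ^ 3
        + 3 * h ^ 2 * ∑ a : Fin N, MvPolynomial.X (some a) + ∑ a : Fin N,
          (3 * h * MvPolynomial.X (some a) ^ 2 + MvPolynomial.X (some a) ^ 3) := by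
      rw [Finset.mul_sum]
      have e2 : (N : MvPolynomial (Option (Fin N)) ℝ) * h ^ 3 = ∑ a : Fin N, h ^ 3 := by
        simp
      rw [e2, ← Finset.sum_add_distrib, ← Finset.sum_add_distrib]
      apply Finset.sum_congr rfl
      intro a _
      ring
    rw [e1]
    have e3 : (algebraMap ℝ (MvPolynomial (Option (Fin N)) ℝ)) 3 = 3 := map_ofNat _ 3
    rw [e3]
    ring
  rw [hmain, hGL]
  congr 1
  rw [map_add]
  have hE1 : EE N (eSeq (α + K) γ n) = ∑ p ∈ Finset.HasAntidiagonal.antidiagonal n,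
      ∑ k ∈ Finset.range (p.2 / 2 + 1), Fk 0 k (p.2 - 2 * k) p.1 := by
    have := hseq 0 n
    rwa [pow_zero, one_mul] at this
  -- the second term
  set F2 : ℕ → ℕ → ℕ → ℝ := fun k s i => if s = 0 then 0 else 6 * Fk 1 k (s - 1) i with hF2
  have hE2 : EE N (if n = 0 then 0 else 6 * h * eSeq (α + K) γ (n - 1)) =
      ∑ p ∈ Finset.HasAntidiagonal.antidiagonal n,
      ∑ k ∈ Finset.range (p.2 / 2 + 1), F2 k (p.2 - 2 * k) p.1 := by
    rcases n with _ | n
    · simp [hF2]
    · rw [if_neg (Nat.succ_ne_zero n), j11_shift n F2 (fun k i => by simp [hF2])]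
      have e1 : 6 * h * eSeq (α + K) γ (n + 1 - 1) = (6 : ℝ) • (h ^ 1 * eSeq (α + K) γ n) := by
        rw [Algebra.smul_def, Nat.add_sub_cancel]
        have e3 : (algebraMap ℝ (MvPolynomial (Option (Fin N)) ℝ)) 6 = 6 := map_ofNat _ 6
        rw [e3]
        ring
      rw [e1, map_smul, hseq 1 n, smul_eq_mul, Finset.mul_sum]
      apply Finset.sum_congr rfl
      rintro ⟨i, j⟩ _
      simp only
      rw [Finset.mul_sum]
      apply Finset.sum_congr rfl
      intro k _
      simp only [hF2]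
      rw [if_neg (Nat.succ_ne_zero _), Nat.add_sub_cancel]
  rw [hE1, hE2, j11_reindex n (Fk 0), j11_reindex n F2, ← Finset.sum_add_distrib]
  unfold Sr
  apply Finset.sum_congr rfl
  intro k _
  rw [← Finset.sum_add_distrib, Finset.mul_sum]
  apply Finset.sum_congr rfl
  intro s _
  simp only [hFk, hF2]
  rcases s with _ | s
  · rw [if_pos rfl]
    have e1 : ∀ a : ℝ, bin a 0 = 1 := fun a => rfl
    rw [e1, e1]
    simp
  · rw [if_neg (Nat.succ_ne_zero s), Nat.add_sub_cancel]
    have e1 := hpascal (-3 * k - N / 2) s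
    rw [show (-3 * (k:ℝ) - N / 2 + 1) = 1 - N / 2 - 3 * k by ring] at e1
    rw [e1, show 0 + (s + 1) = s + 1 by ring, show 1 + s = s + 1 by ring]
    ring



end J11

end ChrRoots
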