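import Pool.Agent.Helper809.Cub.Defs

set_option autoImplicit false

namespace ChrRoots

open Polynomial

namespace J13


theorem rel_symm' {V : Type} (f : CP V) {u v : V} (h : rel f u v) : rel f v u := by
  obtain ⟨i, hi⟩ := h
  refine ⟨(f.1 (u, i)).2, ?_⟩
  have h1 : (v, (f.1 (u, i)).2) = f.1 (u, i) := by rw [← hi]
  rw [h1, f.2.1]

theorem col_split {V : Type} [DecidableEq V] (S : Finset V) (r : V → V → Prop)
    (r1 : {x // x ∈ S} → {x // x ∈ S} → Prop) (r2 : {x // x ∉ S} → {x // x ∉ S} → Prop)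
    (h1 : ∀ u v, r1 u v ↔ r u.1 v.1) (h2 : ∀ u v, r2 u v ↔ r u.1 v.1)
    (hc : ∀ u v, r u v → (u ∈ S ↔ v ∈ S)) (N : ℕ) : col r N = col r1 N * col r2 N := by
  unfold col
  rw [← Nat.card_prod]
  refine Nat.card_congr
    { toFun := fun σ => (⟨fun s => σ.1 s.1, fun u v h => σ.2 _ _ ((h1 u v).1 h)⟩,
        ⟨fun s => σ.1 s.1, fun u v h => σ.2 _ _ ((h2 u v).1 h)⟩)
      invFun := fun σ => ⟨fun v => if h : v ∈ S then σ.1.1 ⟨v, h⟩ else σ.2.1 ⟨v, h⟩, ?_⟩
      left_inv := ?_
      right_inv := ?_ }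
  · intro u v huv
    by_cases hu : u ∈ S
    · have hv := (hc u v huv).1 hu
      simp only [hu, hv, dif_pos]
      exact σ.1.2 _ _ ((h1 ⟨u, hu⟩ ⟨v, hv⟩).2 huv)
    · have hv : v ∉ S := fun hv => hu ((hc u v huv).2 hv)
      simp only [hu, hv, dif_neg, not_false_eq_true]
      exact σ.2.2 _ _ ((h2 ⟨u, hu⟩ ⟨v, hv⟩).2 huv)
  · intro σ
    apply Subtype.ext
    funext v
    by_cases hv : v ∈ S
    · simp [hv]
    · simp [hv]
  · intro σ
    apply Prod.ext
    · apply Subtype.ext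
      funext s
      have := s.2
      simp [this]
    · apply Subtype.ext
      funext s
      have := s.2
      simp [this]

/-- two pairings on complementary sets give a pairing -/
def glueF {V : Type} [DecidableEq V] (S : Finset V) (g : CP {x // x ∈ S}) (g' : CP {x // x ∉ S}) :
    V × Fin 3 → V × Fin 3 := fun x =>
  if h : x.1 ∈ S then ((g.1 (⟨x.1, h⟩, x.2)).1.1, (g.1 (⟨x.1, h⟩, x.2)).2)
  else ((g'.1 (⟨x.1, h⟩, x.2)).1.1, (g'.1 (⟨x.1, h⟩, x.2)).2)

theorem glueF_in {V : Type} [DecidableEq V] (S : Finset V) (g : CP {x // x ∈ S})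
    (g' : CP {x // x ∉ S}) (s : {x // x ∈ S}) (i : Fin 3) :
    glueF S g g' (s.1, i) = ((g.1 (s, i)).1.1, (g.1 (s, i)).2) := by
  unfold glueF
  simp only [s.2, dif_pos]

theorem glueF_out {V : Type} [DecidableEq V] (S : Finset V) (g : CP {x // x ∈ S})
    (g' : CP {x // x ∉ S}) (s : {x // x ∉ S}) (i : Fin 3) :
    glueF S g g' (s.1, i) = ((g'.1 (s, i)).1.1, (g'.1 (s, i)).2) := by
  unfold glueF
  have hs := s.2
  simp only [hs, dif_neg, not_false_eq_true]

theorem glueF_pm {V : Type} [DecidableEq V] (S : Finset V) (g : CP {x // x ∈ S})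
    (g' : CP {x // x ∉ S}) : IsPM (glueF S g g') := by
  constructor
  · rintro ⟨v, i⟩
    by_cases hv : v ∈ S
    · rw [glueF_in S g g' ⟨v, hv⟩ i, glueF_in]
      have h1 : g.1 ((g.1 (⟨v, hv⟩, i)).1, (g.1 (⟨v, hv⟩, i)).2) = (⟨v, hv⟩, i) := g.2.1 _
      rw [h1]
    · rw [glueF_out S g g' ⟨v, hv⟩ i, glueF_out]
      have h1 : g'.1 ((g'.1 (⟨v, hv⟩, i)).1, (g'.1 (⟨v, hv⟩, i)).2) = (⟨v, hv⟩, i) := g'.2.1 _
      rw [h1]
  · rintro ⟨v, i⟩ h
    by_cases hv : v ∈ S
    · rw [glueF_in S g g' ⟨v, hv⟩ i] at h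
      apply g.2.2 (⟨v, hv⟩, i)
      rw [Prod.ext_iff] at h ⊢
      exact ⟨Subtype.ext h.1, h.2⟩
    · rw [glueF_out S g g' ⟨v, hv⟩ i] at h
      apply g'.2.2 (⟨v, hv⟩, i)
      rw [Prod.ext_iff] at h ⊢
      exact ⟨Subtype.ext h.1, h.2⟩

/-- restriction of a pairing to an invariant set -/
def resF {V : Type} (p : V → Prop) (f : CP V) (h : ∀ u v, rel f u v → p u → p v) :
    CP {x // p x} :=
  ⟨fun x => (⟨(f.1 (x.1.1, x.2)).1, h _ _ ⟨x.2, rfl⟩ x.1.2⟩, (f.1 (x.1.1, x.2)).2), by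
    constructor
    · rintro ⟨v, i⟩
      have h1 : f.1 ((f.1 (v.1, i)).1, (f.1 (v.1, i)).2) = (v.1, i) := f.2.1 _
      apply Prod.ext
      · apply Subtype.ext
        exact congrArg Prod.fst h1
      · show (f.1 ((f.1 (v.1, i)).1, (f.1 (v.1, i)).2)).2 = i
        rw [h1]
    · rintro ⟨v, i⟩ h2
      apply f.2.2 (v.1, i)
      rw [Prod.ext_iff] at h2 ⊢
      exact ⟨congrArg Subtype.val h2.1, h2.2⟩⟩

theorem rel_resF {V : Type} (p : V → Prop) (f : CP V) (h : ∀ u v, rel f u v → p u → p v)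
    (u v : {x // p x}) : rel (resF p f h) u v ↔ rel f u.1 v.1 := by
  constructor
  · rintro ⟨i, hi⟩
    exact ⟨i, congrArg Subtype.val hi⟩
  · rintro ⟨i, hi⟩
    exact ⟨i, Subtype.ext hi⟩

theorem rel_glue_in {V : Type} [DecidableEq V] (S : Finset V) (g : CP {x // x ∈ S})
    (g' : CP {x // x ∉ S}) (u v : {x // x ∈ S}) :
    rel g u v ↔ rel (⟨glueF S g g', glueF_pm S g g'⟩ : CP V) u.1 v.1 := by
  constructor
  · rintro ⟨i, hi⟩
    refine ⟨i, ?_⟩
    show (glueF S g g' (u.1, i)).1 = v.1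
    rw [glueF_in, hi]
  · rintro ⟨i, hi⟩
    refine ⟨i, ?_⟩
    have h1 : (glueF S g g' (u.1, i)).1 = v.1 := hi
    rw [glueF_in] at h1
    exact Subtype.ext h1

theorem rel_glue_out {V : Type} [DecidableEq V] (S : Finset V) (g : CP {x // x ∈ S})
    (g' : CP {x // x ∉ S}) (u v : {x // x ∉ S}) :
    rel g' u v ↔ rel (⟨glueF S g g', glueF_pm S g g'⟩ : CP V) u.1 v.1 := by
  constructor
  · rintro ⟨i, hi⟩
    refine ⟨i, ?_⟩
    show (glueF S g g' (u.1, i)).1 = v.1
    rw [glueF_out, hi]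
  · rintro ⟨i, hi⟩
    refine ⟨i, ?_⟩
    have h1 : (glueF S g g' (u.1, i)).1 = v.1 := hi
    rw [glueF_out] at h1
    exact Subtype.ext h1

theorem rel_glue_cross {V : Type} [DecidableEq V] (S : Finset V) (g : CP {x // x ∈ S})
    (g' : CP {x // x ∉ S}) (u v : V)
    (h : rel (⟨glueF S g g', glueF_pm S g g'⟩ : CP V) u v) : u ∈ S ↔ v ∈ S := by
  obtain ⟨i, hi⟩ := h
  have h1 : (glueF S g g' (u, i)).1 = v := hi
  by_cases hu : u ∈ S
  · rw [glueF_in S g g' ⟨u, hu⟩ i] at h1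
    rw [← h1]
    exact ⟨fun _ => (g.1 (⟨u, hu⟩, i)).1.2, fun _ => hu⟩
  · rw [glueF_out S g g' ⟨u, hu⟩ i] at h1
    rw [← h1]
    exact ⟨fun h => absurd h hu, fun h => absurd h (g'.1 (⟨u, hu⟩, i)).1.2⟩

open Classical in
/-- the component of `v0` -/
noncomputable def compF {V : Type} [Fintype V] (v0 : V) (f : CP V) : Finset V :=
  Finset.univ.filter (fun u => Relation.ReflTransGen (rel f) v0 u)

theorem mem_compF {V : Type} [Fintype V] (v0 : V) (f : CP V) (u : V) :
    u ∈ compF v0 f ↔ Relation.ReflTransGen (rel f) v0 u := by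
  unfold compF
  simp

theorem compF_glue {V : Type} [Fintype V] [DecidableEq V] (v0 : V) (S : Finset V) (hv : v0 ∈ S)
    (g : CP {x // x ∈ S}) (g' : CP {x // x ∉ S}) (hg : Conn g) :
    compF v0 (⟨glueF S g g', glueF_pm S g g'⟩ : CP V) = S := by
  ext u
  rw [mem_compF]
  constructor
  · intro h
    induction h with
    | refl => exact hv
    | tail _ h2 ih => exact (rel_glue_cross S g g' _ _ h2).1 ih
  · intro hu
    have h1 := hg.2 ⟨v0, hv⟩ ⟨u, hu⟩
    exact h1.lift Subtype.val (fun a b hab => (rel_glue_in S g g' a b).1 hab)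

theorem decomp_aux (V : Type) [Fintype V] [DecidableEq V] (v0 : V)
    (hP : ∀ (W : Type) [Fintype W] (r : W → W → Prop) (N : ℕ), P r (N : ℝ) = col r N)
    (hpoly : ∀ (W : Type) [Fintype W] (r : W → W → Prop), IsPoly (P r))
    (heq : ∀ f g : ℝ → ℝ, IsPoly f → IsPoly g → (∀ N : ℕ, f N = g N) → ∀ x, f x = g x)
    (q : ℝ) :
    T V q = ∑ S ∈ (Finset.univ : Finset (Finset V)).filter (fun S => v0 ∈ S),
      C {x // x ∈ S} q * T {x // x ∉ S} q := by
  classical
  unfold T C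
  rw [← Finset.sum_fiberwise_of_maps_to (g := compF v0)
    (t := (Finset.univ : Finset (Finset V)).filter (fun S => v0 ∈ S))
    (fun f _ => by
      rw [Finset.mem_filter]
      exact ⟨Finset.mem_univ _, (mem_compF v0 f v0).2 Relation.ReflTransGen.refl⟩)]
  apply Finset.sum_congr rfl
  intro S hS
  have hv : v0 ∈ S := (Finset.mem_filter.1 hS).2
  rw [Finset.sum_mul_sum, ← Finset.sum_product']
  symm
  refine Finset.sum_bij (fun x _ => (⟨glueF S x.1 x.2, glueF_pm S x.1 x.2⟩ : CP V)) ?_ ?_ ?_ ?_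
  · rintro ⟨g, g'⟩ hg
    rw [Finset.mem_product, Finset.mem_filter] at hg
    rw [Finset.mem_filter]
    exact ⟨@Finset.mem_univ _ (_) _, compF_glue v0 S hv g g' hg.1.2⟩
  · rintro ⟨g, g'⟩ _ ⟨k, k'⟩ _ h
    have h1 : glueF S g g' = glueF S k k' := congrArg Subtype.val h
    apply Prod.ext
    · apply Subtype.ext
      funext ⟨s, i⟩
      have h2 := congrFun h1 (s.1, i)
      rw [glueF_in, glueF_in, Prod.ext_iff] at h2
      exact Prod.ext (Subtype.ext h2.1) h2.2
    · apply Subtype.ext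
      funext ⟨s, i⟩
      have h2 := congrFun h1 (s.1, i)
      rw [glueF_out, glueF_out, Prod.ext_iff] at h2
      exact Prod.ext (Subtype.ext h2.1) h2.2
  · intro f hf
    have hfS : compF v0 f = S := (Finset.mem_filter.1 hf).2
    have hin : ∀ u v, rel f u v → u ∈ S → v ∈ S := by
      intro u v huv hu
      rw [← hfS, mem_compF] at hu ⊢
      exact hu.tail huv
    have hout : ∀ u v, rel f u v → u ∉ S → v ∉ S := by
      intro u v huv hu hv'
      exact hu (hin v u (rel_symm' f huv) hv')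
    refine ⟨(resF (fun x => x ∈ S) f hin, resF (fun x => x ∉ S) f hout), ?_, ?_⟩
    · rw [Finset.mem_product, Finset.mem_filter]
      refine ⟨⟨@Finset.mem_univ _ (_) _, ⟨⟨v0, hv⟩⟩, ?_⟩, @Finset.mem_univ _ (_) _⟩
      have key : ∀ u, Relation.ReflTransGen (rel f) v0 u → ∀ hu : u ∈ S,
          Relation.ReflTransGen (rel (resF (fun x => x ∈ S) f hin)) ⟨v0, hv⟩ ⟨u, hu⟩ := by
        intro u h
        induction h with
        | refl => exact fun _ => Relation.ReflTransGen.refl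
        | @tail b c h1 h2 ih =>
          intro hu
          have hb : b ∈ S := by
            rw [← hfS, mem_compF]
            exact h1
          exact (ih hb).tail ((rel_resF _ f hin _ _).2 h2)
      intro u v
      have h1 := key u.1 ((mem_compF v0 f u.1).1 (by rw [hfS]; exact u.2)) u.2
      have h2 := key v.1 ((mem_compF v0 f v.1).1 (by rw [hfS]; exact v.2)) v.2
      have hback : ∀ a b : {x // x ∈ S}, Relation.ReflTransGen
          (rel (resF (fun x => x ∈ S) f hin)) a b → Relation.ReflTransGen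
          (rel (resF (fun x => x ∈ S) f hin)) b a := by
        intro a b h
        induction h with
        | refl => exact Relation.ReflTransGen.refl
        | tail _ h2 ih => exact Relation.ReflTransGen.head (rel_symm' _ h2) ih
      exact (hback _ _ h1).trans h2
    · apply Subtype.ext
      funext ⟨v, i⟩
      by_cases hv' : v ∈ S
      · exact glueF_in S (resF (fun x => x ∈ S) f hin) (resF (fun x => x ∉ S) f hout) ⟨v, hv'⟩ i
      · exact glueF_out S (resF (fun x => x ∈ S) f hin) (resF (fun x => x ∉ S) f hout) ⟨v, hv'⟩ i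
  · rintro ⟨g, g'⟩ _
    have h1 := heq (fun x => P (rel g) x * P (rel g') x)
      (fun x => P (rel (⟨glueF S g g', glueF_pm S g g'⟩ : CP V)) x) (by
        obtain ⟨p1, hp1⟩ := hpoly _ (rel g)
        obtain ⟨p2, hp2⟩ := hpoly _ (rel g')
        exact ⟨p1 * p2, fun x => by simp only [hp1, hp2, eval_mul]⟩) (hpoly _ _) (by
        intro N
        simp only [hP]
        rw [col_split S (rel (⟨glueF S g g', glueF_pm S g g'⟩ : CP V)) (rel g) (rel g')
          (rel_glue_in S g g') (rel_glue_out S g g') (rel_glue_cross S g g') N]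
        push_cast
        rfl) q
    exact h1



end J13

end ChrRoots
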