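import Pool.Agent.Helper809.Cub.Defs

set_option autoImplicit false

namespace ChrRoots

open Polynomial

namespace J14


theorem P_congr {V W : Type} [Fintype V] [Fintype W] (e : V ≃ W) (r : V → V → Prop)
    (s : W → W → Prop) (h : ∀ u v, r u v ↔ s (e u) (e v)) (q : ℝ) : P r q = P s q := by
  classical
  unfold P
  refine Finset.sum_equiv (Equiv.prodCongr e e).finsetCongr ?_ ?_
  · intro A
    rw [Finset.mem_powerset, Finset.mem_powerset]
    constructor
    · intro hA p hp
      rw [Equiv.finsetCongr_apply, Finset.mem_map] at hp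
      obtain ⟨a, ha, rfl⟩ := hp
      have := hA ha
      rw [Finset.mem_filter] at this ⊢
      exact ⟨Finset.mem_univ _, (h _ _).mp this.2⟩
    · intro hA p hp
      have h1 : (Equiv.prodCongr e e) p ∈ (Equiv.prodCongr e e).finsetCongr A := by
        rw [Equiv.finsetCongr_apply, Finset.mem_map]
        exact ⟨p, hp, rfl⟩
      have := hA h1
      rw [Finset.mem_filter] at this ⊢
      exact ⟨Finset.mem_univ _, (h _ _).mpr this.2⟩
  · intro A _
    have hc : ((Equiv.prodCongr e e).finsetCongr A).card = A.card := by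
      rw [Equiv.finsetCongr_apply, Finset.card_map]
    have hq : Nat.card (Quot (fun u v : V => (u, v) ∈ A)) =
        Nat.card (Quot (fun u v : W => (u, v) ∈ (Equiv.prodCongr e e).finsetCongr A)) := by
      apply Nat.card_congr
      refine Quot.congr e ?_
      intro a b
      rw [Equiv.finsetCongr_apply, Finset.mem_map]
      constructor
      · intro hab
        exact ⟨(a, b), hab, rfl⟩
      · rintro ⟨⟨a', b'⟩, hab, heq⟩
        have h2 : (Equiv.prodCongr e e) (a', b') = (Equiv.prodCongr e e) (a, b) := heq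
        rw [(Equiv.prodCongr e e).injective h2] at hab
        exact hab
    rw [hc, hq]

/-- the half edge equivalence -/
def CT_E {V W : Type} (e : V ≃ W) : V × Fin 3 ≃ W × Fin 3 := Equiv.prodCongr e (Equiv.refl (Fin 3))

theorem CT_isPM {V W : Type} (e : V ≃ W) (f : V × Fin 3 → V × Fin 3) :
    IsPM f ↔ IsPM ((Equiv.arrowCongr (CT_E e) (CT_E e)) f) := by
  have hap : ∀ x, (Equiv.arrowCongr (CT_E e) (CT_E e)) f x = CT_E e (f ((CT_E e).symm x)) :=
    fun x => rfl
  constructor
  · rintro ⟨h1, h2⟩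
    refine ⟨fun x => ?_, fun x => ?_⟩
    · rw [hap, hap, Equiv.symm_apply_apply, h1, Equiv.apply_symm_apply]
    · rw [hap]
      intro h
      apply h2 ((CT_E e).symm x)
      apply (CT_E e).injective
      rw [h, Equiv.apply_symm_apply]
  · rintro ⟨h1, h2⟩
    refine ⟨fun x => ?_, fun x => ?_⟩
    · have := h1 (CT_E e x)
      rw [hap, hap, Equiv.symm_apply_apply, Equiv.symm_apply_apply] at this
      exact (CT_E e).injective this
    · intro h
      apply h2 (CT_E e x)
      rw [hap, Equiv.symm_apply_apply, h]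

/-- transport of cubic pairings -/
def CT_cp {V W : Type} (e : V ≃ W) : CP V ≃ CP W :=
  (Equiv.arrowCongr (CT_E e) (CT_E e)).subtypeEquiv (CT_isPM e)

theorem CT_rel {V W : Type} (e : V ≃ W) (f : CP V) (u v : V) :
    rel f u v ↔ rel (CT_cp e f) (e u) (e v) := by
  have hap : ∀ i, ((CT_cp e f).1 (e u, i)).1 = e ((f.1 (u, i)).1) := by
    intro i
    have h1 : (CT_cp e f).1 (e u, i) = CT_E e (f.1 ((CT_E e).symm (e u, i))) := rfl
    have h2 : (CT_E e).symm (e u, i) = (u, i) := by
      rw [Equiv.symm_apply_eq]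
      rfl
    rw [h1, h2]
    rfl
  unfold rel
  constructor
  · rintro ⟨i, hi⟩
    exact ⟨i, by rw [hap, hi]⟩
  · rintro ⟨i, hi⟩
    rw [hap] at hi
    exact ⟨i, e.injective hi⟩

theorem CT_conn {V W : Type} (e : V ≃ W) (f : CP V) : Conn f ↔ Conn (CT_cp e f) := by
  unfold Conn
  constructor
  · rintro ⟨⟨v0⟩, h⟩
    refine ⟨⟨e v0⟩, fun u v => ?_⟩
    have h1 := Relation.ReflTransGen.lift (p := rel (CT_cp e f)) e
      (fun a b hab => (CT_rel e f a b).mp hab) _ _ (h (e.symm u) (e.symm v))
    change Relation.ReflTransGen (rel (CT_cp e f)) (e (e.symm u)) (e (e.symm v)) at h1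
    rwa [Equiv.apply_symm_apply, Equiv.apply_symm_apply] at h1
  · rintro ⟨⟨w0⟩, h⟩
    refine ⟨⟨e.symm w0⟩, fun u v => ?_⟩
    have h1 := Relation.ReflTransGen.lift (p := rel f) e.symm
      (fun a b hab => (CT_rel e f (e.symm a) (e.symm b)).mpr (by
        rwa [Equiv.apply_symm_apply, Equiv.apply_symm_apply])) _ _ (h (e u) (e v))
    change Relation.ReflTransGen (rel f) (e.symm (e u)) (e.symm (e v)) at h1
    rwa [Equiv.symm_apply_apply, Equiv.symm_apply_apply] at h1

theorem C_congr (V W : Type) [Fintype V] [Fintype W] (e : V ≃ W) (q : ℝ) :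
    C V q = C W q := by
  classical
  unfold C
  refine Finset.sum_equiv (CT_cp e) ?_ ?_
  · intro f
    rw [Finset.mem_filter, Finset.mem_filter]
    constructor
    · rintro ⟨_, h⟩
      exact ⟨Finset.mem_univ _, (CT_conn e f).mp h⟩
    · rintro ⟨_, h⟩
      exact ⟨Finset.mem_univ _, (CT_conn e f).mpr h⟩
  · intro f _
    exact P_congr e _ _ (CT_rel e f) q

theorem T_congr (V W : Type) [Fintype V] [Fintype W] (e : V ≃ W) (q : ℝ) :
    T V q = T W q := by
  classical
  unfold T
  exact Fintype.sum_equiv (CT_cp e) _ _ (fun f => P_congr e _ _ (CT_rel e f) q)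


end J14

end ChrRoots
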