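import Pool.Agent.Helper809.Cub.Defs

set_option autoImplicit false

namespace ChrRoots

open Polynomial

namespace J16


theorem pm_even_8144 {α : Type} [Fintype α] (f : α → α) (hf : IsPM f) : Even (Fintype.card α) := by
  classical
  have h1 : ∑ x ∈ (Finset.univ : Finset α), (1 : ZMod 2) = 0 := by
    refine Finset.sum_involution (fun a _ => f a) ?_ ?_ ?_ ?_
    · intro a _; decide
    · intro a _ _; exact hf.2 a
    · intro a _; exact Finset.mem_univ _
    · intro a _; exact hf.1 a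
  rw [Finset.sum_const, nsmul_eq_mul, mul_one, Finset.card_univ] at h1
  exact (ZMod.natCast_eq_zero_iff_even).1 h1

theorem T_odd_8144 (q : ℝ) (m : ℕ) (hm : ¬ Even (m * 3)) : T (Fin m) q = 0 := by
  classical
  unfold T
  haveI : IsEmpty (CP (Fin m)) := by
    refine ⟨fun f => hm ?_⟩
    have := pm_even_8144 f.1 f.2
    simpa using this
  exact Finset.sum_eq_zero (fun f _ => (IsEmpty.false f).elim)

theorem T_zero_8144 (q : ℝ) : T (Fin 0) q = 1 := by
  classical
  unfold T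
  haveI : Unique (CP (Fin 0)) :=
    { default := ⟨fun x => x, fun x => x.1.elim0, fun x => x.1.elim0⟩
      uniq := fun f => Subtype.ext (funext fun x => x.1.elim0) }
  rw [Fintype.sum_unique]
  unfold P
  have h1 : (Finset.univ.filter (fun e : Fin 0 × Fin 0 => rel (default : CP (Fin 0)) e.1 e.2)) = ∅ := by
    rw [Finset.eq_empty_iff_forall_notMem]
    intro e
    exact e.1.elim0
  rw [h1, Finset.powerset_empty, Finset.sum_singleton]
  have h2 : Nat.card (Quot (fun u v : Fin 0 => (u, v) ∈ (∅ : Finset (Fin 0 × Fin 0)))) = 0 := by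
    haveI : IsEmpty (Quot (fun u v : Fin 0 => (u, v) ∈ (∅ : Finset (Fin 0 × Fin 0)))) :=
      ⟨fun x => Quot.ind (β := fun _ => False) (fun a => a.elim0) x⟩
    exact Nat.card_of_isEmpty
  rw [h2]
  simp

theorem exists_conn_aux (q : ℝ) (n : ℕ)
    (hrec : ∀ n : ℕ, T (Fin (n + 1)) q = ∑ k ∈ Finset.range (n + 1),
      (n.choose k : ℝ) * C (Fin (k + 1)) q * T (Fin (n - k)) q)
    (hn : T (Fin n) q < 0)
    (h4 : 0 ≤ T (Fin 4) q - 3 * T (Fin 2) q ^ 2) :
    ∃ k, k ≠ 4 ∧ ∃ f : CP (Fin k), Conn f ∧ P (rel f) q < 0 := by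
  classical
  have hex : ∃ n, T (Fin n) q < 0 := ⟨n, hn⟩
  have hT0 := T_zero_8144 q
  have hT1 : T (Fin 1) q = 0 := T_odd_8144 q 1 (by decide)
  have hT3 : T (Fin 3) q = 0 := T_odd_8144 q 3 (by decide)
  obtain ⟨n0, hn0, hmin⟩ : ∃ n0, T (Fin n0) q < 0 ∧ ∀ m < n0, 0 ≤ T (Fin m) q := by
    refine ⟨Nat.find hex, Nat.find_spec hex, fun m hm => ?_⟩
    exact not_lt.1 (Nat.find_min hex hm)
  obtain ⟨n', rfl⟩ : ∃ n', n0 = n' + 1 := by
    rcases n0 with _ | n'
    · rw [hT0] at hn0; linarith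
    · exact ⟨n', rfl⟩
  rw [hrec n'] at hn0
  have hk : ∃ k ∈ Finset.range (n' + 1), C (Fin (k + 1)) q < 0 := by
    by_contra h
    push Not at h
    refine absurd hn0 (not_lt.2 (Finset.sum_nonneg fun k hk => ?_))
    have h1 := h k hk
    have h2 := hmin (n' - k) (by omega)
    exact mul_nonneg (mul_nonneg (Nat.cast_nonneg _) h1) h2
  obtain ⟨k, -, hCk⟩ := hk
  have hC4 : 0 ≤ C (Fin 4) q := by
    have r1 : T (Fin 2) q = C (Fin 2) q := by
      have r := hrec 1
      rw [Finset.sum_range_succ, Finset.sum_range_one] at r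
      have a1 : T (Fin (1 - 0)) q = 0 := hT1
      have a2 : T (Fin (1 - 1)) q = 1 := hT0
      rw [a1, a2] at r
      have r' : T (Fin 2) q = ((Nat.choose 1 0 : ℕ) : ℝ) * C (Fin (0 + 1)) q * 0 +
        ((Nat.choose 1 1 : ℕ) : ℝ) * C (Fin 2) q * 1 := r
      rw [r']
      simp
    have r3 : T (Fin 4) q = 3 * C (Fin 2) q * T (Fin 2) q + C (Fin 4) q := by
      have r := hrec 3
      rw [Finset.sum_range_succ, Finset.sum_range_succ, Finset.sum_range_succ,
        Finset.sum_range_one] at r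
      have a1 : T (Fin (3 - 0)) q = 0 := hT3
      have a2 : T (Fin (3 - 1)) q = T (Fin 2) q := rfl
      have a3 : T (Fin (3 - 2)) q = 0 := hT1
      have a4 : T (Fin (3 - 3)) q = 1 := hT0
      rw [a1, a2, a3, a4] at r
      have r' : T (Fin 4) q = ((Nat.choose 3 0 : ℕ) : ℝ) * C (Fin (0 + 1)) q * 0 +
        ((Nat.choose 3 1 : ℕ) : ℝ) * C (Fin 2) q * T (Fin 2) q +
        ((Nat.choose 3 2 : ℕ) : ℝ) * C (Fin (2 + 1)) q * 0 +
        ((Nat.choose 3 3 : ℕ) : ℝ) * C (Fin 4) q * 1 := r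
      rw [r']
      have b1 : Nat.choose 3 1 = 3 := rfl
      have b2 : Nat.choose 3 3 = 1 := rfl
      rw [b1, b2]
      push_cast
      ring
    rw [r3, ← r1] at h4
    linarith [h4, sq (T (Fin 2) q)]
  refine ⟨k + 1, ?_, ?_⟩
  · intro h
    have h5 : k = 3 := by omega
    subst h5
    exact absurd hCk (not_lt.2 hC4)
  · by_contra h
    push Not at h
    refine absurd hCk (not_lt.2 ?_)
    unfold C
    refine Finset.sum_nonneg fun f hf => ?_
    rw [Finset.mem_filter] at hf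
    exact h f hf.2



end J16

end ChrRoots
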