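import Pool.Agent.Helper809.Cub.Defs

set_option autoImplicit false

namespace ChrRoots

open Polynomial

namespace J17


theorem graph_of_pairing_aux (k : ℕ)
    (hP : ∀ (W : Type) [Fintype W] (r : W → W → Prop) (N : ℕ), P r (N : ℝ) = col r N)
    (hpoly : ∀ (W : Type) [Fintype W] (r : W → W → Prop), IsPoly (P r))
    (heq : ∀ f g : ℝ → ℝ, IsPoly f → IsPoly g → (∀ N : ℕ, f N = g N) → ∀ x, f x = g x)
    (f : CP (Fin k)) (hf : Conn f) (q : ℝ) (h : P (rel f) q < 0) :
    ∃ G : SimpleGraph (Fin k), G.Connected ∧ (∀ v, Nat.card (G.neighborSet v) ≤ 3) ∧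
      P G.Adj q < 0 := by
  have hirr : ∀ u, ¬ rel f u u := by
    intro u hu
    have hcol : ∀ N : ℕ, col (rel f) N = 0 := by
      intro N
      unfold col
      rw [Nat.card_eq_zero]
      left
      exact ⟨fun σ => σ.2 u u hu rfl⟩
    have h0 := heq (P (rel f)) (fun _ => 0) (hpoly _ _) ⟨0, by simp⟩
      (fun N => by rw [hP, hcol]; simp) q
    rw [h0] at h
    exact lt_irrefl _ h
  have hsymm : ∀ u v, rel f u v → rel f v u := by
    rintro u v ⟨i, hi⟩
    refine ⟨(f.1 (u, i)).2, ?_⟩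
    have e : (v, (f.1 (u, i)).2) = f.1 (u, i) := by rw [← hi]
    rw [e, f.2.1]
  let G : SimpleGraph (Fin k) := SimpleGraph.fromRel (rel f)
  have hG : G.Adj = rel f := by
    funext u v
    simp only [G, SimpleGraph.fromRel_adj, eq_iff_iff]
    constructor
    · rintro ⟨_, h1 | h1⟩
      · exact h1
      · exact hsymm _ _ h1
    · intro h1
      refine ⟨?_, Or.inl h1⟩
      rintro rfl
      exact hirr _ h1
  refine ⟨G, ?_, ?_, ?_⟩
  · haveI := hf.1
    refine SimpleGraph.Connected.mk ?_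
    intro u v
    rw [SimpleGraph.reachable_iff_reflTransGen, hG]
    exact hf.2 u v
  · intro v
    have hs : Function.Surjective (fun i : Fin 3 => (⟨(f.1 (v, i)).1, by
        rw [SimpleGraph.mem_neighborSet, hG]; exact ⟨i, rfl⟩⟩ : G.neighborSet v)) := by
      rintro ⟨w, hw⟩
      have hw' := hw
      rw [SimpleGraph.mem_neighborSet, hG] at hw'
      obtain ⟨i, hi⟩ := hw'
      exact ⟨i, Subtype.ext hi⟩
    have := Nat.card_le_card_of_surjective _ hs
    rwa [Nat.card_fin] at this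
  · rw [hG]; exact h

theorem root_of_neg_aux {V : Type} [Fintype V] (r : V → V → Prop)
    (hP : ∀ N : ℕ, P r (N : ℝ) = col r N) (hpoly : IsPoly (P r))
    (h : P r (29 / 10) < 0) :
    ∃ x : ℝ, 29 / 10 < x ∧ x ≤ 3 ∧ P r x = 0 := by
  obtain ⟨p, hp⟩ := hpoly
  have h3 : 0 ≤ P r 3 := by
    have := hP 3
    norm_num at this
    rw [this]
    positivity
  have hcont : ContinuousOn (P r) (Set.Icc (29 / 10) 3) := by
    have : P r = fun x => p.eval x := funext hp
    rw [this]
    exact p.continuous.continuousOn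
  have := intermediate_value_Icc (by norm_num : (29 / 10 : ℝ) ≤ 3) hcont ⟨h.le, h3⟩
  obtain ⟨x, ⟨hx1, hx2⟩, hx⟩ := this
  refine ⟨x, lt_of_le_of_ne hx1 ?_, hx2, hx⟩
  rintro rfl
  rw [hx] at h
  exact lt_irrefl _ h


end J17

end ChrRoots
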