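import Pool.Agent.Helper809.Cub.Defs

set_option autoImplicit false

namespace ChrRoots

open Polynomial

namespace J19


/-- the graph `K₄` with a subdivided edge, subdividing vertex `0` -/
def g8HA (i j : Fin 5) : Prop :=
  (i, j) ∈ ([(0, 1), (1, 0), (0, 2), (2, 0), (1, 3), (3, 1), (1, 4), (4, 1), (2, 3), (3, 2), (2, 4),
    (4, 2), (3, 4), (4, 3)] : List (Fin 5 × Fin 5))

instance : DecidableRel g8HA := fun i j => by unfold g8HA; infer_instance

/-- attach the gadget to a relation at the vertex `w` -/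
def g8gad {W : Type} (r : W → W → Prop) (w : W) : W ⊕ Fin 5 → W ⊕ Fin 5 → Prop
  | Sum.inl a, Sum.inl b => r a b
  | Sum.inl a, Sum.inr i => a = w ∧ i = 0
  | Sum.inr i, Sum.inl a => a = w ∧ i = 0
  | Sum.inr i, Sum.inr j => g8HA i j

/-- colourings of the gadget whose attaching vertex avoids the colour `a` -/
def g8S {N : ℕ} (a : Fin N) : Type :=
  {τ : Fin 5 → Fin N // (∀ i j, g8HA i j → τ i ≠ τ j) ∧ τ 0 ≠ a}

def g8swap {N : ℕ} (a b : Fin N) : g8S a ≃ g8S b where
  toFun τ := ⟨fun i => Equiv.swap a b (τ.1 i), fun i j h e => τ.2.1 i j h ((Equiv.swap a b).injective e),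
    fun e => τ.2.2 (by
      have := congrArg (Equiv.swap a b) e
      rwa [Equiv.swap_apply_self, Equiv.swap_apply_right] at this)⟩
  invFun τ := ⟨fun i => Equiv.swap a b (τ.1 i), fun i j h e => τ.2.1 i j h ((Equiv.swap a b).injective e),
    fun e => τ.2.2 (by
      have := congrArg (Equiv.swap a b) e
      rwa [Equiv.swap_apply_self, Equiv.swap_apply_left] at this)⟩
  left_inv τ := Subtype.ext (funext fun i => Equiv.swap_apply_self _ _ _)
  right_inv τ := Subtype.ext (funext fun i => Equiv.swap_apply_self _ _ _)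

def g8split {W : Type} (r : W → W → Prop) (w : W) (N : ℕ) :
    {ρ : W ⊕ Fin 5 → Fin N // ∀ u v, g8gad r w u v → ρ u ≠ ρ v} ≃
      (Σ σ : {σ : W → Fin N // ∀ u v, r u v → σ u ≠ σ v}, g8S (σ.1 w)) where
  toFun ρ := ⟨⟨fun a => ρ.1 (Sum.inl a), fun u v h => ρ.2 (Sum.inl u) (Sum.inl v) h⟩,
    ⟨fun i => ρ.1 (Sum.inr i), fun i j h => ρ.2 (Sum.inr i) (Sum.inr j) h,
      ρ.2 (Sum.inr 0) (Sum.inl w) ⟨rfl, rfl⟩⟩⟩
  invFun p := ⟨Sum.elim p.1.1 p.2.1, by
    rintro (a | i) (b | j) h
    · exact p.1.2 a b h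
    · obtain ⟨rfl, rfl⟩ := h
      exact fun e => p.2.2.2 e.symm
    · obtain ⟨rfl, rfl⟩ := h
      exact p.2.2.2
    · exact p.2.2.1 i j h⟩
  left_inv ρ := by
    apply Subtype.ext
    funext x
    rcases x with a | i <;> rfl
  right_inv p := rfl

theorem g8col {W : Type} (r : W → W → Prop) (w : W) (N : ℕ) (a0 : Fin N) :
    col (g8gad r w) N = col r N * Nat.card (g8S a0) := by
  unfold col
  rw [Nat.card_congr ((g8split r w N).trans
    ((Equiv.sigmaCongrRight
      (fun σ : {σ : W → Fin N // ∀ u v, r u v → σ u ≠ σ v} => g8swap (σ.1 w) a0)).trans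
      (Equiv.sigmaEquivProd _ _))),
    Nat.card_prod]

theorem g8colUnit (N : ℕ) : col (fun _ _ : Unit => False) N = N := by
  unfold col
  have e : {σ : Unit → Fin N // ∀ u v : Unit, False → σ u ≠ σ v} ≃ Fin N :=
    { toFun := fun σ => σ.1 ()
      invFun := fun a => ⟨fun _ => a, fun _ _ h => h.elim⟩
      left_inv := fun σ => Subtype.ext (funext fun u => rfl)
      right_inv := fun a => rfl }
  rw [Nat.card_congr e, Nat.card_fin]

theorem g8zero {W : Type} (r : W → W → Prop) (w : W) : col (g8gad r w) 0 = 0 := by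
  unfold col
  have : IsEmpty {σ : W ⊕ Fin 5 → Fin 0 // ∀ u v, g8gad r w u v → σ u ≠ σ v} :=
    ⟨fun σ => (σ.1 (Sum.inl w)).elim0⟩
  exact Nat.card_of_isEmpty

theorem g8main {W : Type} (r : W → W → Prop) (w : W) (N : ℕ) :
    N * col (g8gad r w) N = col r N * col (g8gad (fun _ _ : Unit => False) ()) N := by
  rcases Nat.eq_zero_or_pos N with rfl | hN
  · rw [g8zero (fun _ _ : Unit => False) ()]; simp
  · rw [g8col r w N ⟨0, hN⟩, g8col (fun _ _ : Unit => False) () N ⟨0, hN⟩, g8colUnit]
    ring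

theorem g8deg : ∀ i : Fin 5, Nat.card {j : Fin 5 // g8HA i j} = if i = 0 then 2 else 3 := by
  intro i
  rw [Nat.card_eq_fintype_card]
  revert i
  decide

/-- the graph with the gadget -/
def g8G {V : Type} (G : SimpleGraph V) (v : V) : SimpleGraph (V ⊕ Fin 5) where
  Adj := g8gad G.Adj v
  symm := by
    refine ⟨?_⟩
    rintro (a | i) (b | j) h
    · exact (G.adj_comm a b).1 h
    · exact h
    · exact h
    · revert i j
      show ∀ i j : Fin 5, g8HA i j → g8HA j i
      decide
  loopless := by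
    refine ⟨?_⟩
    rintro (a | i) h
    · exact G.loopless.irrefl a h
    · revert i
      show ∀ i : Fin 5, g8HA i i → False
      decide

theorem gadget_aux (V : Type) [Fintype V] [DecidableEq V] (G : SimpleGraph V)
    (hP : ∀ (W : Type) [Fintype W] (r : W → W → Prop) (N : ℕ), P r (N : ℝ) = col r N)
    (hpoly : ∀ (W : Type) [Fintype W] (r : W → W → Prop), IsPoly (P r))
    (heq : ∀ f g : ℝ → ℝ, IsPoly f → IsPoly g → (∀ N : ℕ, f N = g N) → ∀ x, f x = g x)
    (hc : G.Connected) (v : V) (x : ℝ) (hx : x ≠ 0) (hroot : P G.Adj x = 0) :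
    ∃ G' : SimpleGraph (V ⊕ Fin 5), G'.Connected ∧
      (∀ w, Nat.card (G'.neighborSet (Sum.inl w)) =
        Nat.card (G.neighborSet w) + (if w = v then 1 else 0)) ∧
      (∀ i, Nat.card (G'.neighborSet (Sum.inr i)) = 3) ∧ P G'.Adj x = 0 := by
  refine ⟨g8G G v, ?_, ?_, ?_, ?_⟩
  · -- connectivity
    have hinl : ∀ w, (g8G G v).Reachable (Sum.inl v) (Sum.inl w) := by
      intro w
      have h1 : G.Reachable v w := hc.preconnected v w
      let φ : G →g g8G G v := ⟨Sum.inl, fun h => h⟩
      exact h1.map φ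
    have a0 : (g8G G v).Adj (Sum.inl v) (Sum.inr 0) := ⟨rfl, rfl⟩
    have a1 : (g8G G v).Adj (Sum.inr 0) (Sum.inr 1) := by show g8HA 0 1; decide
    have a2 : (g8G G v).Adj (Sum.inr 0) (Sum.inr 2) := by show g8HA 0 2; decide
    have a3 : (g8G G v).Adj (Sum.inr 1) (Sum.inr 3) := by show g8HA 1 3; decide
    have a4 : (g8G G v).Adj (Sum.inr 1) (Sum.inr 4) := by show g8HA 1 4; decide
    have r0 := a0.reachable
    have r1 := r0.trans a1.reachable
    have hinr : ∀ i : Fin 5, (g8G G v).Reachable (Sum.inl v) (Sum.inr i) := by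
      intro i
      fin_cases i
      · exact r0
      · exact r1
      · exact r0.trans a2.reachable
      · exact r1.trans a3.reachable
      · exact r1.trans a4.reachable
    have hall : ∀ x, (g8G G v).Reachable (Sum.inl v) x := by
      rintro (w | i)
      · exact hinl w
      · exact hinr i
    have : Nonempty (V ⊕ Fin 5) := ⟨Sum.inl v⟩
    exact ⟨fun x y => (hall x).symm.trans (hall y)⟩
  · intro w
    have e1 : Nat.card ((g8G G v).neighborSet (Sum.inl w))
        = Nat.card (G.neighborSet w) + Nat.card {i : Fin 5 // w = v ∧ i = 0} := by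
      rw [← Nat.card_sum]
      exact Nat.card_congr (Equiv.subtypeSum (p := fun x => (g8G G v).Adj (Sum.inl w) x))
    rw [e1]
    congr 1
    split_ifs with hw
    · subst hw
      have : Unique {i : Fin 5 // w = w ∧ i = 0} :=
        { default := ⟨0, rfl, rfl⟩, uniq := fun x => Subtype.ext x.2.2 }
      exact Nat.card_unique
    · have : IsEmpty {i : Fin 5 // w = v ∧ i = 0} := ⟨fun x => hw x.2.1⟩
      exact Nat.card_of_isEmpty
  · intro i
    have e1 : Nat.card ((g8G G v).neighborSet (Sum.inr i))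
        = Nat.card {a : V // a = v ∧ i = 0} + Nat.card {j : Fin 5 // g8HA i j} := by
      rw [← Nat.card_sum]
      exact Nat.card_congr (Equiv.subtypeSum (p := fun x => (g8G G v).Adj (Sum.inr i) x))
    have e2 : Nat.card {j : Fin 5 // g8HA i j} = if i = 0 then 2 else 3 := g8deg i
    have e3 : Nat.card {a : V // a = v ∧ i = 0} = if i = 0 then 1 else 0 := by
      split_ifs with hi
      · subst hi
        have : Unique {a : V // a = v ∧ (0 : Fin 5) = 0} :=
          { default := ⟨v, rfl, rfl⟩, uniq := fun x => Subtype.ext x.2.1 }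
        exact Nat.card_unique
      · have : IsEmpty {a : V // a = v ∧ i = 0} := ⟨fun x => hi x.2.2⟩
        exact Nat.card_of_isEmpty
    rw [e1, e2, e3]
    split_ifs <;> rfl
  · have h1 := heq (fun x => x * P (g8G G v).Adj x)
      (fun x => P G.Adj x * P (g8gad (fun _ _ : Unit => False) ()) x)
      (by
        obtain ⟨p, hp⟩ := hpoly (V ⊕ Fin 5) (g8G G v).Adj
        exact ⟨X * p, fun x => by rw [eval_mul, eval_X, ← hp]⟩)
      (by
        obtain ⟨p, hp⟩ := hpoly V G.Adj
        obtain ⟨q, hq⟩ := hpoly (Unit ⊕ Fin 5) (g8gad (fun _ _ : Unit => False) ())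
        exact ⟨p * q, fun x => by rw [eval_mul, ← hp, ← hq]⟩)
      (by
        intro N
        rw [hP, hP, hP]
        exact_mod_cast g8main G.Adj v N) x
    rw [hroot, zero_mul] at h1
    exact (mul_eq_zero.1 h1).resolve_left hx



end J19

end ChrRoots
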