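import Pool.Agent.Helper809.Cub.Defs

set_option autoImplicit false

namespace ChrRoots

open Polynomial

namespace J20


theorem make_cubic_aux
    (hcongr : ∀ (V W : Type) [Fintype V] [Fintype W] (e : V ≃ W) (r : V → V → Prop)
      (s : W → W → Prop), (∀ u v, r u v ↔ s (e u) (e v)) → ∀ q : ℝ, P r q = P s q)
    (hgadget : ∀ (V : Type) [Fintype V] [DecidableEq V] (G : SimpleGraph V),
      G.Connected → ∀ (v : V) (x : ℝ), x ≠ 0 → P G.Adj x = 0 →
      ∃ G' : SimpleGraph (V ⊕ Fin 5), G'.Connected ∧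
        (∀ w, Nat.card (G'.neighborSet (Sum.inl w)) =
          Nat.card (G.neighborSet w) + (if w = v then 1 else 0)) ∧
        (∀ i, Nat.card (G'.neighborSet (Sum.inr i)) = 3) ∧ P G'.Adj x = 0)
    (n : ℕ) (G : SimpleGraph (Fin n)) (hc : G.Connected)
    (hd : ∀ v, Nat.card (G.neighborSet v) ≤ 3) (hn : n ≠ 4) (x : ℝ) (hx : x ≠ 0)
    (hroot : P G.Adj x = 0) :
    ∃ (m : ℕ) (G' : SimpleGraph (Fin m)), m ≠ 4 ∧ G'.Connected ∧
      (∀ v, Nat.card (G'.neighborSet v) = 3) ∧ P G'.Adj x = 0 := by
  obtain ⟨d, hdd⟩ : ∃ d, ∑ v : Fin n, (3 - Nat.card (G.neighborSet v)) = d := ⟨_, rfl⟩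
  induction d generalizing n G with
  | zero =>
    refine ⟨n, G, hn, hc, ?_, hroot⟩
    intro v
    have h1 := (Finset.sum_eq_zero_iff.1 hdd) v (Finset.mem_univ v)
    have h2 := hd v
    omega
  | succ d ih =>
    obtain ⟨v, hv⟩ : ∃ v, Nat.card (G.neighborSet v) < 3 := by
      by_contra hcon
      push Not at hcon
      have h1 : ∑ v : Fin n, (3 - Nat.card (G.neighborSet v)) = 0 := by
        refine Finset.sum_eq_zero fun v _ => ?_
        have := hcon v
        omega
      omega
    obtain ⟨G', g1, g2, g3, g4⟩ := hgadget (Fin n) G hc v x hx hroot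
    set e : Fin n ⊕ Fin 5 ≃ Fin (n + 5) := finSumFinEquiv with he
    set G2 : SimpleGraph (Fin (n + 5)) := G'.comap e.symm with hG2
    have iso : G2 ≃g G' := SimpleGraph.Iso.comap e.symm G'
    have hiso : ∀ a, Nat.card (G2.neighborSet a) = Nat.card (G'.neighborSet (e.symm a)) := by
      intro a
      exact Nat.card_congr ((SimpleGraph.Iso.comap e.symm G').mapNeighborSet a)
    have hdeg : ∀ b : Fin n ⊕ Fin 5, Nat.card (G'.neighborSet b) ≤ 3 := by
      rintro (w | i)
      · rw [g2 w]
        by_cases hw : w = v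
        · rw [if_pos hw, hw]
          omega
        · rw [if_neg hw]
          exact hd w
      · rw [g3 i]
    have hsum : ∑ a : Fin (n + 5), (3 - Nat.card (G2.neighborSet a)) = d := by
      have h1 : ∑ a : Fin (n + 5), (3 - Nat.card (G2.neighborSet a)) =
          ∑ b : Fin n ⊕ Fin 5, (3 - Nat.card (G'.neighborSet b)) := by
        rw [← Equiv.sum_comp e.symm]
        exact Finset.sum_congr rfl fun a _ => by rw [hiso]
      rw [h1, Fintype.sum_sum_type]
      have h2 : ∑ i : Fin 5, (3 - Nat.card (G'.neighborSet (Sum.inr i))) = 0 :=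
        Finset.sum_eq_zero fun i _ => by rw [g3 i]; rfl
      rw [h2, add_zero]
      have h3 : ∑ w : Fin n, (3 - Nat.card (G.neighborSet w)) =
          ∑ w : Fin n, (3 - Nat.card (G'.neighborSet (Sum.inl w))) +
            ∑ w : Fin n, (if w = v then 1 else 0) := by
        rw [← Finset.sum_add_distrib]
        refine Finset.sum_congr rfl fun w _ => ?_
        rw [g2 w]
        by_cases hw : w = v
        · rw [if_pos hw, hw]
          omega
        · rw [if_neg hw]
          omega
      rw [Finset.sum_ite_eq' Finset.univ v (fun _ => 1), if_pos (Finset.mem_univ v)] at h3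
      omega
    refine ih (n + 5) G2 ?_ ?_ (by omega) ?_ hsum
    · exact iso.connected_iff.2 g1
    · intro a
      rw [hiso]
      exact hdeg _
    · rw [← hcongr (Fin n ⊕ Fin 5) (Fin (n + 5)) e G'.Adj G2.Adj (fun u v => by
        rw [hG2, SimpleGraph.comap_adj, Equiv.symm_apply_apply, Equiv.symm_apply_apply]) x]
      exact g4



end J20

end ChrRoots
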