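import Pool.Agent.Helper809.Cub.Defs

set_option autoImplicit false

namespace ChrRoots

open Polynomial

namespace J21


/-- the colourings of `K33`, split by the colours of the left side -/
def k33Equiv (N : ℕ) :
    {σ : Fin 3 ⊕ Fin 3 → Fin N //
      ∀ u v, (completeBipartiteGraph (Fin 3) (Fin 3)).Adj u v → σ u ≠ σ v} ≃
    (Σ p : Fin N × Fin N × Fin N, (Fin 3 → {y : Fin N // y ≠ p.1 ∧ y ≠ p.2.1 ∧ y ≠ p.2.2})) where
  toFun σ := ⟨(σ.1 (Sum.inl 0), σ.1 (Sum.inl 1), σ.1 (Sum.inl 2)),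
    fun j => ⟨σ.1 (Sum.inr j), σ.2 _ _ (by simp), σ.2 _ _ (by simp), σ.2 _ _ (by simp)⟩⟩
  invFun q := ⟨Sum.elim ![q.1.1, q.1.2.1, q.1.2.2] (fun j => (q.2 j).1), by
    rintro (u | u) (v | v) h
    · simp at h
    · fin_cases u
      · exact (q.2 v).2.1.symm
      · exact (q.2 v).2.2.1.symm
      · exact (q.2 v).2.2.2.symm
    · fin_cases v
      · exact (q.2 u).2.1
      · exact (q.2 u).2.2.1
      · exact (q.2 u).2.2.2
    · simp at h⟩
  left_inv σ := by
    apply Subtype.ext
    funext u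
    rcases u with u | u
    · fin_cases u <;> rfl
    · rfl
  right_inv q := by
    rcases q with ⟨⟨a, b, c⟩, g⟩
    rfl

theorem k33_cnt (N : ℕ) (a b c : Fin N) :
    (Fintype.card {y : Fin N // y ≠ a ∧ y ≠ b ∧ y ≠ c} : ℝ) =
      (N : ℝ) - 3 + (if a = b then 1 else 0) + (if a = c then 1 else 0) + (if b = c then 1 else 0)
        - (if a = b then 1 else 0) * (if a = c then 1 else 0) := by
  rw [Fintype.card_subtype, Finset.card_filter]
  push_cast
  have h : ∀ y : Fin N, (if y ≠ a ∧ y ≠ b ∧ y ≠ c then (1 : ℝ) else 0) =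
      1 - (if y = a then 1 else 0) - (if y = b then 1 else 0) - (if y = c then 1 else 0)
      + (if y = a then (if a = b then 1 else 0) else 0)
      + (if y = a then (if a = c then 1 else 0) else 0)
      + (if y = b then (if b = c then 1 else 0) else 0)
      - (if y = a then (if a = b then 1 else 0) * (if a = c then 1 else 0) else 0) := by
    intro y
    by_cases h1 : y = a
    · subst h1
      by_cases h2 : y = b
      · subst h2
        by_cases h3 : y = c <;> simp [h3]
      · by_cases h3 : y = c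
        · subst h3
          simp [h2]
        · simp [h2, h3]
    · by_cases h2 : y = b
      · subst h2
        by_cases h3 : y = c
        · subst h3
          simp [h1]
        · simp [h1, h3]
      · by_cases h3 : y = c
        · subst h3
          simp [h1, h2]
        · simp [h1, h2, h3]
  rw [Finset.sum_congr rfl fun y _ => h y]
  simp only [Finset.sum_add_distrib, Finset.sum_sub_distrib, Finset.sum_ite_eq',
    Finset.mem_univ, if_true, Finset.sum_const, Finset.card_univ, Fintype.card_fin,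
    nsmul_eq_mul, mul_one]
  ring

theorem k33_col (N : ℕ) : (col (completeBipartiteGraph (Fin 3) (Fin 3)).Adj N : ℝ) =
      (N : ℝ) * (N - 1) * ((N : ℝ) ^ 4 - 8 * (N : ℝ) ^ 3 + 28 * (N : ℝ) ^ 2 - 47 * N + 31) := by
  unfold col
  rw [Nat.card_congr (k33Equiv N), Nat.card_eq_fintype_card, Fintype.card_sigma]
  simp only [Fintype.card_fun, Fintype.card_fin]
  push_cast
  rw [Fintype.sum_prod_type]
  simp_rw [Fintype.sum_prod_type]
  have h : ∀ a b c : Fin N, (Fintype.card {y : Fin N // y ≠ a ∧ y ≠ b ∧ y ≠ c} : ℝ) ^ 3 =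
      ((N : ℝ) - 3) ^ 3 + (if a = b then ((N : ℝ) - 2) ^ 3 - ((N : ℝ) - 3) ^ 3 else 0)
      + (if a = c then ((N : ℝ) - 2) ^ 3 - ((N : ℝ) - 3) ^ 3 else 0)
      + (if b = c then ((N : ℝ) - 2) ^ 3 - ((N : ℝ) - 3) ^ 3 else 0)
      + (if a = b then (if a = c then (((N : ℝ) - 1) ^ 3 - 3 * ((N : ℝ) - 2) ^ 3
        + 2 * ((N : ℝ) - 3) ^ 3) else 0) else 0) := by
    intro a b c
    rw [k33_cnt]
    by_cases h1 : a = b
    · subst h1
      by_cases h2 : a = c
      · subst h2
        simp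
        ring
      · simp [h2]
        ring
    · by_cases h2 : a = c
      · subst h2
        have h3 : ¬ b = a := fun h => h1 h.symm
        simp [h1, h3]
        ring
      · by_cases h3 : b = c
        · subst h3
          simp [h1]
          ring
        · simp [h1, h2, h3]
  simp_rw [h]
  simp only [Finset.sum_add_distrib, Finset.sum_ite_eq, Finset.sum_ite_eq',
    Finset.mem_univ, if_true, Finset.sum_const, Finset.card_univ, Fintype.card_fin,
    nsmul_eq_mul, mul_one]
  have h2 : ∀ a : Fin N, (∑ b : Fin N, (N : ℝ) * (if a = b then ((N : ℝ) - 2) ^ 3 - ((N : ℝ) - 3) ^ 3 else 0)) = N * (((N : ℝ) - 2) ^ 3 - ((N : ℝ) - 3) ^ 3) := by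
    intro a
    rw [← Finset.mul_sum]
    simp
  simp_rw [h2]
  simp
  ring

theorem P_K33_aux
    (hP : ∀ (W : Type) [Fintype W] (r : W → W → Prop) (N : ℕ), P r (N : ℝ) = col r N)
    (hpoly : ∀ (W : Type) [Fintype W] (r : W → W → Prop), IsPoly (P r))
    (heq : ∀ f g : ℝ → ℝ, IsPoly f → IsPoly g → (∀ N : ℕ, f N = g N) → ∀ x, f x = g x)
    (x : ℝ) :
    P (completeBipartiteGraph (Fin 3) (Fin 3)).Adj x =
      x * (x - 1) * (x ^ 4 - 8 * x ^ 3 + 28 * x ^ 2 - 47 * x + 31) := by
  refine heq (P (completeBipartiteGraph (Fin 3) (Fin 3)).Adj)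
    (fun x => x * (x - 1) * (x ^ 4 - 8 * x ^ 3 + 28 * x ^ 2 - 47 * x + 31))
    (hpoly _ _) ⟨X * (X - 1) * (X ^ 4 - 8 * X ^ 3 + 28 * X ^ 2 - 47 * X + 31), fun x => ?_⟩
    (fun N => ?_) x
  · simp
  · rw [hP, k33_col]


end J21

end ChrRoots
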