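import Pool.Agent.Helper809.Cub.Defs

set_option autoImplicit false

namespace ChrRoots

open Polynomial

namespace J22


lemma h399_quartic_pos (x : ℝ) : 0 < x ^ 4 - 8 * x ^ 3 + 28 * x ^ 2 - 47 * x + 31 := by
  nlinarith [sq_nonneg (x ^ 2 - 4 * x + 24 / 5), sq_nonneg (x - 43 / 24)]

lemma h399_bound (a b : ℝ) (hb : b ≠ 0)
    (hre : (a ^ 4 - 6 * a ^ 2 * b ^ 2 + b ^ 4) - 8 * (a ^ 3 - 3 * a * b ^ 2) +
      28 * (a ^ 2 - b ^ 2) - 47 * a + 31 = 0)
    (him : (4 * a ^ 3 * b - 4 * a * b ^ 3) - 8 * (3 * a ^ 2 * b - b ^ 3) +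
      28 * (2 * a * b) - 47 * b = 0) : a ^ 2 + b ^ 2 < 841 / 100 := by
  have E1 : 4 * a ^ 3 - 4 * a * b ^ 2 - 24 * a ^ 2 + 8 * b ^ 2 + 56 * a - 47 = 0 := by
    have : b * (4 * a ^ 3 - 4 * a * b ^ 2 - 24 * a ^ 2 + 8 * b ^ 2 + 56 * a - 47) = 0 := by
      linear_combination him
    rcases mul_eq_zero.1 this with h | h
    · exact absurd h hb
    · exact h
  obtain ⟨t, ht⟩ : ∃ t, t = 2 * a - 4 := ⟨_, rfl⟩
  obtain ⟨m, hm⟩ : ∃ m, m = a ^ 2 + b ^ 2 := ⟨_, rfl⟩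
  have ha : a = (t + 4) / 2 := by linarith
  have hb2 : b ^ 2 = m - ((t + 4) / 2) ^ 2 := by rw [hm, ha]; ring
  have F1 : 2 * t * m = t ^ 3 + 4 * t ^ 2 + 12 * t + 1 := by
    have e : 4 * a ^ 3 - 4 * a * b ^ 2 - 24 * a ^ 2 + 8 * b ^ 2 + 56 * a - 47 =
        t ^ 3 + 4 * t ^ 2 + 12 * t + 1 - 2 * t * m := by
      rw [hb2, ha]; ring
    linarith [E1, e]
  have F2 : m ^ 2 - (t ^ 2 + 12) * m + 31 = 0 := by
    have e : (a ^ 4 - 6 * a ^ 2 * b ^ 2 + b ^ 4) - 8 * (a ^ 3 - 3 * a * b ^ 2) +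
      28 * (a ^ 2 - b ^ 2) - 47 * a + 31 -
      a * (4 * a ^ 3 - 4 * a * b ^ 2 - 24 * a ^ 2 + 8 * b ^ 2 + 56 * a - 47) =
        m ^ 2 - (t ^ 2 + 12) * m + 31 := by
      have e4 : b ^ 4 = (b ^ 2) ^ 2 := by ring
      rw [e4, hb2, ha]; ring
    rw [hre, E1, mul_zero, sub_zero] at e
    exact e.symm
  have G : (t ^ 2) ^ 3 + 8 * (t ^ 2) ^ 2 + 12 * t ^ 2 - 1 = 0 := by
    have e : 4 * t ^ 2 * (m ^ 2 - (t ^ 2 + 12) * m + 31) = (2 * t * m) ^ 2 -
      2 * t * (t ^ 2 + 12) * (2 * t * m) + 124 * t ^ 2 := by ring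
    rw [F2, F1] at e
    linear_combination e
  rw [← hm]
  have hT0 : 0 ≤ t ^ 2 := sq_nonneg t
  set T := t ^ 2 with hTdef
  have hT : T < 9 / 100 := by
    by_contra hcon
    push Not at hcon
    have h3 : 0 ≤ T ^ 3 := by positivity
    have h2 : 0 ≤ T ^ 2 := by positivity
    linarith
  by_contra hcon
  push Not at hcon
  have hm0 : 0 < m := by linarith
  have h5 : m ^ 2 - (1209 / 100) * m + 31 < 0 := by
    have : T * m < 9 / 100 * m := mul_lt_mul_of_pos_right hT hm0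
    linarith
  nlinarith [mul_nonneg (sub_nonneg.2 hcon) (by linarith : (0:ℝ) ≤ m - 368 / 100)]

theorem K33_root_bound (z : ℂ)
    (hz : z * (z - 1) * (z ^ 4 - 8 * z ^ 3 + 28 * z ^ 2 - 47 * z + 31) = 0) :
    ‖z‖ < 29 / 10 := by
  rcases mul_eq_zero.1 hz with h | h
  · rcases mul_eq_zero.1 h with h | h
    · rw [h, norm_zero]; norm_num
    · rw [sub_eq_zero.1 h, norm_one]; norm_num
  · have h1 : (z.re ^ 4 - 6 * z.re ^ 2 * z.im ^ 2 + z.im ^ 4) -
        8 * (z.re ^ 3 - 3 * z.re * z.im ^ 2) +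
        28 * (z.re ^ 2 - z.im ^ 2) - 47 * z.re + 31 = 0 := by
      have := congrArg Complex.re h
      simp only [pow_succ, pow_zero, one_mul, Complex.add_re, Complex.sub_re, Complex.mul_re,
        Complex.mul_im, Complex.re_ofNat, Complex.im_ofNat, Complex.zero_re] at this
      linear_combination this
    have h2 : (4 * z.re ^ 3 * z.im - 4 * z.re * z.im ^ 3) -
        8 * (3 * z.re ^ 2 * z.im - z.im ^ 3) +
        28 * (2 * z.re * z.im) - 47 * z.im = 0 := by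
      have := congrArg Complex.im h
      simp only [pow_succ, pow_zero, one_mul, Complex.add_im, Complex.sub_im, Complex.mul_re,
        Complex.mul_im, Complex.re_ofNat, Complex.im_ofNat, Complex.zero_im] at this
      linear_combination this
    have hb : z.im ≠ 0 := by
      intro hb
      rw [hb] at h1
      have h3 := h399_quartic_pos z.re
      have h4 : z.re ^ 4 - 8 * z.re ^ 3 + 28 * z.re ^ 2 - 47 * z.re + 31 = 0 := by
        linear_combination h1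
      linarith
    have h5 := h399_bound z.re z.im hb h1 h2
    have h6 : ‖z‖ ^ 2 = z.re ^ 2 + z.im ^ 2 := by
      rw [Complex.sq_norm, Complex.normSq_apply]; ring
    have h7 : ‖z‖ ^ 2 < (29 / 10) ^ 2 := by
      rw [h6]; norm_num; linarith
    exact lt_of_pow_lt_pow_left₀ 2 (by norm_num) h7

theorem K33_pos (x : ℝ) (hx : 29 / 10 < x) :
    0 < x * (x - 1) * (x ^ 4 - 8 * x ^ 3 + 28 * x ^ 2 - 47 * x + 31) := by
  refine mul_pos (mul_pos (by linarith) (by linarith)) (h399_quartic_pos x)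



end J22

end ChrRoots
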