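import Pool.Agent.Helper809.Cub.NumDefs

set_option autoImplicit false

namespace ChrRoots

open Polynomial

namespace Num

namespace K2




theorem dot_spec (l k L : ℕ) (ds bs : List ℕ) (d b : ℕ → ℝ)
    (hd : ds.map (Nat.cast : ℕ → ℝ) = ((List.range l).map d).reverse)
    (hb : bs.map (Nat.cast : ℕ → ℝ) = (List.range' k L).map b) (hL : l ≤ L) :
    (dot ds bs : ℝ) = ∑ t ∈ Finset.range l, b (k + t) * d (l - 1 - t) := by
  induction l generalizing k L ds bs with
  | zero =>
    have h1 : ds = [] := by simpa using hd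
    subst h1
    show ((0 : ℕ) : ℝ) = _
    simp
  | succ l ih =>
    obtain ⟨L', rfl⟩ : ∃ L', L = L' + 1 := ⟨L - 1, by omega⟩
    rw [List.range_succ, List.map_append, List.reverse_append] at hd
    rw [List.range'_succ] at hb
    cases ds with
    | nil => simp at hd
    | cons d0 ds' =>
      cases bs with
      | nil => simp at hb
      | cons b0 bs' =>
        rw [List.map_cons, List.map_cons] at hb
        have hb1 := (List.cons.inj hb).1
        have hb2 := (List.cons.inj hb).2
        rw [List.map_cons] at hd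
        have hd1 : (d0 : ℝ) = d l := (List.cons.inj hd).1
        have hd2 : ds'.map (Nat.cast : ℕ → ℝ) = ((List.range l).map d).reverse :=
          (List.cons.inj hd).2
        have hih := ih (k + 1) L' ds' bs' hd2 hb2 (by omega)
        have hdot : dot (d0 :: ds') (b0 :: bs') = b0 * d0 + dot ds' bs' := rfl
        rw [hdot, Nat.cast_add, Nat.cast_mul, hih, hb1, hd1, Finset.sum_range_succ']
        rw [add_comm]
        congr 1
        apply Finset.sum_congr rfl
        intro t _
        congr 2
        · omega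
        · omega

theorem dh_rec (n : ℕ) : 10 * ((n : ℝ) + 1) * dh (n + 1) =
    ∑ t ∈ Finset.range (n + 1), (39 * ((t : ℝ) + 1) - 10 * ((n : ℝ) + 1)) * bh (t + 1) * dh (n - t) := by
  have hn : ((n : ℝ) + 1) ≠ 0 := by positivity
  have h1 : dd (29 / 10) (n + 1) = (∑ t ∈ Finset.range (n + 1),
      (29 / 10 * ((t : ℝ) + 1) - ((n : ℝ) - t)) * bet (t + 1) * dd (29 / 10) (n - t)) /
        ((n : ℝ) + 1) := by
    rw [dd]
    congr 1
    exact Fin.sum_univ_eq_sum_range
      (fun t => (29 / 10 * ((t : ℝ) + 1) - ((n : ℝ) - t)) * bet (t + 1) * dd (29 / 10) (n - t))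
      (n + 1)
  have h2 : dh (n + 1) = (-800) ^ (n + 1) * dd (29 / 10) (n + 1) := rfl
  rw [h2, h1]
  have h3 : 10 * ((n : ℝ) + 1) * ((-800) ^ (n + 1) * ((∑ t ∈ Finset.range (n + 1),
      (29 / 10 * ((t : ℝ) + 1) - ((n : ℝ) - t)) * bet (t + 1) * dd (29 / 10) (n - t)) /
        ((n : ℝ) + 1))) = (10 * (-800) ^ (n + 1)) * ∑ t ∈ Finset.range (n + 1),
      (29 / 10 * ((t : ℝ) + 1) - ((n : ℝ) - t)) * bet (t + 1) * dd (29 / 10) (n - t) := by
    field_simp
  rw [h3, Finset.mul_sum]
  apply Finset.sum_congr rfl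
  intro t ht
  have ht' : t ≤ n := by
    have := Finset.mem_range.1 ht
    omega
  have h4 : bh (t + 1) = (-800) ^ (t + 1) * bet (t + 1) := rfl
  have h5 : dh (n - t) = (-800) ^ (n - t) * dd (29 / 10) (n - t) := rfl
  have h6 : ((-800 : ℝ)) ^ (n + 1) = (-800) ^ (t + 1) * (-800) ^ (n - t) := by
    rw [← pow_add]
    congr 1
    omega
  rw [h4, h5, h6]
  ring

theorem dchk_spec (bs ds : List ℕ) (n : ℕ)
    (hkb : ∀ (k : ℕ) (f : ℕ → ℝ),
      bs.map (Nat.cast : ℕ → ℝ) = (List.range' k bs.length).map f →
      (kb bs k).map (Nat.cast : ℕ → ℝ) = (List.range' k bs.length).map (fun t : ℕ => (t : ℝ) * f t))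
    (hbs : bs.map (Nat.cast : ℕ → ℝ) = (List.range' 1 bs.length).map bh) (hn : n ≤ bs.length)
    (h : dchk bs (kb bs 1) n ds = true) :
    ds.map (Nat.cast : ℕ → ℝ) = ((List.range (n + 1)).map dh).reverse := by
  have hk := hkb 1 bh hbs
  induction n generalizing ds with
  | zero =>
    have hd0 : dh 0 = 1 := by
      unfold dh
      rw [dd]
      norm_num
    cases ds with
    | nil => exact absurd h (by simp [dchk])
    | cons x ds' =>
      cases ds' with
      | nil =>
        have h1 : and (Nat.beq x 1) true = true := h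
        rw [Bool.and_true] at h1
        have hx : x = 1 := Nat.eq_of_beq_eq_true h1
        subst hx
        simp [hd0]
      | cons y ds'' =>
        have h1 : and (Nat.beq x 1) false = true := h
        rw [Bool.and_false] at h1
        exact absurd h1 (by simp)
  | succ n ih =>
    cases ds with
    | nil => exact absurd h (by simp [dchk])
    | cons x ds' =>
      have h1 : and (dchk bs (kb bs 1) n ds') (Nat.beq (Nat.mul (Nat.mul 10 (Nat.succ n))
        (Nat.add x (dot ds' bs))) (Nat.mul 39 (dot ds' (kb bs 1)))) = true := h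
      rw [Bool.and_eq_true] at h1
      obtain ⟨h2, h3⟩ := h1
      have hih := ih ds' (by omega) h2
      have h4 : (10 * (n + 1)) * (x + dot ds' bs) = 39 * dot ds' (kb bs 1) :=
        Nat.eq_of_beq_eq_true h3
      have s1 := dot_spec (n + 1) 1 bs.length ds' bs dh bh hih hbs (by omega)
      have s2 := dot_spec (n + 1) 1 bs.length ds' (kb bs 1) dh (fun t : ℕ => (t : ℝ) * bh t)
        hih hk (by omega)
      have h5 : (10 * ((n : ℝ) + 1)) * (x + (dot ds' bs : ℝ)) = 39 * (dot ds' (kb bs 1) : ℝ) := by
        exact_mod_cast h4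
      have h6 := dh_rec n
      have h7 : ∑ t ∈ Finset.range (n + 1), (39 * ((t : ℝ) + 1) - 10 * ((n : ℝ) + 1)) *
          bh (t + 1) * dh (n - t) = 39 * (dot ds' (kb bs 1) : ℝ) -
            10 * ((n : ℝ) + 1) * (dot ds' bs : ℝ) := by
        rw [s1, s2, Finset.mul_sum, Finset.mul_sum, ← Finset.sum_sub_distrib]
        apply Finset.sum_congr rfl
        intro t _
        have e1 : n + 1 - 1 - t = n - t := by omega
        have e2 : 1 + t = t + 1 := by omega
        rw [e1, e2]
        push_cast
        ring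
      rw [h7] at h6
      have hn : (10 * ((n : ℝ) + 1)) ≠ 0 := by positivity
      have h8 : (10 * ((n : ℝ) + 1)) * x = (10 * ((n : ℝ) + 1)) * dh (n + 1) := by
        rw [h6]
        linarith
      have h9 : (x : ℝ) = dh (n + 1) := mul_left_cancel₀ hn h8
      rw [List.map_cons, h9, hih, List.range_succ (n := n + 1), List.map_append,
        List.reverse_append]
      rfl



end K2

end Num

end ChrRoots
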