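import Pool.Agent.Helper809.Cub.NumDefs

set_option autoImplicit false

namespace ChrRoots

open Polynomial

namespace Num

namespace K7





theorem Rm_zero (m : ℕ) : Rm m 0 = 1 := by
  simp [Rm, Ym, mu, mom]

theorem bin_prod (k : ℝ) (s : ℕ) :
    (-10) ^ s * s.factorial * (bin (1 - (29 / 10) / 2 - 3 * k) s * 6 ^ s) =
      ∏ t ∈ Finset.range s, (27 + 180 * k + 60 * (t : ℝ)) := by
  induction s with
  | zero => simp [bin]
  | succ s ih =>
    rw [Finset.prod_range_succ, ← ih, bin, Nat.factorial_succ]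
    have h : ((s : ℝ) + 1) ≠ 0 := by positivity
    push_cast
    field_simp
    ring

theorem inner_eq (m l : ℕ) :
    Rm m l = 100 ^ l * (2 * l).factorial * ∑ s ∈ Finset.range (2 * l + 1),
      bin (1 - (29 / 10) / 2 - 3 * ((m : ℝ) - l)) s * 6 ^ s * mu (29 / 10) s (2 * l - s) := by
  unfold Rm
  rw [← Finset.sum_flip, Finset.mul_sum]
  refine Finset.sum_congr rfl fun s hs => ?_
  have hs' : s ≤ 2 * l := Nat.lt_succ_iff.1 (Finset.mem_range.1 hs)
  rw [Nat.sub_sub_self hs', Nat.choose_symm hs', Ym, Nat.sub_sub_self hs', ← bin_prod]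
  have h1 : ((2 * l).choose s : ℝ) * s.factorial * (2 * l - s).factorial = (2 * l).factorial := by
    exact_mod_cast Nat.choose_mul_factorial_mul_factorial hs'
  have h2 : ((-10 : ℝ)) ^ (2 * l - s) * (-10) ^ s = 100 ^ l := by
    rw [← pow_add, Nat.sub_add_cancel hs', pow_mul]
    norm_num
  rw [← h1, ← h2]
  ring

theorem Vm_closed (m j : ℕ) :
    Vm m j = ∑ l ∈ Finset.range (j + 1), (-1) ^ (j - l) * 8 ^ l * Rm m l * dh (m - l) *
      ((2 * j).factorial / (2 * l).factorial) := by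
  induction j with
  | zero => simp [Vm, Rm_zero]
  | succ j ih =>
    rw [Finset.sum_range_succ, Vm, ih, Nat.sub_self]
    have hf : ((2 * (j + 1)).factorial : ℝ) ≠ 0 := by positivity
    rw [div_self hf, Finset.mul_sum, pow_zero, one_mul, mul_one]
    have h : ∀ l ∈ Finset.range (j + 1), (-1 : ℝ) ^ (j + 1 - l) * 8 ^ l * Rm m l * dh (m - l) *
        ((2 * (j + 1)).factorial / (2 * l).factorial) =
        - (2 * ((j : ℝ) + 1) * (2 * (j + 1) - 1) * ((-1) ^ (j - l) * 8 ^ l * Rm m l * dh (m - l) *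
      ((2 * j).factorial / (2 * l).factorial))) := by
      intro l hl
      have hl' : l ≤ j := Nat.lt_succ_iff.1 (Finset.mem_range.1 hl)
      rw [Nat.succ_sub hl', pow_succ, show 2 * (j + 1) = (2 * j + 1) + 1 by ring,
        Nat.factorial_succ, Nat.factorial_succ]
      push_cast
      ring
    rw [Finset.sum_congr rfl h, Finset.sum_neg_distrib]
    push_cast
    ring

theorem Vm_eq (m : ℕ) :
    Vm m m = 8 ^ m * 100 ^ m * (2 * m).factorial * Sr (29 / 10) (2 * m) := by
  rw [Vm_closed, Sr, Nat.mul_div_cancel_left m (by norm_num : 0 < 2), ← Finset.sum_flip (n := m)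
    (f := fun k => dd (29 / 10) k * ∑ s ∈ Finset.range (2 * m - 2 * k + 1),
      bin (1 - (29 / 10) / 2 - 3 * (k : ℝ)) s * 6 ^ s * mu (29 / 10) s (2 * m - 2 * k - s)),
    Finset.mul_sum]
  refine Finset.sum_congr rfl fun l hl => ?_
  have hl' : l ≤ m := Nat.lt_succ_iff.1 (Finset.mem_range.1 hl)
  have h1 : 2 * m - 2 * (m - l) = 2 * l := by omega
  rw [h1, Nat.cast_sub hl', inner_eq, dh]
  have h2 : (8 : ℝ) ^ m * 100 ^ m = 8 ^ l * 100 ^ l * ((-1) ^ (m - l) * (-800) ^ (m - l)) := by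
    rw [← mul_pow (-1 : ℝ), ← mul_pow, ← mul_pow]
    norm_num
    rw [← pow_add, Nat.add_sub_cancel' hl']
  rw [h2]
  have hf : ((2 * l).factorial : ℝ) ≠ 0 := by positivity
  field_simp


end K7

end Num

end ChrRoots
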