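import Pool.Agent.Helper809.Cub.K1
import Pool.Agent.Helper809.Cub.K2
import Pool.Agent.Helper809.Cub.K3
import Pool.Agent.Helper809.Cub.K4
import Pool.Agent.Helper809.Cub.K5
import Pool.Agent.Helper809.Cub.K6
import Pool.Agent.Helper809.Cub.K7

set_option autoImplicit false

namespace ChrRoots

namespace Num

theorem check330 : check 330 = true := by decide +kernel

theorem neg_of_check2 (m : ℕ) (bs ds : List ℕ) (hl : bs.length = m)
    (h : check2 m bs ds = true) : Sr (29 / 10) (2 * m) < 0 := by
  have h' : (bchk bs 0 1 && (dchk bs (kb bs 1) m ds && start m ds)) = true := h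
  rw [Bool.and_eq_true, Bool.and_eq_true] at h'
  obtain ⟨h1, h2, h3⟩ := h'
  have hbs := K1.bchk_spec bs h1
  have hds := K2.dchk_spec bs ds m (fun k f hf => K1.kb_spec bs k f hf) hbs hl.ge h2
  have hV := K6.start_spec m ds
    (fun j row hj hrow => K4.rowF_spec j hj row (fun i hi => K3.Ym_rec j i hi) (K3.Ym_last j)
      (K3.Ym_top j hj) hrow)
    (fun j row new hj hjm hrow hnew => K5.horner_spec m j hj hjm row new (K3.Ym_top j hj) hrow hnew)
    K3.Ym_one_zero K3.Ym_one_one hds h3
  rw [K7.Vm_eq] at hV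
  by_contra hcon
  push Not at hcon
  have : (0 : ℝ) ≤ 8 ^ m * 100 ^ m * (2 * m).factorial * Sr (29 / 10) (2 * m) := by positivity
  linarith

end Num

theorem Sr_neg : Sr (29 / 10) 660 < 0 :=
  Num.neg_of_check2 330 _ _ (Num.K1.blist_length 330 0 1) Num.check330

end ChrRoots
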