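import Pool.Agent.Helper809.Cub.J01
import Pool.Agent.Helper809.Cub.J02
import Pool.Agent.Helper809.Cub.J03
import Pool.Agent.Helper809.Cub.J04
import Pool.Agent.Helper809.Cub.J05
import Pool.Agent.Helper809.Cub.J06
import Pool.Agent.Helper809.Cub.J07
import Pool.Agent.Helper809.Cub.J08
import Pool.Agent.Helper809.Cub.J09
import Pool.Agent.Helper809.Cub.J10
import Pool.Agent.Helper809.Cub.J11
import Pool.Agent.Helper809.Cub.J13
import Pool.Agent.Helper809.Cub.J14
import Pool.Agent.Helper809.Cub.J15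
import Pool.Agent.Helper809.Cub.J16
import Pool.Agent.Helper809.Cub.J17
import Pool.Agent.Helper809.Cub.J19
import Pool.Agent.Helper809.Cub.J20
import Pool.Agent.Helper809.Cub.J21
import Pool.Agent.Helper809.Cub.J22
import Pool.Agent.Helper809.Cub.J24
import Pool.Agent.Helper809.Cub.NumFinal

set_option autoImplicit false

namespace ChrRoots

open Polynomial

theorem P_nat (V : Type) [Fintype V] (r : V → V → Prop) (N : ℕ) :
    P r (N : ℝ) = col r N := J01.P_nat r N

theorem wick (N : ℕ) {H : Type} [Fintype H] (c : H → Fin N) :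
    (Nat.card {f : H → H // IsPM f ∧ ∀ x, c (f x) ≠ c x} : ℝ) =
      EE N (∏ x, (MvPolynomial.X none + MvPolynomial.X (some (c x)))) :=
  J04.wick_aux N (EE N) (J03.EE_one N) (J03.EE_ibp N) c

theorem T_nat (V : Type) [Fintype V] (N : ℕ) :
    T V (N : ℝ) = EE N ((∑ a : Fin N,
      (MvPolynomial.X none + MvPolynomial.X (some a)) ^ 3) ^ (Fintype.card V)) :=
  J05.T_nat_aux V N (fun r => J01.P_nat r N) (fun c => wick N c)

theorem sites (N r j : ℕ) :
    EE N (MvPolynomial.X none ^ r * (∑ a : Fin N,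
      (3 * MvPolynomial.X none * MvPolynomial.X (some a) ^ 2 +
        MvPolynomial.X (some a) ^ 3)) ^ j) =
      j.factorial * ∑ k ∈ Finset.range (j / 2 + 1),
        dd N k * bin (-3 * k - N / 2) (j - 2 * k) * 6 ^ (j - 2 * k) *
          mom 1 (r + (j - 2 * k)) := by
  have h := J10.sites_aux N J08.bin_add J08.one_site J08.mom_odd J09.dd_succ
    (fun i p hp m => J03.EE_indep N i p hp m) (J03.EE_hpow N) Finset.univ r j
  rw [Finset.card_univ, Fintype.card_fin] at h
  exact h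

theorem EE_G (N n : ℕ) :
    EE N ((∑ a : Fin N, (MvPolynomial.X none + MvPolynomial.X (some a)) ^ 3) ^ n) =
      n.factorial * Sr N n :=
  J11.EE_G_aux N n J06.eSeq_mul J06.eSeq_zero
    (fun D L x G c hx hL hG hE n =>
      J07.change_var_aux J06.eSeq_mul J06.eSeq_zero D (EE N) L x G c hx hL hG hE n)
    (J03.EE_ibp N) (J03.EE_hpow N) J08.bin_pascal (sites N)

theorem T_eq (V : Type) [Fintype V] (q : ℝ) :
    T V q = (Fintype.card V).factorial * Sr q (Fintype.card V) := by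
  obtain ⟨p, hp⟩ := isPoly_Sr (Fintype.card V)
  refine IsPoly.eq_of_nat (f := T V)
    (g := fun q => (Fintype.card V).factorial * Sr q (Fintype.card V)) (isPoly_T V)
    ⟨Polynomial.C ((Fintype.card V).factorial : ℝ) * p, fun x => ?_⟩ (fun N => ?_) q
  · rw [Polynomial.eval_mul, Polynomial.eval_C, ← hp x]
  · rw [T_nat, EE_G]

theorem T_rec (n : ℕ) (q : ℝ) :
    T (Fin (n + 1)) q = ∑ k ∈ Finset.range (n + 1),
      (n.choose k : ℝ) * C (Fin (k + 1)) q * T (Fin (n - k)) q :=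
  J15.T_rec_aux n q (fun V W _ _ e => J14.C_congr V W e q) (fun V W _ _ e => J14.T_congr V W e q)
    (J13.decomp_aux (Fin (n + 1)) 0 (fun W _ r N => J01.P_nat r N) (fun W _ r => isPoly_P r)
      (fun f g hf hg h x => hf.eq_of_nat hg h x) q)

theorem exists_pairing :
    ∃ k, k ≠ 4 ∧ ∃ f : CP (Fin k), Conn f ∧ P (rel f) (29 / 10) < 0 := by
  have h1 : T (Fin 660) (29 / 10) < 0 := by
    rw [T_eq, Fintype.card_fin]
    have h := Sr_neg
    have : (0 : ℝ) < (Nat.factorial 660 : ℝ) := by exact_mod_cast Nat.factorial_pos _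
    exact mul_neg_of_pos_of_neg this h
  have h4 : 0 ≤ T (Fin 4) (29 / 10) - 3 * T (Fin 2) (29 / 10) ^ 2 := by
    rw [T_eq, T_eq, Fintype.card_fin, Fintype.card_fin]
    have h := J24.Sr_small
    norm_num [Nat.factorial] at h ⊢
    linarith
  exact J16.exists_conn_aux (29 / 10) 660 (fun n => T_rec n (29 / 10)) h1 h4

theorem exists_cubic :
    ∃ (m : ℕ) (G : SimpleGraph (Fin m)), m ≠ 4 ∧ G.Connected ∧
      (∀ v, Nat.card (G.neighborSet v) = 3) ∧
      ∃ x : ℝ, 29 / 10 < x ∧ x ≤ 3 ∧ P G.Adj x = 0 := by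
  obtain ⟨k, hk, f, hf, hneg⟩ := exists_pairing
  obtain ⟨G, hG, hd, hP⟩ := J17.graph_of_pairing_aux k (fun W _ r N => J01.P_nat r N)
    (fun W _ r => isPoly_P r) (fun f g hf hg h x => hf.eq_of_nat hg h x) f hf (29 / 10) hneg
  obtain ⟨x, hx, hx3, hroot⟩ := J17.root_of_neg_aux G.Adj (fun N => J01.P_nat G.Adj N)
    (isPoly_P G.Adj) hP
  obtain ⟨m, G', hm, hG', hd', hP'⟩ := J20.make_cubic_aux
    (fun V W _ _ e r s h q => J14.P_congr e r s h q)
    (fun V _ _ G hc v x hx hr => J19.gadget_aux V G (fun W _ r N => J01.P_nat r N)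
      (fun W _ r => isPoly_P r) (fun f g hf hg h x => hf.eq_of_nat hg h x) hc v x hx hr)
    k G hG hd hk x (by linarith) hroot
  exact ⟨m, G', hm, hG', hd', x, hx, hx3, hP'⟩

theorem P_K33 (x : ℝ) :
    P (completeBipartiteGraph (Fin 3) (Fin 3)).Adj x =
      x * (x - 1) * (x ^ 4 - 8 * x ^ 3 + 28 * x ^ 2 - 47 * x + 31) :=
  J21.P_K33_aux (fun W _ r N => J01.P_nat r N) (fun W _ r => isPoly_P r)
    (fun f g hf hg h x => hf.eq_of_nat hg h x) x

end ChrRoots
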