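import Mathlib

set_option autoImplicit false

namespace ChrRoots

open Polynomial

/-- number of maps `σ : V → Fin N` with `σ u ≠ σ v` whenever `r u v` -/
noncomputable def col {V : Type} (r : V → V → Prop) (N : ℕ) : ℕ :=
  Nat.card {σ : V → Fin N // ∀ u v, r u v → σ u ≠ σ v}

/-- `f` is a polynomial function on the reals -/
def IsPoly (f : ℝ → ℝ) : Prop := ∃ p : ℝ[X], ∀ x, f x = p.eval x

open Classical in
/-- the chromatic polynomial of the relation `r`, as a function on the reals:
inclusion-exclusion over sets of pairs. -/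
noncomputable def P {V : Type} [Fintype V] (r : V → V → Prop) (q : ℝ) : ℝ :=
  ∑ A ∈ (Finset.univ.filter (fun e : V × V => r e.1 e.2)).powerset,
    (-1) ^ A.card * q ^ (Nat.card (Quot (fun u v : V => (u, v) ∈ A)))

/-- fixed point free involutions of a type: perfect matchings -/
def IsPM {H : Type} (f : H → H) : Prop := (∀ x, f (f x) = x) ∧ ∀ x, f x ≠ x

/-- cubic pairings on `V`: perfect matchings of the half edges `V × Fin 3` -/
abbrev CP (V : Type) : Type := {f : V × Fin 3 → V × Fin 3 // IsPM f}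

/-- adjacency of the multigraph of a pairing -/
def rel {V : Type} (f : CP V) (u v : V) : Prop := ∃ i, (f.1 (u, i)).1 = v

/-- connectedness of a pairing -/
def Conn {V : Type} (f : CP V) : Prop := Nonempty V ∧ ∀ u v, Relation.ReflTransGen (rel f) u v

open Classical in
/-- sum of chromatic polynomials over all cubic pairings -/
noncomputable def T (V : Type) [Fintype V] (q : ℝ) : ℝ := ∑ f : CP V, P (rel f) q

open Classical in
/-- sum of chromatic polynomials over all connected cubic pairings -/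
noncomputable def C (V : Type) [Fintype V] (q : ℝ) : ℝ :=
  ∑ f ∈ Finset.univ.filter (fun f : CP V => Conn f), P (rel f) q

/-- Gaussian moments with variance `v` -/
noncomputable def mom (v : ℝ) : ℕ → ℝ
  | 0 => 1
  | 1 => 0
  | (k + 2) => v * (k + 1) * mom v k

/-- variances: `h` has variance 1, the `ξ a` have variance -1 -/
def vr {N : ℕ} : Option (Fin N) → ℝ
  | none => 1
  | some _ => -1

/-- Gaussian functional on polynomials in `h = X none` and `ξ a = X (some a)` -/
noncomputable def EE (N : ℕ) : MvPolynomial (Option (Fin N)) ℝ →ₗ[ℝ] ℝ :=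
  (MvPolynomial.basisMonomials (Option (Fin N)) ℝ).constr ℝ
    (fun m => ∏ i, mom (vr i) (m i))

/-- `eSeq α γ n` is the coefficient of `t^n` in `exp (t α + t^2 γ)` -/
noncomputable def eSeq {A : Type} [CommRing A] [Algebra ℝ A] (α γ : A) : ℕ → A
  | 0 => 1
  | 1 => α
  | (n + 2) => (1 / ((n : ℝ) + 2)) • (α * eSeq α γ (n + 1) + 2 * γ * eSeq α γ n)

/-- `β_k = (-1)^k (6k-1)!! / (2k)!` -/
noncomputable def bet : ℕ → ℝ
  | 0 => 1
  | (k + 1) => - (3 / 2) * (6 * k + 1) * (6 * k + 5) / (k + 1) * bet k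

/-- coefficients of `b^q`, `b = ∑ bet k X^k` -/
noncomputable def dd (q : ℝ) : ℕ → ℝ
  | 0 => 1
  | (n + 1) => (∑ k : Fin (n + 1),
      (q * (k.1 + 1) - (n - k.1)) * bet (k.1 + 1) * dd q (n - k.1)) / (n + 1)
decreasing_by all_goals omega

/-- binomial coefficient `binom(a, s)` of a real number -/
noncomputable def bin (a : ℝ) : ℕ → ℝ
  | 0 => 1
  | (s + 1) => bin a s * (a - s) / (s + 1)

/-- `mu q s i = E[h^s u_i]`, `u_i` the coefficient of `t^i` in
`exp((q-3) t h^3 + (9/2) (q-1) t^2 h^4)` -/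
noncomputable def mu (q : ℝ) : ℕ → ℕ → ℝ
  | s, 0 => mom 1 s
  | s, 1 => (q - 3) * mom 1 (s + 3)
  | s, (i + 2) => ((q - 3) * mu q (s + 3) (i + 1) + 9 * (q - 1) * mu q (s + 4) i) / (i + 2)

/-- the explicit formula for `T_n(q) / n!` -/
noncomputable def Sr (q : ℝ) (n : ℕ) : ℝ :=
  ∑ k ∈ Finset.range (n / 2 + 1), dd q k *
    ∑ s ∈ Finset.range (n - 2 * k + 1),
      bin (1 - q / 2 - 3 * k) s * 6 ^ s * mu q s (n - 2 * k - s)

end ChrRoots
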