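import Pool.Agent.Helper809.Cub.Defs

set_option autoImplicit false

namespace ChrRoots

open Polynomial

namespace J01


theorem h441_quot {V : Type} [Fintype V] (A : Finset (V × V)) (N : ℕ) :
    Nat.card {σ : V → Fin N // ∀ u v, (u, v) ∈ A → σ u = σ v} =
      N ^ Nat.card (Quot (fun u v : V => (u, v) ∈ A)) := by
  have e : {σ : V → Fin N // ∀ u v, (u, v) ∈ A → σ u = σ v} ≃
      (Quot (fun u v : V => (u, v) ∈ A) → Fin N) :=
    { toFun := fun σ => Quot.lift σ.1 σ.2
      invFun := fun g => ⟨fun v => g (Quot.mk _ v), fun u v h => congrArg g (Quot.sound h)⟩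
      left_inv := fun σ => rfl
      right_inv := fun g => by
        funext x
        induction x using Quot.ind
        rfl }
  rw [Nat.card_congr e, Nat.card_fun, Nat.card_eq_fintype_card, Fintype.card_fin]

open Classical in
theorem h441_ind {V : Type} [Fintype V] {N : ℕ} (p : (V → Fin N) → Prop) [DecidablePred p] :
    ∑ σ : V → Fin N, (if p σ then (1:ℝ) else 0) = Nat.card {σ // p σ} := by
  rw [Finset.sum_boole, Nat.card_eq_fintype_card, Fintype.card_subtype]


theorem P_nat {V : Type} [Fintype V] (r : V → V → Prop) (N : ℕ) :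
    P r (N : ℝ) = col r N := by
  classical
  unfold P col
  generalize hE : Finset.univ.filter (fun e : V × V => r e.1 e.2) = E
  have hE' : ∀ e, e ∈ E ↔ r e.1 e.2 := by
    intro e
    rw [← hE]
    simp
  have h1 : (Nat.card {σ : V → Fin N // ∀ u v, r u v → σ u ≠ σ v} : ℝ) =
      ∑ σ : V → Fin N, ∏ e ∈ E, (-(if σ e.1 = σ e.2 then (1:ℝ) else 0) + 1) := by
    rw [← h441_ind]
    refine Finset.sum_congr rfl fun σ _ => ?_
    by_cases h : ∀ u v, r u v → σ u ≠ σ v
    · rw [if_pos h, Finset.prod_eq_one]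
      intro e he
      rw [if_neg (h e.1 e.2 ((hE' e).1 he))]
      simp
    · rw [if_neg h]
      push Not at h
      obtain ⟨u, v, huv, hs⟩ := h
      symm
      apply Finset.prod_eq_zero ((hE' (u, v)).2 huv)
      rw [if_pos hs]
      simp
  rw [h1]
  simp_rw [Finset.prod_add]
  rw [Finset.sum_comm]
  refine Finset.sum_congr rfl fun A _ => ?_
  have h2 : ∀ σ : V → Fin N, (∏ e ∈ A, -(if σ e.1 = σ e.2 then (1:ℝ) else 0)) * ∏ e ∈ E \ A, (1:ℝ) =
      (-1) ^ A.card * (if ∀ u v, (u, v) ∈ A → σ u = σ v then (1:ℝ) else 0) := by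
    intro σ
    rw [Finset.prod_const_one, mul_one, Finset.prod_neg]
    congr 1
    by_cases h : ∀ u v, (u, v) ∈ A → σ u = σ v
    · rw [if_pos h, Finset.prod_eq_one]
      intro e he
      rw [if_pos (h e.1 e.2 he)]
    · rw [if_neg h]
      push Not at h
      obtain ⟨u, v, huv, hs⟩ := h
      apply Finset.prod_eq_zero huv
      rw [if_neg hs]
  rw [Finset.sum_congr rfl fun σ _ => h2 σ, ← Finset.mul_sum, h441_ind, h441_quot]
  push_cast
  rfl



end J01

end ChrRoots
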