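import Pool.Agent.Helper809.Cub.Defs

set_option autoImplicit false

namespace ChrRoots

open Polynomial

namespace J15


theorem T_rec_aux (n : ℕ) (q : ℝ)
    (hC : ∀ (V W : Type) [Fintype V] [Fintype W], (V ≃ W) → C V q = C W q)
    (hT : ∀ (V W : Type) [Fintype V] [Fintype W], (V ≃ W) → T V q = T W q)
    (hdec : T (Fin (n + 1)) q = ∑ S ∈ (Finset.univ : Finset (Finset (Fin (n + 1)))).filter
      (fun S => 0 ∈ S), C {x // x ∈ S} q * T {x // x ∉ S} q) :
    T (Fin (n + 1)) q = ∑ k ∈ Finset.range (n + 1),
      (n.choose k : ℝ) * C (Fin (k + 1)) q * T (Fin (n - k)) q := by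
  classical
  have hF : ∀ S ∈ (Finset.univ : Finset (Finset (Fin (n + 1)))).filter (fun S => 0 ∈ S),
      C {x // x ∈ S} q * T {x // x ∉ S} q =
        C (Fin S.card) q * T (Fin (n + 1 - S.card)) q := by
    intro S _
    have e1 : C {x // x ∈ S} q = C (Fin S.card) q := hC _ _ S.equivFin
    have hc : Fintype.card {x // x ∉ S} = n + 1 - S.card := by
      rw [Fintype.card_subtype_compl, Fintype.card_coe, Fintype.card_fin]
    have e2 : T {x // x ∉ S} q = T (Fin (n + 1 - S.card)) q :=
      hT _ _ (Fintype.equivFinOfCardEq hc)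
    rw [e1, e2]
  rw [hdec, Finset.sum_congr rfl hF]
  have h1 : ∑ S ∈ (Finset.univ : Finset (Finset (Fin (n + 1)))).filter (fun S => 0 ∈ S),
      C (Fin S.card) q * T (Fin (n + 1 - S.card)) q =
      ∑ S ∈ ((Finset.univ : Finset (Fin (n + 1))).erase 0).powerset,
        C (Fin (S.card + 1)) q * T (Fin (n - S.card)) q := by
    refine Finset.sum_nbij' (fun S => S.erase 0) (fun S => insert 0 S) ?_ ?_ ?_ ?_ ?_
    · intro S hS
      rw [Finset.mem_powerset]
      exact Finset.erase_subset_erase _ (Finset.subset_univ _)
    · intro S hS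
      simp
    · intro S hS
      simp only [Finset.mem_filter, Finset.mem_univ, true_and] at hS
      exact Finset.insert_erase hS
    · intro S hS
      rw [Finset.mem_powerset] at hS
      have : (0 : Fin (n + 1)) ∉ S := fun h => by
        have := hS h
        simp at this
      exact Finset.erase_insert this
    · intro S hS
      simp only [Finset.mem_filter, Finset.mem_univ, true_and] at hS
      have hcard : (S.erase 0).card + 1 = S.card := Finset.card_erase_add_one hS
      have h2 : n + 1 - S.card = n - (S.erase 0).card := by omega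
      rw [hcard, h2]
  rw [h1, Finset.sum_powerset]
  have hcard : ((Finset.univ : Finset (Fin (n + 1))).erase 0).card = n := by
    rw [Finset.card_erase_of_mem (Finset.mem_univ _), Finset.card_univ, Fintype.card_fin]
    rfl
  rw [hcard]
  refine Finset.sum_congr rfl fun k _ => ?_
  have : ∀ S ∈ Finset.powersetCard k ((Finset.univ : Finset (Fin (n + 1))).erase 0),
      C (Fin (S.card + 1)) q * T (Fin (n - S.card)) q =
        C (Fin (k + 1)) q * T (Fin (n - k)) q := by
    intro S hS
    rw [(Finset.mem_powersetCard.1 hS).2]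
  rw [Finset.sum_congr rfl this, Finset.sum_const, Finset.card_powersetCard, hcard, nsmul_eq_mul]
  ring



end J15

end ChrRoots
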