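import Pool.Agent.Helper809.Cub.Defs

set_option autoImplicit false

namespace ChrRoots

open Polynomial

namespace Num

/-- `dot [d_0, d_1, ...] [b_0, b_1, ...] = ∑ d_i b_i` -/
def dot (ds : List ℕ) : List ℕ → ℕ :=
  List.rec (motive := fun _ => List ℕ → ℕ)
    (fun _ => 0)
    (fun d _ ih bs => List.rec (motive := fun _ => ℕ) 0
      (fun b bs' _ => Nat.add (Nat.mul b d) (ih bs')) bs) ds

/-- numerator of the recursion for `(-800)^k bet k` -/
def bnum (k b : ℕ) : ℕ :=
  Nat.mul (Nat.mul 1200 (Nat.mul (Nat.add (Nat.mul 6 k) 1) (Nat.add (Nat.mul 6 k) 5))) b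

/-- list of the `(-800)^k bet k`, `k = 1, ..., m` -/
def blist (m : ℕ) : ℕ → ℕ → List ℕ :=
  Nat.rec (motive := fun _ => ℕ → ℕ → List ℕ)
    (fun _ _ => [])
    (fun _ ih k b =>
      List.cons (Nat.div (bnum k b) (Nat.succ k)) (ih (Nat.succ k) (Nat.div (bnum k b) (Nat.succ k)))) m

/-- exactness of the divisions in `blist` -/
def bchk (bs : List ℕ) : ℕ → ℕ → Bool :=
  List.rec (motive := fun _ => ℕ → ℕ → Bool)
    (fun _ _ => true)
    (fun b' _ ih k b => and (Nat.beq (Nat.mul (Nat.succ k) b') (bnum k b)) (ih (Nat.succ k) b')) bs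

/-- list of `k b_k` -/
def kb (bs : List ℕ) : ℕ → List ℕ :=
  List.rec (motive := fun _ => ℕ → List ℕ) (fun _ => [])
    (fun b _ ih k => List.cons (Nat.mul k b) (ih (Nat.succ k))) bs

/-- list of the `(-800)^n dd n`, reversed -/
def dlist (bs kbs : List ℕ) (m : ℕ) : ℕ → List ℕ → List ℕ :=
  Nat.rec (motive := fun _ => ℕ → List ℕ → List ℕ)
    (fun _ ds => ds)
    (fun _ ih n ds => ih (Nat.succ n)
      (List.cons (Nat.sub (Nat.div (Nat.mul 39 (dot ds kbs)) (Nat.mul 10 n)) (dot ds bs)) ds)) m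

/-- check of the recursion for the list of the `(-800)^n dd n` (reversed) -/
def dchk (bs kbs : List ℕ) (n : ℕ) : List ℕ → Bool :=
  Nat.rec (motive := fun _ => List ℕ → Bool)
    (fun ds => List.rec (motive := fun _ => Bool) false (fun x ds' _ =>
      and (Nat.beq x 1) (List.rec (motive := fun _ => Bool) true (fun _ _ _ => false) ds')) ds)
    (fun n' ih ds => List.rec (motive := fun _ => Bool) false (fun x ds' _ =>
      and (ih ds') (Nat.beq (Nat.mul (Nat.mul 10 (Nat.succ n')) (Nat.add x (dot ds' bs)))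
        (Nat.mul 39 (dot ds' kbs)))) ds) n

/-- one entry of the row recursion -/
def step (E i y1 y2 o : ℕ) : ℕ :=
  Nat.add (Nat.mul (Nat.mul 3 i) y1)
    (Nat.add (Nat.mul (Nat.mul 3420 (Nat.mul i (Nat.pred i))) y2)
      (Nat.mul (Nat.sub E i) o))

/-- row recursion; on reaching the end the last two entries are added -/
def rowF (E : ℕ) (old : List ℕ) : ℕ → ℕ → ℕ → List ℕ :=
  List.rec (motive := fun _ => ℕ → ℕ → ℕ → List ℕ)
    (fun i y1 y2 =>
      List.cons (step E i y1 y2 (Nat.add y1 (Nat.mul (Nat.mul 1710 (Nat.pred i)) y2)))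
      (List.cons (step E (Nat.succ i)
        (step E i y1 y2 (Nat.add y1 (Nat.mul (Nat.mul 1710 (Nat.pred i)) y2))) y1 0) List.nil))
    (fun o _ ih i y1 y2 => List.cons (step E i y1 y2 o) (ih (Nat.succ i) (step E i y1 y2 o) y1)) old

/-- Horner evaluation of row `j`, `new` is row `j + 1`, whose entries `2j-1` and `2j-2` give the
last entry of row `j` -/
def horner (F J : ℕ) (row : List ℕ) : List ℕ → ℕ → ℕ → ℕ → ℕ → ℕ → ℕ :=
  List.rec (motive := fun _ => List ℕ → ℕ → ℕ → ℕ → ℕ → ℕ → ℕ)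
    (fun _ i c B y1 y2 => Nat.add (Nat.mul B (Nat.sub F (Nat.mul 60 i)))
      (Nat.mul c (Nat.add y1 (Nat.mul (Nat.mul 1710 (Nat.pred i)) y2))))
    (fun y _ ih new i c B y1 _ =>
      List.rec (motive := fun _ => ℕ) 0 (fun z new' _ =>
      ih new' (Nat.succ i) (Nat.div (Nat.mul c (Nat.sub J i)) (Nat.succ i))
        (Nat.add (Nat.mul B (Nat.sub F (Nat.mul 60 i))) (Nat.mul c y)) z y1) new) row

/-- main loop; at stage `j` the list `row` holds the entries `0, ..., 2j-1` of row `j`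
and `A - B` is the partial sum up to `j - 1` -/
def mainLoop (m : ℕ) (ds : List ℕ) : ℕ → List ℕ → ℕ → ℕ → Bool :=
  List.rec (motive := fun _ => ℕ → List ℕ → ℕ → ℕ → Bool)
    (fun _ _ A B => Nat.ble (Nat.succ A) B)
    (fun d _ ih j row A B =>
      ih (Nat.succ j) (rowF (Nat.succ (Nat.mul 2 j)) row 0 0 0)
        (Nat.add (Nat.mul (Nat.mul (Nat.mul 2 j) (Nat.pred (Nat.mul 2 j))) B)
            (Nat.mul (Nat.mul (Nat.pow 8 j) d)
              (horner (Nat.sub (Nat.add 27 (Nat.mul 180 m)) (Nat.mul 60 j)) (Nat.mul 2 j) row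
                (rowF (Nat.succ (Nat.mul 2 j)) row 0 0 0) 0 1 0 0 0)))
        (Nat.mul (Nat.mul (Nat.mul 2 j) (Nat.pred (Nat.mul 2 j))) A)) ds

/-- start of the main loop -/
def start (m : ℕ) (ds : List ℕ) : Bool :=
  List.rec (motive := fun _ => Bool) false (fun d0 ds' _ => mainLoop m ds' 1 [1, 3] d0 0) ds

/-- check of the numbers `bs` and `ds`, and of the final inequality -/
def check2 (m : ℕ) (bs ds : List ℕ) : Bool :=
  and (bchk bs 0 1) (and (dchk bs (kb bs 1) m ds) (start m ds))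

/-- the complete check -/
def check (m : ℕ) : Bool :=
  check2 m (blist m 0 1) (dlist (blist m 0 1) (kb (blist m 0 1) 1) m 1 [1])


/-- scaled numbers `E[h^(2j-i) u_i]` for `q = 29/10` -/
noncomputable def Ym (j i : ℕ) : ℝ := (-10) ^ i * i.factorial * mu (29 / 10) (2 * j - i) i

/-- the inner sums, scaled -/
noncomputable def Rm (m j : ℕ) : ℝ :=
  ∑ i ∈ Finset.range (2 * j + 1), ((2 * j).choose i : ℝ) * Ym j i *
    ∏ t ∈ Finset.range (2 * j - i), (27 + 180 * ((m : ℝ) - j) + 60 * t)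

/-- scaled `dd` -/
noncomputable def dh (n : ℕ) : ℝ := (-800) ^ n * dd (29 / 10) n

/-- scaled `bet` -/
noncomputable def bh (n : ℕ) : ℝ := (-800) ^ n * bet n

/-- scaled partial sums -/
noncomputable def Vm (m : ℕ) : ℕ → ℝ
  | 0 => dh m
  | (j + 1) => 8 ^ (j + 1) * Rm m (j + 1) * dh (m - (j + 1)) -
      (2 * (j + 1)) * (2 * (j + 1) - 1) * Vm m j

end Num

end ChrRoots
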